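import Pool.Agent.P.MP_faec4e_pr.PL.Iface

/-! Step BASIC. -/

set_option autoImplicit false

namespace Pool.Agent.P.MP_faec4e_pr.PL

open MeasureTheory Set Pool.Agent.P.MP_faec4e_pr
open scoped ENNReal

lemma basic_int {d : ℕ} (G : Measure (Fin d → ℝ)) [IsFiniteMeasure G] (x : Fin d → ℝ) :
    Integrable (fun y : Fin d → ℝ => (∏ i, y i)⁻¹)
      (G.restrict {y | ∀ i, 0 < x i ∧ x i ≤ y i}) := by
  refine Integrable.of_bound (Measurable.aestronglyMeasurable (by fun_prop)) (∏ i, x i)⁻¹ ?_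
  filter_upwards [ae_restrict_mem (measurableSet_up x)] with y hy
  have h1 : 0 < ∏ i, x i := Finset.prod_pos fun i _ => (hy i).1
  have h2 : ∏ i, x i ≤ ∏ i, y i := Finset.prod_le_prod (fun i _ => (hy i).1.le) fun i _ => (hy i).2
  rw [Real.norm_of_nonneg (inv_nonneg.2 (h1.le.trans h2))]
  exact inv_anti₀ h1 h2

lemma basic_mix {d : ℕ} {f e : (Fin d → ℝ) → ℝ} (hf : IsSMU f) (he : IsSMU e) :
    IsSMU fun z => (f z + e z) / 2 := by
  obtain ⟨G, hG, h1, rfl⟩ := hf
  obtain ⟨H, hH, h2, rfl⟩ := he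
  refine ⟨(2 : ℝ≥0∞)⁻¹ • (G + H), ⟨?_⟩, Measure.ae_smul_measure (ae_add_measure_iff.2 ⟨h1, h2⟩) _,
    funext fun x => ?_⟩
  · rw [Measure.smul_apply, Measure.add_apply, measure_univ, measure_univ, one_add_one_eq_two,
      smul_eq_mul, ENNReal.inv_mul_cancel (by norm_num) (by norm_num)]
  · rw [smu, smu, smu, Measure.restrict_smul, Measure.restrict_add, integral_smul_measure,
      integral_add_measure (basic_int G x) (basic_int H x)]
    simp only [ENNReal.toReal_inv, ENNReal.toReal_ofNat, smul_eq_mul]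
    ring

lemma basic_tau_le {a b : ℝ} (ha : 0 ≤ a) (hb : 0 ≤ b) : (a - b) ^ 2 / (a + b) ≤ a + b := by
  rcases (add_nonneg ha hb).eq_or_lt with h | h
  · rw [← h, div_zero]
  · rw [div_le_iff₀ h]
    nlinarith [mul_nonneg ha hb]

lemma basic_sqrt_le {a b : ℝ} (ha : 0 ≤ a) (hb : 0 ≤ b) :
    (√a - √b) ^ 2 ≤ (a - b) ^ 2 / (a + b) := by
  obtain ⟨u, hu, rfl⟩ : ∃ u, 0 ≤ u ∧ a = u ^ 2 := ⟨√a, Real.sqrt_nonneg _, (Real.sq_sqrt ha).symm⟩
  obtain ⟨v, hv, rfl⟩ : ∃ v, 0 ≤ v ∧ b = v ^ 2 := ⟨√b, Real.sqrt_nonneg _, (Real.sq_sqrt hb).symm⟩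
  rw [Real.sqrt_sq hu, Real.sqrt_sq hv]
  rcases (add_nonneg ha hb).eq_or_lt with h | h
  · have h1 : u = 0 := by nlinarith
    have h2 : v = 0 := by nlinarith
    simp [h1, h2]
  · rw [le_div_iff₀ h]
    nlinarith [mul_nonneg (sq_nonneg (u - v)) (mul_nonneg hu hv)]

lemma basic_psi {a b : ℝ} (ha : 0 ≤ a) (hb : 0 ≤ b) :
    b * ((a - b) / (a + b)) = (a - b) / 2 - (a - b) ^ 2 / (a + b) / 2 := by
  rcases (add_nonneg ha hb).eq_or_lt with h | h
  · have h1 : a = 0 := by linarith
    have h2 : b = 0 := by linarith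
    simp [h1, h2]
  · field_simp
    ring

theorem p_BASIC (hSHAPE : S_SHAPE) :
    S_BASIC := by
  intro e he
  have se := hSHAPE e he
  have hm : Measurable fun x => ENNReal.ofReal (e x) := se.meas.ennreal_ofReal
  refine ⟨fun n => ?_, fun f hf => ?_⟩
  · have h1 : ∀ᵐ z ∂(volume.withDensity fun x => ENNReal.ofReal (e x)), 0 < e z :=
      (ae_withDensity_iff hm).2 (.of_forall fun z hz => by simpa using hz)
    have : IsFiniteMeasure (volume.withDensity fun x => ENNReal.ofReal (e x)) :=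
      isFiniteMeasure_withDensity_ofReal se.intg.2
    exact ae_all_iff.2 fun i => (Measure.tendsto_eval_ae_ae (μ := fun _ : Fin n =>
      volume.withDensity fun x => ENNReal.ofReal (e x)) (i := i)).eventually h1
  have sf := hSHAPE f hf
  have h0 : ∀ z, 0 ≤ tau f e z := fun z =>
    div_nonneg (sq_nonneg _) (add_nonneg (sf.nonneg z) (se.nonneg z))
  have hi : Integrable (tau f e) := by
    refine (sf.intg.add se.intg).mono' (Measurable.aestronglyMeasurable ?_) (.of_forall fun z => ?_)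
    · exact ((sf.meas.sub se.meas).pow_const 2).div (sf.meas.add se.meas)
    · rw [Real.norm_of_nonneg (h0 z)]
      exact basic_tau_le (sf.nonneg z) (se.nonneg z)
  refine ⟨hi, ?_, ?_, fun n X hX hM => ?_⟩
  · rw [hellinger, Real.sq_sqrt (mul_nonneg (by norm_num) (integral_nonneg fun _ => sq_nonneg _))]
    have := integral_mono_of_nonneg (.of_forall fun z => sq_nonneg (√(f z) - √(e z))) hi
      (.of_forall fun z => basic_sqrt_le (sf.nonneg z) (se.nonneg z))
    linarith
  · rw [law, integral_withDensity_eq_integral_toReal_smul hm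
      (.of_forall fun _ => ENNReal.ofReal_lt_top)]
    have h1 : ∀ z, (ENNReal.ofReal (e z)).toReal • psi f e z = (f z - e z) / 2 - tau f e z / 2 :=
      fun z => by
        rw [ENNReal.toReal_ofReal (se.nonneg z), smul_eq_mul]
        exact basic_psi (sf.nonneg z) (se.nonneg z)
    simp only [h1]
    have h2 : Integrable fun z => (f z - e z) / 2 := (sf.intg.sub se.intg).div_const 2
    rw [integral_sub h2 (hi.div_const 2), integral_div,
      integral_div, integral_sub sf.intg se.intg, sf.one, se.one]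
    ring
  · rw [emp, integral_smul_measure, integral_finsetSum_measure fun i _ => integrable_dirac (by simp)]
    simp only [integral_dirac, smul_eq_mul]
    refine mul_nonneg ENNReal.toReal_nonneg ?_
    have hg : ∀ i, 0 < (f (X i) + e (X i)) / 2 := fun i => by linarith [sf.nonneg (X i), hX i]
    have h1 := hM.2 _ (basic_mix hf he)
    have h2 : 0 < ∏ i, (f (X i) + e (X i)) / 2 := Finset.prod_pos fun i _ => hg i
    have h3 : (1 : ℝ) ≤ ∏ i, f (X i) / ((f (X i) + e (X i)) / 2) := by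
      rw [Finset.prod_div_distrib, one_le_div h2]
      exact h1
    have h4 : ∏ i, f (X i) / ((f (X i) + e (X i)) / 2) ≤ ∏ i, Real.exp (psi f e (X i)) := by
      refine Finset.prod_le_prod (fun i _ => div_nonneg (sf.nonneg _) (hg i).le) fun i _ => ?_
      refine le_trans (le_of_eq ?_) (Real.add_one_le_exp _)
      have h5 : f (X i) + e (X i) ≠ 0 := by linarith [hg i]
      rw [psi]
      field_simp
      ring
    rw [← Real.exp_sum] at h4
    exact Real.one_le_exp_iff.1 (h3.trans h4)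

end Pool.Agent.P.MP_faec4e_pr.PL
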