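import Pool.Agent.P.MP_faec4e_pr.PL.Cell

/-! Step DET. -/

set_option autoImplicit false

namespace Pool.Agent.P.MP_faec4e_pr.PL

open MeasureTheory Finset Pool.Agent.P.MP_faec4e_pr

lemma det_num1 {A r q : ℝ} (A0 : 0 < A) (hr : 1 ≤ r) (hq : 0 < q) :
    2 * 10 ^ 9 * (3 * r + 1) ^ 8 * (A * r / q ^ 3) ^ 2 ≤
      1 / (4 * (3 * r + 2)) * ((2 * 10 ^ 5 * A * r ^ 4 / q ^ 2) ^ 3 / A) := by
  have h1 : (3 * r + 1) ^ 8 * (3 * r + 2) ≤ 10 ^ 6 * r ^ 10 := by
    calc _ ≤ (4 * r) ^ 8 * (5 * r) := by gcongr <;> linarith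
      _ = 327680 * r ^ 9 * 1 := by ring
      _ ≤ 10 ^ 6 * r ^ 9 * r := by gcongr; norm_num
      _ = _ := by ring
  have h2 : (0 : ℝ) < 3 * r + 2 := by linarith
  calc _ = 2 * 10 ^ 9 * A ^ 2 * r ^ 2 / (q ^ 6 * (3 * r + 2)) * ((3 * r + 1) ^ 8 * (3 * r + 2)) := by
        field_simp
    _ ≤ 2 * 10 ^ 9 * A ^ 2 * r ^ 2 / (q ^ 6 * (3 * r + 2)) * (10 ^ 6 * r ^ 10) := by gcongr
    _ = _ := by field_simp; ring

lemma det_num2 {A r q : ℝ} (A0 : 0 < A) (hr : 1 ≤ r) (hq : 1 ≤ q) :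
    3 * r * (3 * r * ((3 * r + 2) * ((r + 1) * (4 * (2 * 10 ^ 5 * A * r ^ 4 / q ^ 2)) +
      3 * q * (2000 * (3 * r + 1) ^ 2 * (A * r / q ^ 3) / (1 / (4 * (3 * r + 2))))))) +
      8 * (A * r / q ^ 3) ≤ 2 * 10 ^ 8 * A * r ^ 8 / q ^ 2 := by
  have h2 : (0 : ℝ) < 3 * r + 2 := by linarith
  have r0 : 0 < r := by linarith
  have a1 : 3 * q * (2000 * (3 * r + 1) ^ 2 * (A * r / q ^ 3) / (1 / (4 * (3 * r + 2)))) ≤
      1920000 * r ^ 5 * (A / q ^ 2) := by
    calc _ = 24000 * ((3 * r + 1) ^ 2 * (3 * r + 2) * r * 1) * (A / q ^ 2) := by field_simp; ring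
      _ ≤ 24000 * ((4 * r) ^ 2 * (5 * r) * r * r) * (A / q ^ 2) := by gcongr <;> linarith
      _ = _ := by ring
  have a2 : (r + 1) * (4 * (2 * 10 ^ 5 * A * r ^ 4 / q ^ 2)) ≤ 1600000 * r ^ 5 * (A / q ^ 2) := by
    calc _ ≤ (2 * r) * (4 * (2 * 10 ^ 5 * A * r ^ 4 / q ^ 2)) := by gcongr; linarith
      _ = _ := by ring
  have a3 : A * r / q ^ 3 ≤ r ^ 8 * (A / q ^ 2) := by
    calc _ = r ^ 1 * (A / (q ^ 2 * q)) := by field_simp
      _ ≤ r ^ 8 * (A / (q ^ 2 * 1)) := by gcongr; norm_num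
      _ = _ := by ring
  have a4 : 0 ≤ r ^ 8 * (A / q ^ 2) := by positivity
  calc _ ≤ 3 * r * (3 * r * ((5 * r) * (1600000 * r ^ 5 * (A / q ^ 2) +
        1920000 * r ^ 5 * (A / q ^ 2)))) + 8 * (r ^ 8 * (A / q ^ 2)) := by
        gcongr
        linarith
    _ = 158400008 * (r ^ 8 * (A / q ^ 2)) := by ring
    _ ≤ 200000000 * (r ^ 8 * (A / q ^ 2)) := by gcongr; norm_num
    _ = _ := by ring

theorem p_DET (hHS : S_HS) :
    S_DET := by
  intro f e B M A μ r hf he hB M0 hM fin hμ hA hr dev tint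
  have B0 : 0 ≤ B := (he.nonneg 0).trans (hB 0)
  have A0 : 0 < A := lt_of_lt_of_le (by positivity) hA
  have r1 : (1 : ℝ) ≤ r := by exact_mod_cast hr
  obtain ⟨q, hq⟩ : ∃ q : ℝ, q = 2 ^ r := ⟨_, rfl⟩
  have q1 : 1 ≤ q := hq ▸ one_le_pow₀ (by norm_num)
  have q2 : (4 : ℝ) ^ r = q ^ 2 := by rw [hq, ← pow_mul, mul_comm, pow_mul]; norm_num
  have q3 : (8 : ℝ) ^ r = q ^ 3 := by rw [hq, ← pow_mul, mul_comm, pow_mul]; norm_num
  have q4 : (2 : ℝ) ^ (3 * r) = q ^ 3 := by rw [hq, ← pow_mul, mul_comm]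
  rw [q3] at dev
  rw [q2]
  have C : Ctx f e μ M (A * r / q ^ 3) := ⟨hf, he, fin, dev, by positivity, tint⟩
  have e1 : ∫ z, psi f e z ∂μ - ∫ z, psi f e z ∂law e = NN μ e (psi f e) 0 M 0 M := by
    have h1 : μ.restrict (rect 0 M 0 M) = μ := Measure.restrict_eq_self_of_ae_mem hμ
    have h2 : (law e).restrict (rect 0 M 0 M) = law e := by
      refine Measure.restrict_eq_self_of_ae_mem ?_
      change law e (rect 0 M 0 M)ᶜ = 0
      rw [law, withDensity_apply _ (measurableSet_rect _ _ _ _).compl]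
      refine setLIntegral_eq_zero (measurableSet_rect _ _ _ _).compl fun z hz => ?_
      have : e z = 0 := by
        simp only [rect, Set.mem_compl_iff, Set.mem_ofPred_eq, not_and_or, not_lt, not_le] at hz
        rcases hz with h | h | h | h
        exacts [he.neg z (Or.inl h), hM z (Or.inl h), he.neg z (Or.inr h), hM z (Or.inr h)]
      simp [this]
    simp only [NN, RI, h1, h2]
  rw [e1]
  obtain ⟨x, hx⟩ : ∃ x : ℕ → ℝ, x = fun k => M / q ^ 3 * 2 ^ k := ⟨_, rfl⟩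
  have mx : Monotone x := fun i j h => by
    simp only [hx]
    gcongr
    norm_num
  have x0 : x 0 = M / q ^ 3 := by simp [hx]
  have x1 : x (3 * r) = M := by simp only [hx, q4]; field_simp
  have x2 : ∀ k, x (k + 1) = 2 * x k := fun k => by simp only [hx, pow_succ]; ring
  have xp : ∀ k, 0 < x k := fun k => by simp only [hx]; positivity
  have xM : ∀ k ∈ range (3 * r), 2 * x k ≤ M := fun k hk => by
    rw [← x2, ← x1]
    exact mx (mem_range.1 hk)
  have x3 : x 0 ≤ M := x1 ▸ mx (Nat.zero_le _)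
  have AN := C.NN_add C.psi_meas C.psi_bd
  have AT := RI_add tint
  have strip : B * (M / q ^ 3 * M) ≤ A * r / q ^ 3 := by
    calc _ = B * M ^ 2 * 1 / q ^ 3 := by ring
      _ ≤ _ := by gcongr; linarith
  have s1 := C.NN_triv C.psi_meas C.psi_bd le_rfl (xp 0).le x3 le_rfl M0.le le_rfl B0
    fun z _ => hB z
  have s2 := C.NN_triv C.psi_meas C.psi_bd (xp 0).le x3 le_rfl le_rfl (xp 0).le x3 B0
    fun z _ => hB z
  have s3 : B * ((x 0 - 0) * (M - 0)) ≤ A * r / q ^ 3 := by simpa [x0] using strip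
  have s4 : B * ((M - x 0) * (x 0 - 0)) ≤ A * r / q ^ 3 := by
    refine le_trans ?_ strip
    rw [sub_zero, mul_comm (M - x 0), ← x0]
    gcongr
    · exact (xp 0).le
    · linarith [xp 0]
  obtain ⟨θ, hθ⟩ : ∃ θ : ℝ, θ = 1 / (4 * (3 * r + 2)) := ⟨_, rfl⟩
  have θ0 : 0 < θ := by rw [hθ]; positivity
  have θ1 : θ ≤ 1 := by rw [hθ, div_le_one (by positivity)]; linarith
  have θ2 : (3 * r + 2) * θ = 1 / 4 := by rw [hθ]; field_simp
  obtain ⟨E, hE⟩ : ∃ E : ℝ, E = (3 * r + 2) * ((r + 1) * (4 * (2 * 10 ^ 5 * A * r ^ 4 / q ^ 2)) +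
      3 * q * (2000 * (3 * r + 1) ^ 2 * (A * r / q ^ 3) / θ)) := ⟨_, rfl⟩
  have box : ∀ k ∈ range (3 * r), ∀ l ∈ range (3 * r),
      |NN μ e (psi f e) (x k) (x (k + 1)) (x l) (x (l + 1))| ≤
        1 / 4 * RI volume (tau f e) (x k) (x (k + 1)) (x l) (x (l + 1)) + E := by
    intro k hk l hl
    have := C.cell hHS (A := A) (θ := θ) (l := 2 * 10 ^ 5 * A * r ^ 4 / q ^ 2) (r := r) (L := 3 * r)
      (xp k) (xp l) (xM k hk) (xM l hl) A0 ?_ ?_ θ0 θ1 ?_ ?_
    · rw [x2, x2, hE, ← θ2]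
      rw [← hq] at this
      push_cast at this
      refine this.trans (le_of_eq ?_)
      ring
    · have t1 := hf.top _ _ (xp k) (xp l)
      have t2 : e ![x k, x l] * (x k * x l) ≤ B * (M * M) := by
        have := xp k
        have := xp l
        have := he.nonneg ![x k, x l]
        gcongr
        exacts [hB _, by linarith [xM k hk], by linarith [xM l hl]]
      unfold FF
      linarith
    · rw [q4, mul_div_cancel₀ _ (by positivity)]
      exact le_mul_of_one_le_right A0.le r1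
    · rw [q2]
      have : (1 : ℝ) ≤ r ^ 4 := one_le_pow₀ r1
      calc _ = 120 * A * 1 / q ^ 2 := by ring
        _ ≤ _ := by gcongr; norm_num
    · push_cast
      rw [hθ]
      exact det_num1 A0 r1 (by linarith)
  have s5 : |NN μ e (psi f e) (x 0) M (x 0) M| ≤ (∫ z, tau f e z) / 4 + 3 * r * (3 * r * E) := by
    have t1 := AN.sum_xy mx mx (3 * r) (3 * r)
    have t2 := AT.sum_xy mx mx (3 * r) (3 * r)
    rw [x1] at t1 t2
    have t3 : RI volume (tau f e) (x 0) M (x 0) M ≤ ∫ z, tau f e z :=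
      setIntegral_le_integral tint (.of_forall fun z =>
        div_nonneg (sq_nonneg _) (add_nonneg (hf.nonneg z) (he.nonneg z)))
    rw [← t1]
    calc _ ≤ ∑ k ∈ range (3 * r), ∑ l ∈ range (3 * r),
          (1 / 4 * RI volume (tau f e) (x k) (x (k + 1)) (x l) (x (l + 1)) + E) :=
          (abs_sum_le_sum_abs _ _).trans (sum_le_sum fun k hk => (abs_sum_le_sum_abs _ _).trans
            (sum_le_sum fun l hl => box k hk l hl))
      _ = 1 / 4 * RI volume (tau f e) (x 0) M (x 0) M + 3 * r * (3 * r * E) := by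
          simp only [sum_add_distrib, ← mul_sum, t2, sum_const, card_range, nsmul_eq_mul]
          push_cast
          ring
      _ ≤ _ := by linarith
  have fin := det_num2 A0 r1 q1
  rw [← hθ, ← hE] at fin
  rw [AN.x 0 (x 0) M 0 M (xp 0).le x3, AN.y (x 0) M 0 (x 0) M (xp 0).le x3]
  rw [abs_le] at *
  constructor <;> linarith [s1.1, s1.2, s2.1, s2.2, s5.1, s5.2]

end Pool.Agent.P.MP_faec4e_pr.PL
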