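import Pool.Agent.P.MP_faec4e_pr.PL.Iface

/-! Step DEV. -/

set_option autoImplicit false

namespace Pool.Agent.P.MP_faec4e_pr.PL

open MeasureTheory Set Pool.Agent.P.MP_faec4e_pr
open scoped ENNReal

section

variable {α : Type} [MeasurableSpace α] {ν : Measure α} [IsProbabilityMeasure ν]

lemma dev_one {g : α → ℝ} (hg : Measurable g) (h1 : ∀ z, |g z| ≤ 1) (h0 : ∫ z, g z ∂ν = 0) {p t : ℝ}
    (h2 : ∫ z, g z ^ 2 ∂ν ≤ p) (t0 : 0 < t) (t1 : t ≤ 1) (n : ℕ) (c : ℝ) :
    (Measure.pi fun _ : Fin n => ν).real {X | n * (t * p) + c / t ≤ ∑ i, g (X i)} ≤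
      Real.exp (-c) := by
  have b1 : ∀ z, |t * g z| ≤ 1 := fun z => by
    rw [abs_mul, abs_of_pos t0]
    exact mul_le_one₀ t1 (abs_nonneg _) (h1 z)
  have i1 : Integrable g ν := .of_bound hg.aestronglyMeasurable 1 (.of_forall h1)
  have i2 : Integrable (fun z => g z ^ 2) ν := .of_bound (hg.pow_const 2).aestronglyMeasurable 1
    (.of_forall fun z => by
      rw [Real.norm_eq_abs, abs_pow]
      exact pow_le_one₀ (abs_nonneg _) (h1 z))
  have i3 : Integrable (fun z => Real.exp (t * g z)) ν :=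
    .of_bound (hg.const_mul t).exp.aestronglyMeasurable (Real.exp 1) (.of_forall fun z => by
      rw [Real.norm_eq_abs, Real.abs_exp]
      exact Real.exp_le_exp.2 (abs_le.1 (b1 z)).2)
  have e1 : ∫ z, Real.exp (t * g z) ∂ν ≤ Real.exp (t ^ 2 * p) := by
    have i4 := i1.const_mul t
    have i5 := i2.const_mul (t ^ 2)
    have i6 : Integrable (fun z => t * g z + t ^ 2 * g z ^ 2) ν := i4.add i5
    refine (integral_mono i3 ((integrable_const 1).add i6) fun z => ?_).trans ?_
    · have := (abs_le.1 (Real.abs_exp_sub_one_sub_id_le (b1 z))).2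
      simp only [Pi.add_apply]
      linarith [mul_pow t (g z) 2]
    · simp only [Pi.add_apply]
      rw [integral_add (integrable_const 1) i6, integral_add i4 i5, integral_const_mul,
        integral_const_mul, h0]
      have := Real.add_one_le_exp (t ^ 2 * p)
      have := mul_le_mul_of_nonneg_left h2 (sq_nonneg t)
      simp only [integral_const, probReal_univ, smul_eq_mul]
      linarith
  have e2 : ∀ X : Fin n → α, Real.exp (t * ∑ i, g (X i)) = ∏ i, Real.exp (t * g (X i)) :=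
    fun X => by rw [Finset.mul_sum, Real.exp_sum]
  refine (ProbabilityTheory.measure_ge_le_exp_mul_mgf (X := fun X : Fin n → α => ∑ i, g (X i)) _
    t0.le ?_).trans ?_
  · simp only [e2]
    exact Integrable.fintype_prod (f := fun _ z => Real.exp (t * g z)) fun _ => i3
  · simp only [ProbabilityTheory.mgf, e2]
    rw [integral_fintype_prod_eq_pow (fun z => Real.exp (t * g z)), Fintype.card_fin]
    refine (mul_le_mul_of_nonneg_left (pow_le_pow_left₀
      (integral_nonneg fun z => (Real.exp_pos _).le) e1 n) (Real.exp_pos _).le).trans_eq ?_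
    rw [← Real.exp_nat_mul, ← Real.exp_add]
    congr 1
    field_simp
    ring

lemma dev_t {k p : ℝ} (hk : 0 < k) (hp : 0 ≤ p) :
    ∃ t : ℝ, 0 < t ∧ t ≤ 1 ∧ t * p + k / t ≤ 2 * √(k * p) + k := by
  have s0 := Real.sqrt_nonneg (k * p)
  rcases le_or_gt p k with h | h
  · have : p ≤ √(k * p) := Real.le_sqrt_of_sq_le (by nlinarith)
    exact ⟨1, one_pos, le_rfl, by rw [one_mul, div_one]; linarith⟩
  · have p0 := hk.trans h
    have s1 : 0 < √(k * p) := Real.sqrt_pos.2 (mul_pos hk p0)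
    refine ⟨√(k * p) / p, div_pos s1 p0, (div_le_one p0).2 (Real.sqrt_le_iff.2 ⟨hp, by nlinarith⟩),
      ?_⟩
    rw [div_mul_cancel₀ _ p0.ne', div_div_eq_mul_div, Real.div_sqrt]
    linarith

lemma dev_set {S : Set α} (hS : MeasurableSet S) {k : ℝ} (hk : 0 < k) {n : ℕ} (hn : 0 < n) :
    (Measure.pi fun _ : Fin n => ν).real {X | 2 * √(k * ν.real S) + k <
      |(∑ i, S.indicator (1 : α → ℝ) (X i)) / n - ν.real S|} ≤ 2 * Real.exp (-(n * k)) := by
  have p0 : 0 ≤ ν.real S := measureReal_nonneg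
  have p1 : ν.real S ≤ 1 := measureReal_le_one
  obtain ⟨t, t0, t1, ht⟩ := dev_t hk p0
  have n0 : (0 : ℝ) < n := by exact_mod_cast hn
  have i1 : Integrable (S.indicator (1 : α → ℝ)) ν := (integrable_const 1).indicator hS
  have m1 : Measurable fun z => S.indicator (1 : α → ℝ) z - ν.real S :=
    (measurable_one.indicator hS).sub_const _
  have b1 : ∀ z, |S.indicator (1 : α → ℝ) z - ν.real S| ≤ 1 := fun z => by
    rw [abs_le]
    by_cases h : z ∈ S <;> simp only [h, indicator_of_mem, indicator_of_notMem, not_false_iff,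
      Pi.one_apply] <;> constructor <;> linarith
  have h0 : ∫ z, S.indicator (1 : α → ℝ) z - ν.real S ∂ν = 0 := by
    rw [integral_sub i1 (integrable_const _), integral_indicator_one hS]
    simp
  have h2 : ∫ z, (S.indicator (1 : α → ℝ) z - ν.real S) ^ 2 ∂ν ≤ ν.real S := by
    have e : ∀ z, (S.indicator (1 : α → ℝ) z - ν.real S) ^ 2 =
        (1 - 2 * ν.real S) * S.indicator (1 : α → ℝ) z + ν.real S ^ 2 := fun z => by
      by_cases h : z ∈ S <;> simp [h]
      ring
    simp only [e]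
    rw [integral_add (i1.const_mul _) (integrable_const _), integral_const_mul,
      integral_indicator_one hS]
    simp only [integral_const, probReal_univ, smul_eq_mul]
    nlinarith
  have a1 := dev_one m1 b1 h0 h2 t0 t1 n (n * k)
  have a2 := dev_one (g := fun z => -(S.indicator (1 : α → ℝ) z - ν.real S)) m1.neg
    (fun z => by rw [abs_neg]; exact b1 z) (by rw [integral_neg, h0, neg_zero])
    (by simpa only [neg_sq] using h2) t0 t1 n (n * k)
  refine (measureReal_mono (fun X hX => ?_)).trans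
    ((measureReal_union_le _ _).trans ((add_le_add a1 a2).trans_eq (two_mul _).symm))
  have h3 := mul_lt_mul_of_pos_left (ht.trans_lt hX) n0
  rw [mul_add, ← mul_div_assoc, ← abs_of_pos n0, ← abs_mul, abs_of_pos n0, mul_sub,
    mul_div_cancel₀ _ n0.ne'] at h3
  simp only [mem_union, mem_ofPred_eq, Finset.sum_neg_distrib, Finset.sum_sub_distrib,
    Finset.sum_const, Finset.card_fin, nsmul_eq_mul]
  exact le_abs.1 h3.le

end

lemma dev_meas (u u' w w' : ℝ) : MeasurableSet (rect u u' w w') := by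
  unfold rect
  measurability

lemma dev_emp {n : ℕ} (X : Fin n → P2) {S : Set P2} (hS : MeasurableSet S) :
    (emp X).real S = (∑ i, S.indicator (1 : P2 → ℝ) (X i)) / n := by
  rw [Measure.real, emp, Measure.smul_apply, Measure.finsetSum_apply, smul_eq_mul,
    ENNReal.toReal_mul, ENNReal.toReal_inv, ENNReal.toReal_natCast, ENNReal.toReal_sum
      fun i _ => measure_ne_top _ _, inv_mul_eq_div]
  congr 1
  refine Finset.sum_congr rfl fun i _ => ?_
  rw [Measure.dirac_apply' _ hS]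
  by_cases h : X i ∈ S <;> simp [h]

lemma dev_rect {e : P2 → ℝ} {B : ℝ} (B0 : 0 ≤ B) (hB : ∀ z, e z ≤ B) {a b c d x y : ℝ}
    (hx : 0 ≤ x) (hy : 0 ≤ y) (h1 : b ≤ a + x) (h2 : d ≤ c + y) :
    (law e).real (rect a b c d) ≤ B * (x * y) := by
  have e1 : rect a b c d = univ.pi fun i => Ioc (![a, c] i) (![b, d] i) := by
    ext z
    simp [rect, Fin.forall_fin_two, and_assoc]
  refine ENNReal.toReal_le_of_le_ofReal (by positivity) ?_
  rw [law, withDensity_apply _ (dev_meas _ _ _ _)]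
  refine (lintegral_mono fun z => ENNReal.ofReal_le_ofReal (hB z)).trans ?_
  rw [setLIntegral_const, e1, Real.volume_pi_Ioc, Fin.prod_univ_two, ENNReal.ofReal_mul B0,
    ENNReal.ofReal_mul hx]
  gcongr
  · simpa using h1.trans_eq (add_comm _ _)
  · simpa using h2.trans_eq (add_comm _ _)

lemma dev_round {M : ℝ} (hM : 0 < M) {n : ℕ} (hn : 0 < n) {x : ℝ} (h0 : 0 ≤ x) (h1 : x ≤ M) :
    ∃ a b : Fin (n + 1), (a : ℕ) * (M / n) ≤ x ∧ x ≤ (b : ℕ) * (M / n) ∧
      (b : ℕ) * (M / n) ≤ (a : ℕ) * (M / n) + M / n := by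
  have n0 : (0 : ℝ) < n := by exact_mod_cast hn
  have h2 : 0 < M / n := div_pos hM n0
  have h3 : ⌈x / (M / n)⌉₊ ≤ n := Nat.ceil_le.2 ((div_le_iff₀ h2).2 (by
    rwa [mul_div_cancel₀ _ n0.ne']))
  refine ⟨⟨⌊x / (M / n)⌋₊, Nat.lt_succ_of_le ((Nat.floor_le_ceil _).trans h3)⟩,
    ⟨⌈x / (M / n)⌉₊, Nat.lt_succ_of_le h3⟩, (le_div_iff₀ h2).1 (Nat.floor_le (div_nonneg h0 h2.le)),
    (div_le_iff₀ h2).1 (Nat.le_ceil _), ?_⟩
  rw [← add_one_mul]
  exact mul_le_mul_of_nonneg_right (by exact_mod_cast Nat.ceil_le_floor_add_one _) h2.le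

theorem p_DEV :
    S_DEV := by
  intro e B M hs hB hM _ ε hε
  have B0 : 0 ≤ B := (hs.nonneg 0).trans (hB 0)
  have : IsProbabilityMeasure (law e) := ⟨by
    rw [law, withDensity_apply _ .univ, Measure.restrict_univ,
      ← ofReal_integral_eq_lintegral_ofReal hs.intg (.of_forall hs.nonneg), hs.one,
      ENNReal.ofReal_one]⟩
  obtain ⟨N, hN⟩ := exists_nat_gt (32 / ε)
  refine ⟨4 * (5 + 4 * B * M ^ 2), max N 3, by positivity, fun n hn => ?_⟩
  have n3 : (3 : ℝ) ≤ n := by exact_mod_cast (le_max_right _ _).trans hn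
  have nN : (N : ℝ) ≤ n := by exact_mod_cast (le_max_left _ _).trans hn
  have n0 : (0 : ℝ) < n := by linarith
  have n1 : 0 < n := by exact_mod_cast n0
  have l1 : 1 ≤ Real.log n := (Real.le_log_iff_exp_le n0).2 (Real.exp_one_lt_three.le.trans n3)
  have c0 : 0 ≤ 4 * B * M ^ 2 := by positivity
  obtain ⟨k, hk⟩ : ∃ k, k = (5 + 4 * B * M ^ 2) * Real.log n / n := ⟨_, rfl⟩
  have k0 : 0 < k := by rw [hk]; positivity
  have k1 : n * k = (5 + 4 * B * M ^ 2) * Real.log n := by rw [hk, mul_div_cancel₀ _ n0.ne']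
  have k2 : 4 * (B * (M / n * M)) ≤ k := by
    rw [hk, le_div_iff₀ n0, show 4 * (B * (M / n * M)) * n = 4 * B * M ^ 2 by field_simp]
    nlinarith
  have k3 : Real.exp (-(n * k)) ≤ ((n : ℝ) ^ 5)⁻¹ := by
    rw [← Real.exp_log (pow_pos n0 5), ← Real.exp_neg, Real.log_pow, k1]
    refine Real.exp_le_exp.2 ?_
    push_cast
    nlinarith
  rw [mul_assoc, mul_div_assoc, ← hk]
  let R : Fin (n + 1) × Fin (n + 1) × Fin (n + 1) × Fin (n + 1) → Set P2 := fun q =>
    rect ((q.1 : ℕ) * (M / n)) ((q.2.1 : ℕ) * (M / n)) ((q.2.2.1 : ℕ) * (M / n))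
      ((q.2.2.2 : ℕ) * (M / n))
  change Measure.pi (fun _ : Fin n => law e) _ < _
  have sub : {X : Fin n → P2 | ¬ Dev (emp X) (law e) M (4 * k)} ⊆
      ⋃ q, {X : Fin n → P2 | 2 * √(k * (law e).real (R q)) + k <
        |(∑ i, (R q).indicator (1 : P2 → ℝ) (X i)) / n - (law e).real (R q)|} := ?_
  rotate_left
  · refine fun X hX => by_contra fun h => hX ?_
    simp only [mem_iUnion, mem_ofPred_eq, not_exists, not_lt] at h
    intro u u' w w' a1 a2 a3 b1 b2 b3
    obtain ⟨i, i', i1, i2, i3⟩ := dev_round hM n1 a1 (a2.trans a3)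
    obtain ⟨j, j', j1, j2, j3⟩ := dev_round hM n1 (a1.trans a2) a3
    obtain ⟨l, l', l1, l2, l3⟩ := dev_round hM n1 b1 (b2.trans b3)
    obtain ⟨m, m', m1, m2, m3⟩ := dev_round hM n1 (b1.trans b2) b3
    have g0 : ∀ a : Fin (n + 1), 0 ≤ (a : ℕ) * (M / n) := fun a => by positivity
    have g1 : ∀ a : Fin (n + 1), (a : ℕ) * (M / n) ≤ M := fun a =>
      (mul_le_mul_of_nonneg_right (by exact_mod_cast Nat.lt_succ_iff.1 a.2)
        (by positivity)).trans_eq (mul_div_cancel₀ _ n0.ne')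
    have s1 : R (i', j, l', m) ⊆ rect u u' w w' := fun z ⟨z1, z2, z3, z4⟩ =>
      ⟨i2.trans_lt z1, z2.trans j1, l2.trans_lt z3, z4.trans m1⟩
    have s2 : rect u u' w w' ⊆ R (i, j', l, m') := fun z ⟨z1, z2, z3, z4⟩ =>
      ⟨i1.trans_lt z1, z2.trans j2, l1.trans_lt z3, z4.trans m2⟩
    have s3 : R (i, j', l, m') ⊆ R (i', j, l', m) ∪
        ((rect ((i : ℕ) * (M / n)) ((i' : ℕ) * (M / n)) 0 M ∪
          rect ((j : ℕ) * (M / n)) ((j' : ℕ) * (M / n)) 0 M) ∪
        (rect 0 M ((l : ℕ) * (M / n)) ((l' : ℕ) * (M / n)) ∪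
          rect 0 M ((m : ℕ) * (M / n)) ((m' : ℕ) * (M / n)))) := fun z ⟨z1, z2, z3, z4⟩ => by
      have x1 := (g0 i).trans_lt z1
      have x2 := z2.trans (g1 j')
      have x3 := (g0 l).trans_lt z3
      have x4 := z4.trans (g1 m')
      refine or_iff_not_imp_right.2 fun h => ⟨not_le.1 fun y => h (.inl (.inl ⟨z1, y, x3, x4⟩)),
        not_lt.1 fun y => h (.inl (.inr ⟨y, z2, x3, x4⟩)),
        not_le.1 fun y => h (.inr (.inl ⟨x1, x2, z3, y⟩)),
        not_lt.1 fun y => h (.inr (.inr ⟨x1, x2, y, z4⟩))⟩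
    have h0 : 0 ≤ M / n := by positivity
    have r1 := dev_rect B0 hB h0 hM.le i3 (zero_add M).ge
    have r2 := dev_rect B0 hB h0 hM.le j3 (zero_add M).ge
    have r3 := dev_rect B0 hB hM.le h0 (zero_add M).ge l3
    have r4 := dev_rect B0 hB hM.le h0 (zero_add M).ge m3
    rw [mul_comm M] at r3 r4
    have t3 := (measureReal_mono (μ := law e) s3).trans ((measureReal_union_le _ _).trans
      (add_le_add le_rfl ((measureReal_union_le _ _).trans (add_le_add
        ((measureReal_union_le _ _).trans (add_le_add r1 r2))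
        ((measureReal_union_le _ _).trans (add_le_add r3 r4))))))
    have t1 := measureReal_mono (μ := law e) s1
    have t2 := measureReal_mono (μ := law e) s2
    have mono : ∀ S T : Set P2, S ⊆ T → (∑ i, S.indicator (1 : P2 → ℝ) (X i)) / n ≤
        (∑ i, T.indicator (1 : P2 → ℝ) (X i)) / n := fun S T h =>
      div_le_div_of_nonneg_right (Finset.sum_le_sum fun i _ =>
        indicator_le_indicator_of_subset h (fun _ => zero_le_one) _) n0.le
    have e1 := mono _ _ s1
    have e2 := mono _ _ s2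
    have d1 := (abs_le.1 (h (i', j, l', m))).1
    have d2 := (abs_le.1 (h (i, j', l, m'))).2
    have p0 : 0 ≤ (law e).real (rect u u' w w') := measureReal_nonneg
    have q1 := Real.sqrt_le_sqrt (mul_le_mul_of_nonneg_left t1 k0.le)
    have q2 : √(k * (law e).real (R (i, j', l, m'))) ≤
        √(k * (law e).real (rect u u' w w')) + k := by
      have q3 := Real.sqrt_nonneg (k * (law e).real (rect u u' w w'))
      refine Real.sqrt_le_iff.2 ⟨by positivity, ?_⟩
      rw [add_sq, Real.sq_sqrt (by positivity)]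
      linarith [mul_nonneg q3 k0.le,
        mul_le_mul_of_nonneg_left (show (law e).real (R (i, j', l, m')) ≤
          (law e).real (rect u u' w w') + k by linarith) k0.le]
    have q4 : √(4 * k * (law e).real (rect u u' w w')) =
        2 * √(k * (law e).real (rect u u' w w')) := by
      rw [mul_assoc, Real.sqrt_mul (by norm_num), show (4 : ℝ) = 2 ^ 2 by norm_num,
        Real.sqrt_sq zero_le_two]
    rw [dev_emp X (dev_meas _ _ _ _), q4, abs_le]
    constructor <;> linarith
  · refine (ENNReal.lt_ofReal_iff_toReal_lt (measure_ne_top _ _)).2 (lt_of_le_of_lt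
      ((measureReal_mono sub).trans ((measureReal_iUnion_fintype_le _).trans
        (Finset.sum_le_card_nsmul _ _ _ fun q _ => dev_set (dev_meas _ _ _ _) k0 n1))) ?_)
    simp only [Finset.card_univ, Fintype.card_prod, Fintype.card_fin, nsmul_eq_mul]
    push_cast
    have h1 : (n : ℝ) + 1 ≤ 2 * n := by linarith
    calc _ ≤ 2 * n * (2 * n * (2 * n * (2 * n))) * (2 * ((n : ℝ) ^ 5)⁻¹) := by gcongr
      _ = 32 / n := by field_simp; ring
      _ < ε := by
        rw [div_lt_iff₀ n0]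
        rw [div_lt_iff₀ hε] at hN
        linarith [mul_le_mul_of_nonneg_left nN hε.le]

end Pool.Agent.P.MP_faec4e_pr.PL
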