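import Pool.Agent.P.MP_faec4e_pr.PL.Iface

/-! Step HS. -/

set_option autoImplicit false

namespace Pool.Agent.P.MP_faec4e_pr.PL

open MeasureTheory Set Pool.Agent.P.MP_faec4e_pr
open scoped ENNReal

theorem hs_mvt {g g' : ℝ → ℝ} {L : ℝ} (h : ∀ t, HasDerivAt g (g' t) t) (hL : ∀ t, |g' t| ≤ L)
    (t t' : ℝ) : |g t - g t'| ≤ L * |t - t'| :=
  convex_univ.norm_image_sub_le_of_norm_hasDerivWithin_le (fun x _ => (h x).hasDerivWithinAt)
    (fun x _ => hL x) (mem_univ t') (mem_univ t)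

theorem hs_sq {s a b : ℝ} (hs : 0 < s) (ha : s ≤ a) (hb : s ≤ b) :
    |1 / a ^ 2 - 1 / b ^ 2| ≤ 2 / s ^ 3 * |a - b| := by
  have a0 := hs.trans_le ha
  have b0 := hs.trans_le hb
  have e : 1 / a ^ 2 - 1 / b ^ 2 = (1 / (a * a * b) + 1 / (a * b * b)) * (b - a) := by
    field_simp
    ring
  rw [e, abs_mul, abs_sub_comm, abs_of_pos (by positivity),
    show 2 / s ^ 3 = 1 / (s * s * s) + 1 / (s * s * s) by ring]
  gcongr

theorem hs_core (s : ℝ) (hs : 0 < s) : ∃ g : ℝ → ℝ, Measurable g ∧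
    (∀ t, 0 ≤ t → 0 ≤ g t ∧ g t ≤ 2 / s) ∧ (∀ t t', |g t - g t'| ≤ 1 / s ^ 2 * |t - t'|) ∧
    (∀ t u v, 0 ≤ u → 0 ≤ v →
      |g (t + u + v) - g (t + u) - g (t + v) + g t| ≤ 2 / s ^ 3 * (u * v)) ∧
    ∀ t, s ≤ t → g t = 1 / t := by
  have hp : ∀ r, 0 < max r s := fun r => lt_max_of_lt_right hs
  have hc : Continuous fun r : ℝ => 1 / max r s ^ 2 :=
    continuous_const.div (by fun_prop) fun r => (pow_pos (hp r) 2).ne'
  obtain ⟨g, hd, he⟩ : ∃ g : ℝ → ℝ, (∀ t, HasDerivAt g (-(1 / max t s ^ 2)) t) ∧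
      ∀ t, s ≤ t → g t = 1 / t := by
    refine ⟨fun t => 1 / s - ∫ r in s..t, 1 / max r s ^ 2,
      fun t => (hc.integral_hasStrictDerivAt s t).hasDerivAt.const_sub _, fun t ht => ?_⟩
    beta_reduce
    rw [intervalIntegral.integral_eq_sub_of_hasDerivAt (f := fun r => -r⁻¹) (fun r hr => ?_)
      (hc.intervalIntegrable _ _)]
    · ring
    · rw [uIcc_of_le ht] at hr
      rw [max_eq_left hr.1]
      simpa using (hasDerivAt_inv (hs.trans_le hr.1).ne').fun_neg
  have h1 := hs_mvt (L := 1 / s ^ 2) hd fun t => by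
    rw [abs_neg, abs_of_pos (by have := hp t; positivity)]
    gcongr
    exact le_max_right _ _
  refine ⟨g, (continuous_iff_continuousAt.2 fun t => (hd t).continuousAt).measurable,
    fun t ht => ?_, h1, fun t u v hu hv => ?_, he⟩
  · rcases le_total s t with k | k
    · rw [he t k]
      exact ⟨by positivity, by gcongr; norm_num⟩
    · have h2 := h1 t s
      rw [he s le_rfl, abs_sub_comm t, abs_of_nonneg (sub_nonneg.2 k)] at h2
      have h3 : 1 / s ^ 2 * (s - t) ≤ 1 / s :=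
        calc 1 / s ^ 2 * (s - t) ≤ 1 / s ^ 2 * s := by gcongr; linarith
          _ = 1 / s := by field_simp
      have h4 := abs_le.1 (h2.trans h3)
      exact ⟨by linarith [h4.1], by rw [show 2 / s = 1 / s + 1 / s by ring]; linarith [h4.2]⟩
  · have := hs_mvt (L := 2 / s ^ 3 * v) (fun x => ((hd (x + v)).comp_add_const x v).sub (hd x))
      (fun x => by
        rw [neg_sub_neg]
        refine (hs_sq hs (le_max_right _ _) (le_max_right _ _)).trans ?_
        gcongr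
        refine (abs_max_sub_max_le_abs _ _ _).trans_eq ?_
        rw [sub_add_cancel_left, abs_neg, abs_of_nonneg hv]) (t + u) t
    rw [add_sub_cancel_left, abs_of_nonneg hu, mul_assoc, mul_comm v] at this
    convert this using 2
    simp only [Pi.sub_apply]
    ring

theorem p_HS :
    S_HS := by
  choose! h h1 h2 h3 h4 h5 using hs_core
  refine ⟨h, fun s hs => ?_⟩
  have hs2 : 0 < 2 * s := by positivity
  refine ⟨⟨h1 s hs, fun t ht => abs_le.2 ⟨?_, (h2 s hs t ht).2⟩, fun t t' => ?_,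
    fun t u v hu hv => ?_⟩, ⟨(h1 s hs).sub (h1 _ hs2), fun t ht => ?_, fun t t' => ?_,
    fun t u v hu hv => ?_⟩, h5 s hs⟩
  · linarith [h2 s hs t ht]
  · exact (h3 s hs t t').trans (by gcongr; norm_num)
  · exact (h4 s hs t u v hu hv).trans (by gcongr; norm_num)
  · have a := h2 s hs t ht
    have b := h2 _ hs2 t ht
    have c : 2 / (2 * s) ≤ 2 / s := by gcongr; linarith
    exact abs_le.2 ⟨by linarith [a.1, b.2], by linarith [a.2, b.1]⟩
  · have a := abs_le.1 (h3 s hs t t')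
    have b := abs_le.1 (h3 _ hs2 t t')
    have c : 1 / (2 * s) ^ 2 * |t - t'| ≤ 1 / s ^ 2 * |t - t'| := by gcongr; linarith
    rw [show 2 / s ^ 2 * |t - t'| = 1 / s ^ 2 * |t - t'| + 1 / s ^ 2 * |t - t'| by ring]
    exact abs_le.2 ⟨by linarith [a.1, b.2], by linarith [a.2, b.1]⟩
  · have a := abs_le.1 (h4 s hs t u v hu hv)
    have b := abs_le.1 (h4 _ hs2 t u v hu hv)
    have c : 2 / (2 * s) ^ 3 * (u * v) ≤ 1 / s ^ 3 * (u * v) := by
      rw [show 2 / (2 * s) ^ 3 = 1 / 4 / s ^ 3 by field_simp; norm_num]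
      gcongr
      norm_num
    rw [show 3 / s ^ 3 * (u * v) = 2 / s ^ 3 * (u * v) + 1 / s ^ 3 * (u * v) by ring]
    exact abs_le.2 ⟨by linarith [a.1, b.2], by linarith [a.2, b.1]⟩

end Pool.Agent.P.MP_faec4e_pr.PL
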