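import Pool.Agent.P.MP_faec4e_pr.PL.Iface

/-! Step MAIN. -/

set_option autoImplicit false

namespace Pool.Agent.P.MP_faec4e_pr.PL

open MeasureTheory Set Pool.Agent.P.MP_faec4e_pr
open scoped ENNReal

lemma main_num {n : ℕ} (hn : 8 ≤ n) : ∃ r : ℕ, 1 ≤ r ∧ Real.log n / n ≤ 24 * r / 8 ^ r ∧
    (r : ℝ) ^ 4 / 2 ^ r ≤ 16 * ((n : ℝ) ^ (-(1 / 3) : ℝ) * Real.log n ^ (4 : ℝ)) := by
  have h1 : 1 ≤ Nat.clog 8 n := Nat.clog_pos (by norm_num) (by omega)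
  have h2 : n ≤ 8 ^ Nat.clog 8 n := Nat.le_pow_clog (by norm_num) n
  have h3 : 8 ^ (Nat.clog 8 n).pred < n := Nat.pow_pred_clog_lt_self (by norm_num) (by omega)
  generalize Nat.clog 8 n = r at h1 h2 h3
  obtain ⟨s, rfl⟩ : ∃ s, r = s + 1 := ⟨r - 1, by omega⟩
  rw [Nat.pred_succ] at h3
  have h4 : 8 ^ (s + 1) ≤ 8 * n := by rw [pow_succ]; omega
  generalize s + 1 = r at *
  have n8 : (8 : ℝ) ≤ n := by exact_mod_cast hn
  have n0 : (0 : ℝ) < n := by linarith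
  have h2' : (n : ℝ) ≤ 8 ^ r := by exact_mod_cast h2
  have h4' : (8 : ℝ) ^ r ≤ 8 * n := by exact_mod_cast h4
  have r0 : (0 : ℝ) ≤ r := Nat.cast_nonneg r
  have l8 : Real.log 8 ≤ 3 := by
    rw [show (8 : ℝ) = 2 ^ 3 by norm_num, Real.log_pow]
    have := Real.log_le_sub_one_of_pos (show (0 : ℝ) < 2 by norm_num)
    push_cast
    linarith
  have l8' : 1 ≤ Real.log 8 :=
    (Real.le_log_iff_exp_le (by norm_num)).2 (by linarith [Real.exp_one_lt_d9])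
  have a1 : Real.log n ≤ 3 * r := by
    have := Real.log_le_log n0 h2'
    rw [Real.log_pow] at this
    nlinarith
  have a2 : (r : ℝ) ≤ 2 * Real.log n := by
    have := Real.log_le_log (by positivity) (h4'.trans (show 8 * (n : ℝ) ≤ n ^ 2 by nlinarith))
    rw [Real.log_pow, Real.log_pow] at this
    push_cast at this
    nlinarith
  refine ⟨r, h1, ?_, ?_⟩
  · rw [div_le_div_iff₀ n0 (by positivity)]
    calc Real.log n * 8 ^ r ≤ 3 * r * (8 * n) := by gcongr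
      _ = _ := by ring
  · have b1 : ((2 : ℝ) ^ r)⁻¹ ≤ (n : ℝ) ^ (-(1 / 3) : ℝ) := by
      refine le_trans (le_of_eq ?_) (Real.rpow_le_rpow_of_nonpos n0 h2' (by norm_num))
      rw [show (8 : ℝ) ^ r = (2 ^ r) ^ 3 by rw [← pow_mul, mul_comm, pow_mul]; norm_num,
        ← Real.rpow_natCast _ 3, ← Real.rpow_mul (by positivity), ← Real.rpow_neg_one]
      norm_num
    rw [show (4 : ℝ) = (4 : ℕ) by norm_num, Real.rpow_natCast, div_eq_mul_inv]
    calc (r : ℝ) ^ 4 * (2 ^ r)⁻¹ ≤ (2 * Real.log n) ^ 4 * (n : ℝ) ^ (-(1 / 3) : ℝ) := by gcongr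
      _ = _ := by ring

lemma main_mono {μ ν : Measure P2} {M κ κ' : ℝ} (h : Dev μ ν M κ) (hk : κ ≤ κ') :
    Dev μ ν M κ' := fun u u' w w' a b c d e f =>
  (h u u' w w' a b c d e f).trans (by gcongr)

lemma main_fin {n : ℕ} (hn : 0 < n) (X : Fin n → P2) : IsFiniteMeasure (emp X) := ⟨by
  rw [emp, Measure.smul_apply, Measure.finsetSum_apply, smul_eq_mul]
  exact ENNReal.mul_lt_top (ENNReal.inv_lt_top.2 (by exact_mod_cast hn))
    (ENNReal.sum_lt_top.2 fun _ _ => measure_lt_top _ _)⟩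

lemma main_out {n : ℕ} (X : Fin n → P2) {S : Set P2} (h : ∀ i, X i ∈ S) : emp X Sᶜ = 0 := by
  rw [emp, Measure.smul_apply, Measure.finsetSum_apply, smul_eq_mul,
    Finset.sum_eq_zero fun i _ => ?_, mul_zero]
  rw [Measure.dirac_apply, indicator_of_notMem (not_not.2 (h i))]

theorem p_MAIN (hSHAPE : S_SHAPE) (hBASIC : S_BASIC) (hDEV : S_DEV) (hDET : S_DET) :
    S_MAIN := by
  intro e B M he hB hM hs ε hε
  have hS := hSHAPE e he
  have hs' : ∀ z : P2, M < z 0 ∨ M < z 1 → e z = 0 := fun z hz => hs z (by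
    rcases hz with hz | hz
    exacts [⟨0, fun h => absurd h.2 (not_le.2 hz)⟩, ⟨1, fun h => absurd h.2 (not_le.2 hz)⟩])
  obtain ⟨A₀, N, hA₀, hN⟩ := hDEV e B M hS hB hM hs' ε hε
  obtain ⟨A, hA1, hA2⟩ : ∃ A : ℝ, 24 * A₀ ≤ A ∧ 1 + B * M ^ 2 ≤ A :=
    ⟨max _ _, le_max_left _ _, le_max_right _ _⟩
  have hA : 0 < A := by linarith
  refine ⟨√(4 * 10 ^ 8 * A) * 16, max N 8, fun n hn => ?_⟩
  refine lt_of_le_of_lt (measure_mono_ae ?_) (hN n ((le_max_left _ _).trans hn))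
  have n8 : 8 ≤ n := (le_max_right _ _).trans hn
  obtain ⟨r, hr, h1, h2⟩ := main_num n8
  filter_upwards [(hBASIC e he).1 n] with X hX
  rintro ⟨f, hf, hlt⟩ hD
  obtain ⟨hi, hh, hl, hp⟩ := (hBASIC e he).2 f hf.1
  have hin : ∀ i, X i ∈ rect 0 M 0 M := fun i =>
    ⟨not_le.1 fun h => (hX i).ne' (hS.neg _ (Or.inl h)),
      not_lt.1 fun h => (hX i).ne' (hs' _ (Or.inl h)),
      not_le.1 fun h => (hX i).ne' (hS.neg _ (Or.inr h)),
      not_lt.1 fun h => (hX i).ne' (hs' _ (Or.inr h))⟩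
  have hk : A₀ * Real.log n / n ≤ A * r / 8 ^ r :=
    calc A₀ * Real.log n / n = A₀ * (Real.log n / n) := by ring
      _ ≤ A₀ * (24 * r / 8 ^ r) := by gcongr
      _ = 24 * A₀ * r / 8 ^ r := by ring
      _ ≤ _ := by gcongr
  have hd := hDET f e B M A (emp X) r (hSHAPE f hf.1) hS hB hM hs' (main_fin (by omega) X)
    (main_out X hin) hA2 hr (main_mono hD hk) hi
  have h3 := (abs_le.1 hd).2
  have h4 := hp n X hX hf
  have h5 : hellinger f e ^ 2 ≤ (√(4 * 10 ^ 8 * A) * (r ^ 4 / 2 ^ r)) ^ 2 := by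
    rw [mul_pow, Real.sq_sqrt (by positivity), div_pow, ← pow_mul, ← pow_mul, mul_comm r 2,
      pow_mul (2 : ℝ) 2 r]
    have : 4 * 10 ^ 8 * A * ((r : ℝ) ^ (4 * 2) / (2 ^ 2) ^ r) =
        2 * (2 * 10 ^ 8 * A * r ^ 8 / 4 ^ r) := by norm_num; ring
    rw [this]
    linarith
  have h6 := (abs_le_of_sq_le_sq' h5 (by positivity)).2
  refine absurd hlt (not_lt.2 (h6.trans ?_))
  rw [mul_assoc _ (16 : ℝ)]
  exact mul_le_mul_of_nonneg_left h2 (Real.sqrt_nonneg _)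

end Pool.Agent.P.MP_faec4e_pr.PL
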