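import Pool.Agent.P.MP_faec4e_pr.PL.TSHAPE
import Pool.Agent.P.MP_faec4e_pr.PL.THS
import Pool.Agent.P.MP_faec4e_pr.PL.TBASIC
import Pool.Agent.P.MP_faec4e_pr.PL.TDEV
import Pool.Agent.P.MP_faec4e_pr.PL.TDET
import Pool.Agent.P.MP_faec4e_pr.PL.TMAIN

/-! Assembly. -/

set_option autoImplicit false

namespace Pool.Agent.P.MP_faec4e_pr.PL

theorem q_MAIN : S_MAIN := p_MAIN p_SHAPE (p_BASIC p_SHAPE) p_DEV (p_DET p_HS)

end Pool.Agent.P.MP_faec4e_pr.PL
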