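import Mathlib

/-! Tensor Haar bound for finite arrays. -/

set_option autoImplicit false

namespace Pool.Agent.P.MP_faec4e_pr.PL

open Finset

lemma var_A (δ : ℕ → ℝ) (M : ℕ) :
    ∑ j ∈ range M, (δ (2 * j) + 2 * δ (2 * j + 1) + δ (2 * j + 2)) / 2 + (δ 0 + δ (2 * M)) / 2 =
      ∑ m ∈ range (2 * M + 1), δ m := by
  induction M with
  | zero => simp
  | succ M ih =>
    rw [sum_range_succ, show 2 * (M + 1) + 1 = 2 * M + 1 + 1 + 1 by ring, sum_range_succ _ (2 * M + 1 + 1),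
      sum_range_succ _ (2 * M + 1), ← ih, show 2 * (M + 1) = 2 * M + 2 by ring]
    ring

lemma var_A' (δ a : ℕ → ℝ) (h : ∀ m, 0 ≤ δ m) (L : ℕ)
    (ha : ∀ j, a j ≤ (δ (2 * j) + 2 * δ (2 * j + 1) + δ (2 * j + 2)) / 2) :
    ∑ j ∈ range (2 ^ L - 1), a j ≤ ∑ m ∈ range (2 ^ (L + 1) - 1), δ m := by
  have h1 : 1 ≤ 2 ^ L := Nat.one_le_two_pow
  rw [show 2 ^ (L + 1) - 1 = 2 * (2 ^ L - 1) + 1 by rw [pow_succ]; omega, ← var_A]
  have := sum_le_sum fun j (_ : j ∈ range (2 ^ L - 1)) => ha j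
  linarith [h 0, h (2 * (2 ^ L - 1))]

lemma var_D (δ : ℕ → ℝ) (h : ∀ m, 0 ≤ δ m) (M : ℕ) :
    ∑ j ∈ range (M + 1), δ (2 * j) ≤ ∑ m ∈ range (2 * M + 1), δ m := by
  induction M with
  | zero => simp
  | succ M ih =>
    rw [sum_range_succ, show 2 * (M + 1) + 1 = 2 * M + 1 + 1 + 1 by ring, sum_range_succ _ (2 * M + 1 + 1),
      sum_range_succ _ (2 * M + 1), show 2 * (M + 1) = 2 * M + 1 + 1 by ring]
    linarith [h (2 * M + 1)]

lemma var_D' (δ a : ℕ → ℝ) (h : ∀ m, 0 ≤ δ m) (L : ℕ) (ha : ∀ j, a j ≤ δ (2 * j)) :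
    ∑ j ∈ range (2 ^ L), a j ≤ ∑ m ∈ range (2 ^ (L + 1) - 1), δ m := by
  have h1 : 1 ≤ 2 ^ L := Nat.one_le_two_pow
  have := var_D δ h (2 ^ L - 1)
  rw [show 2 ^ L - 1 + 1 = 2 ^ L by omega,
    show 2 * (2 ^ L - 1) + 1 = 2 ^ (L + 1) - 1 by rw [pow_succ]; omega] at this
  exact (sum_le_sum fun j _ => ha j).trans this

lemma sum_pair' (g : ℕ → ℝ) (M : ℕ) :
    ∑ i ∈ range (2 * M), g i = ∑ i ∈ range M, (g (2 * i) + g (2 * i + 1)) := by
  induction M with
  | zero => simp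
  | succ M ih =>
    rw [show 2 * (M + 1) = 2 * M + 1 + 1 by ring, sum_range_succ, sum_range_succ, ih, sum_range_succ]
    ring

lemma sum_pair2 (g : ℕ → ℝ) (L : ℕ) :
    ∑ i ∈ range (2 ^ (L + 1)), g i = ∑ i ∈ range (2 ^ L), (g (2 * i) + g (2 * i + 1)) := by
  rw [pow_succ', sum_pair']

/-- The cost of one pair of levels. -/
noncomputable def Bd (H τ κ V : ℝ) : ℝ := √(V * √H * τ) + V * κ

lemma Bd_nonneg {H τ κ V : ℝ} (hV : 0 ≤ V) (hκ : 0 ≤ κ) : 0 ≤ Bd H τ κ V := by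
  unfold Bd
  positivity

lemma pair_bound {ι : Type} (s : Finset ι) (c r : ι → ℝ) {H τ κ V ρ n : ℝ} (hn : 0 < n)
    (hc : (s.card : ℝ) = n) (_hH : 0 ≤ H) (hτ : 0 ≤ τ) (hκ : 0 ≤ κ) (hρ : 0 ≤ ρ)
    (h1 : ∑ i ∈ s, |c i| ≤ V) (h2 : ∑ i ∈ s, c i ^ 2 ≤ H * n)
    (hr : ∀ i ∈ s, |r i| ≤ ρ * (√(τ / n) + κ)) : |∑ i ∈ s, c i * r i| ≤ ρ * Bd H τ κ V := by
  set S := ∑ i ∈ s, |c i| with hS
  have S0 : 0 ≤ S := sum_nonneg fun _ _ => abs_nonneg _
  have S2 : S ^ 2 ≤ n ^ 2 * H := by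
    have := sq_sum_le_card_mul_sum_sq (s := s) (f := fun i => |c i|)
    simp only [sq_abs] at this
    rw [hc] at this
    nlinarith
  have S3 : S ≤ n * √H := by
    have : S ≤ √(n ^ 2 * H) := Real.le_sqrt_of_sq_le S2
    rwa [Real.sqrt_mul (sq_nonneg _), Real.sqrt_sq hn.le] at this
  have S4 : S * √(τ / n) ≤ √(V * √H * τ) := by
    apply Real.le_sqrt_of_sq_le
    rw [mul_pow, Real.sq_sqrt (by positivity)]
    have : S ^ 2 ≤ V * (n * √H) := by nlinarith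
    calc S ^ 2 * (τ / n) ≤ V * (n * √H) * (τ / n) := by gcongr
      _ = _ := by field_simp
  calc _ ≤ ∑ i ∈ s, |c i * r i| := abs_sum_le_sum_abs _ _
    _ ≤ ∑ i ∈ s, |c i| * (ρ * (√(τ / n) + κ)) := sum_le_sum fun i hi => by
        rw [abs_mul]
        exact mul_le_mul_of_nonneg_left (hr i hi) (abs_nonneg _)
    _ = ρ * (S * √(τ / n) + S * κ) := by rw [← sum_mul]; ring
    _ ≤ _ := by unfold Bd; gcongr

/-- Dyadic nodes. -/
noncomputable def nd (L j : ℕ) : ℝ := j / 2 ^ L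

lemma nd_two (L j : ℕ) : nd (L + 1) (2 * j) = nd L j := by
  unfold nd
  push_cast
  field_simp
  ring

lemma nd_two' (L j : ℕ) : nd (L + 1) (2 * j + 1 + 1) = nd L (j + 1) := by
  rw [← nd_two L (j + 1)]
  rfl

lemma nd_nonneg (L j : ℕ) : 0 ≤ nd L j := by
  unfold nd
  positivity

lemma nd_succ (L j : ℕ) : nd L (j + 1) - nd L j = 1 / 2 ^ L := by
  unfold nd
  push_cast
  ring

lemma nd_le (L j : ℕ) : nd L j ≤ nd L (j + 1) := by
  have := nd_succ L j
  have : (0 : ℝ) < 1 / 2 ^ L := by positivity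
  linarith

lemma nd_mono (L : ℕ) {i j : ℕ} (h : i ≤ j) : nd L i ≤ nd L j := by
  unfold nd
  gcongr

lemma nd_top (L : ℕ) : nd L (2 ^ L) = 1 := by
  unfold nd
  push_cast
  field_simp

lemma nd_zero (L : ℕ) : nd L 0 = 0 := by simp [nd]

lemma nd_le_one {L j : ℕ} (h : j ≤ 2 ^ L) : nd L j ≤ 1 := (nd_mono L h).trans (nd_top L).le

lemma lemY {ι : Type} (s : Finset ι) (W : ι → ℝ → ℝ → ℝ) {H τ κ V V0 ρ n : ℝ} (hn : 0 < n)
    (hc : (s.card : ℝ) = n) (hH : 0 ≤ H) (hτ : 0 ≤ τ) (hκ : 0 ≤ κ) (hρ : 0 ≤ ρ)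
    (hadd : ∀ i a b c, a ≤ b → b ≤ c → W i a c = W i a b + W i b c)
    (hdev : ∀ i ∈ s, ∀ a b, 0 ≤ a → a ≤ b → b ≤ 1 → |W i a b| ≤ ρ * (√(τ * (b - a) / n) + κ))
    (L : ℕ) : ∀ φ : ι → ℕ → ℝ, ∑ i ∈ s, ∑ j ∈ range (2 ^ L), φ i j ^ 2 ≤ H * n * 2 ^ L →
      ∑ i ∈ s, ∑ j ∈ range (2 ^ L), |φ i j| ≤ V0 * 2 ^ L →
      ∑ i ∈ s, ∑ j ∈ range (2 ^ L - 1), |φ i j - φ i (j + 1)| ≤ V →
      |∑ i ∈ s, ∑ j ∈ range (2 ^ L), φ i j * W i (nd L j) (nd L (j + 1))| ≤
        ρ * Bd H τ κ V0 + 2 * ρ * L * Bd H τ κ V := by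
  induction L with
  | zero =>
    intro φ h2 h1 _
    simp only [pow_zero, range_one, sum_singleton, mul_one, Nat.cast_zero, mul_zero, zero_mul,
      add_zero] at h1 h2 ⊢
    refine pair_bound s _ _ hn hc hH hτ hκ hρ h1 h2 fun i hi => ?_
    have := hdev i hi (nd 0 0) (nd 0 (0 + 1)) (nd_nonneg _ _) (nd_le _ _) (nd_le_one (by simp))
    rw [nd_succ] at this
    simpa using this
  | succ L ih =>
    intro φ h2 h1 hv
    simp only [sum_pair2] at h1 h2 ⊢
    have e : ∑ i ∈ s, ∑ j ∈ range (2 ^ L),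
        (φ i (2 * j) * W i (nd (L + 1) (2 * j)) (nd (L + 1) (2 * j + 1)) +
          φ i (2 * j + 1) * W i (nd (L + 1) (2 * j + 1)) (nd (L + 1) (2 * j + 1 + 1))) =
        ∑ i ∈ s, ∑ j ∈ range (2 ^ L),
          (φ i (2 * j) + φ i (2 * j + 1)) / 2 * W i (nd L j) (nd L (j + 1)) +
        ∑ p ∈ s ×ˢ range (2 ^ L), (φ p.1 (2 * p.2) - φ p.1 (2 * p.2 + 1)) / 2 *
          (W p.1 (nd (L + 1) (2 * p.2)) (nd (L + 1) (2 * p.2 + 1)) -
            W p.1 (nd (L + 1) (2 * p.2 + 1)) (nd (L + 1) (2 * p.2 + 1 + 1))) := by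
      rw [sum_product, ← sum_add_distrib]
      refine sum_congr rfl fun i _ => ?_
      rw [← sum_add_distrib]
      refine sum_congr rfl fun j _ => ?_
      rw [← nd_two' L j, ← nd_two L j, hadd i _ (nd (L + 1) (2 * j + 1)) _ (nd_le _ _) (nd_le _ _)]
      ring
    rw [e]
    have hA := ih (fun i j => (φ i (2 * j) + φ i (2 * j + 1)) / 2) ?_ ?_ ?_
    · have hD := pair_bound (s ×ˢ range (2 ^ L))
        (fun p => (φ p.1 (2 * p.2) - φ p.1 (2 * p.2 + 1)) / 2)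
        (fun p => W p.1 (nd (L + 1) (2 * p.2)) (nd (L + 1) (2 * p.2 + 1)) -
            W p.1 (nd (L + 1) (2 * p.2 + 1)) (nd (L + 1) (2 * p.2 + 1 + 1)))
        (H := H) (τ := τ) (κ := κ) (V := V) (ρ := 2 * ρ) (n := n * 2 ^ L) (by positivity)
        (by simp [hc]) hH hτ hκ (by positivity) ?_ ?_ ?_
      · refine (abs_add_le _ _).trans ?_
        push_cast
        linarith
      · rw [sum_product]
        refine le_trans (sum_le_sum fun i _ => ?_) hv
        refine var_D' (fun m => |φ i m - φ i (m + 1)|) _ (fun _ => abs_nonneg _) L fun j => ?_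
        rw [abs_div, abs_two]
        linarith [abs_nonneg (φ i (2 * j) - φ i (2 * j + 1))]
      · rw [sum_product]
        have : ∑ i ∈ s, ∑ j ∈ range (2 ^ L), ((φ i (2 * j) - φ i (2 * j + 1)) / 2) ^ 2 ≤
            ∑ i ∈ s, ∑ j ∈ range (2 ^ L), (φ i (2 * j) ^ 2 + φ i (2 * j + 1) ^ 2) / 2 :=
          sum_le_sum fun i _ => sum_le_sum fun j _ => by
            nlinarith [sq_nonneg (φ i (2 * j) + φ i (2 * j + 1))]
        simp only [← sum_div] at this
        rw [pow_succ] at h2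
        linarith
      · rintro ⟨i, j⟩ hp
        obtain ⟨hi, hj⟩ := mem_product.1 hp
        have hj' : 2 * j + 1 + 1 ≤ 2 ^ (L + 1) := by
          have := mem_range.1 hj
          rw [pow_succ]
          omega
        have a1 := hdev i hi _ _ (nd_nonneg (L + 1) (2 * j)) (nd_le _ _)
          (nd_le_one (by omega))
        have a2 := hdev i hi _ _ (nd_nonneg (L + 1) (2 * j + 1)) (nd_le _ _) (nd_le_one hj')
        rw [nd_succ] at a1 a2
        have a3 : √(τ * (1 / 2 ^ (L + 1)) / n) ≤ √(τ / (n * 2 ^ L)) := by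
          apply Real.sqrt_le_sqrt
          rw [mul_one_div, div_div]
          have : (0 : ℝ) < n * 2 ^ L := by positivity
          exact div_le_div_of_nonneg_left hτ this (by rw [pow_succ]; nlinarith)
        have a4 := mul_le_mul_of_nonneg_left a3 hρ
        refine (abs_sub _ _).trans ?_
        simp only
        linarith
    · have : ∑ i ∈ s, ∑ j ∈ range (2 ^ L), ((φ i (2 * j) + φ i (2 * j + 1)) / 2) ^ 2 ≤
          ∑ i ∈ s, ∑ j ∈ range (2 ^ L), (φ i (2 * j) ^ 2 + φ i (2 * j + 1) ^ 2) / 2 :=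
        sum_le_sum fun i _ => sum_le_sum fun j _ => by
          nlinarith [sq_nonneg (φ i (2 * j) - φ i (2 * j + 1))]
      simp only [← sum_div] at this
      rw [pow_succ] at h2
      linarith
    · have : ∑ i ∈ s, ∑ j ∈ range (2 ^ L), |(φ i (2 * j) + φ i (2 * j + 1)) / 2| ≤
          ∑ i ∈ s, ∑ j ∈ range (2 ^ L), (|φ i (2 * j)| + |φ i (2 * j + 1)|) / 2 :=
        sum_le_sum fun i _ => sum_le_sum fun j _ => by
          rw [abs_div, abs_two]
          linarith [abs_add_le (φ i (2 * j)) (φ i (2 * j + 1))]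
      simp only [← sum_div] at this
      rw [pow_succ] at h1
      linarith
    · refine le_trans (sum_le_sum fun i _ => ?_) hv
      refine var_A' (fun m => |φ i m - φ i (m + 1)|) _ (fun _ => abs_nonneg _) L fun j => ?_
      rw [show 2 * (j + 1) = 2 * j + 2 by ring, abs_le]
      constructor <;>
        linarith [le_abs_self (φ i (2 * j) - φ i (2 * j + 1)), neg_abs_le (φ i (2 * j) - φ i (2 * j + 1)),
          le_abs_self (φ i (2 * j + 1) - φ i (2 * j + 1 + 1)),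
          neg_abs_le (φ i (2 * j + 1) - φ i (2 * j + 1 + 1)),
          le_abs_self (φ i (2 * j + 2) - φ i (2 * j + 2 + 1)),
          neg_abs_le (φ i (2 * j + 2) - φ i (2 * j + 2 + 1))]

lemma le_of_sq_le_sq' {a b : ℝ} (h : a ^ 2 ≤ b ^ 2) (hb : 0 ≤ b) : a ≤ b :=
  (le_abs_self a).trans (by simpa [abs_of_nonneg hb] using sq_le_sq.1 h)

lemma abs_avg {a b c x : ℝ} (h : x = (a + 2 * b + c) / 2) : |x| ≤ (|a| + 2 * |b| + |c|) / 2 := by
  rw [h, abs_le]
  constructor <;> linarith [le_abs_self a, neg_abs_le a, le_abs_self b, neg_abs_le b, le_abs_self c,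
    neg_abs_le c]

lemma abs_half {a x : ℝ} (h : x = a / 2) : |x| ≤ |a| := by
  rw [h, abs_div, abs_two]
  linarith [abs_nonneg a]

lemma lemX (W : ℝ → ℝ → ℝ → ℝ → ℝ) {H τ κ V : ℝ} (hH : 0 ≤ H) (hτ : 0 ≤ τ) (hκ : 0 ≤ κ)
    (hx : ∀ a b c p q, a ≤ b → b ≤ c → W a c p q = W a b p q + W b c p q)
    (hy : ∀ p q a b c, a ≤ b → b ≤ c → W p q a c = W p q a b + W p q b c)
    (hdev : ∀ a b p q, 0 ≤ a → a ≤ b → b ≤ 1 → 0 ≤ p → p ≤ q → q ≤ 1 →
      |W a b p q| ≤ √(τ * ((b - a) * (q - p))) + κ) (K L : ℕ) : ∀ φ : ℕ → ℕ → ℝ,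
      ∑ i ∈ range (2 ^ L), ∑ j ∈ range (2 ^ K), φ i j ^ 2 ≤ H * 2 ^ L * 2 ^ K →
      ∑ i ∈ range (2 ^ L - 1), ∑ j ∈ range (2 ^ K - 1),
        |φ i j - φ (i + 1) j - φ i (j + 1) + φ (i + 1) (j + 1)| ≤ V →
      ∑ i ∈ range (2 ^ L - 1), ∑ j ∈ range (2 ^ K), |φ i j - φ (i + 1) j| ≤ V * 2 ^ K →
      ∑ i ∈ range (2 ^ L), ∑ j ∈ range (2 ^ K - 1), |φ i j - φ i (j + 1)| ≤ V * 2 ^ L →
      |∑ i ∈ range (2 ^ L), ∑ j ∈ range (2 ^ K),
        φ i j * W (nd L i) (nd L (i + 1)) (nd K j) (nd K (j + 1))| ≤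
        Bd H τ κ √H + (2 * K + L * (2 + 4 * K)) * Bd H τ κ V := by
  induction L with
  | zero =>
    intro φ h2 _ _ hv
    have := lemY (range (2 ^ 0)) (fun i a b => W (nd 0 i) (nd 0 (i + 1)) a b) (H := H) (τ := τ)
      (κ := κ) (V := V) (V0 := √H) (ρ := 1) (n := 1) one_pos (by simp) hH hτ hκ zero_le_one
      (fun i a b c => hy _ _ a b c) ?_ K φ (by simpa using h2) ?_ (by simpa using hv)
    · simpa using this
    · intro i hi a b h0 hab h1
      have := hdev _ _ a b (nd_nonneg 0 i) (nd_le 0 i) (nd_le_one (mem_range.1 hi)) h0 hab h1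
      rw [nd_succ] at this
      simpa using this
    · simp only [pow_zero, range_one, sum_singleton, mul_one] at h2 ⊢
      have h3 := sq_sum_le_card_mul_sum_sq (s := range (2 ^ K)) (f := fun j => |φ 0 j|)
      simp only [sq_abs, card_range] at h3
      push_cast at h3
      have h4 : (∑ j ∈ range (2 ^ K), |φ 0 j|) ^ 2 ≤ (√H * 2 ^ K) ^ 2 := by
        rw [mul_pow, Real.sq_sqrt hH]
        have : (0 : ℝ) < 2 ^ K := by positivity
        nlinarith
      exact le_of_sq_le_sq' h4 (by positivity)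
  | succ L ih =>
    intro φ h2 h12 h1 hv
    rw [sum_pair2] at h2 hv ⊢
    have e : ∑ i ∈ range (2 ^ L), (∑ j ∈ range (2 ^ K),
        φ (2 * i) j * W (nd (L + 1) (2 * i)) (nd (L + 1) (2 * i + 1)) (nd K j) (nd K (j + 1)) +
        ∑ j ∈ range (2 ^ K), φ (2 * i + 1) j *
          W (nd (L + 1) (2 * i + 1)) (nd (L + 1) (2 * i + 1 + 1)) (nd K j) (nd K (j + 1))) =
        ∑ i ∈ range (2 ^ L), ∑ j ∈ range (2 ^ K), (φ (2 * i) j + φ (2 * i + 1) j) / 2 *
          W (nd L i) (nd L (i + 1)) (nd K j) (nd K (j + 1)) +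
        ∑ i ∈ range (2 ^ L), ∑ j ∈ range (2 ^ K), (φ (2 * i) j - φ (2 * i + 1) j) / 2 *
          (W (nd (L + 1) (2 * i)) (nd (L + 1) (2 * i + 1)) (nd K j) (nd K (j + 1)) -
            W (nd (L + 1) (2 * i + 1)) (nd (L + 1) (2 * i + 1 + 1)) (nd K j) (nd K (j + 1))) := by
      rw [← sum_add_distrib]
      refine sum_congr rfl fun i _ => ?_
      rw [← sum_add_distrib, ← sum_add_distrib]
      refine sum_congr rfl fun j _ => ?_
      rw [← nd_two' L i, ← nd_two L i, hx _ (nd (L + 1) (2 * i + 1)) _ _ _ (nd_le _ _) (nd_le _ _)]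
      ring
    rw [e]
    have sq : ∀ σ : ℝ, σ ^ 2 = 1 → ∑ i ∈ range (2 ^ L), ∑ j ∈ range (2 ^ K),
        ((φ (2 * i) j + σ * φ (2 * i + 1) j) / 2) ^ 2 ≤ H * 2 ^ L * 2 ^ K := by
      intro σ hσ
      have : ∑ i ∈ range (2 ^ L), ∑ j ∈ range (2 ^ K),
          ((φ (2 * i) j + σ * φ (2 * i + 1) j) / 2) ^ 2 ≤ ∑ i ∈ range (2 ^ L),
          (∑ j ∈ range (2 ^ K), φ (2 * i) j ^ 2 + ∑ j ∈ range (2 ^ K), φ (2 * i + 1) j ^ 2) / 2 := by
        refine sum_le_sum fun i _ => ?_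
        rw [← sum_add_distrib, sum_div]
        refine sum_le_sum fun j _ => ?_
        have : (σ * φ (2 * i + 1) j) ^ 2 = φ (2 * i + 1) j ^ 2 := by rw [mul_pow, hσ, one_mul]
        nlinarith [sq_nonneg (φ (2 * i) j - σ * φ (2 * i + 1) j)]
      rw [← sum_div] at this
      rw [pow_succ] at h2
      linarith
    have hA := ih (fun i j => (φ (2 * i) j + φ (2 * i + 1) j) / 2) (by simpa using sq 1 (by simp))
      ?_ ?_ ?_
    · have hD := lemY (range (2 ^ L))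
        (fun i a b => W (nd (L + 1) (2 * i)) (nd (L + 1) (2 * i + 1)) a b -
          W (nd (L + 1) (2 * i + 1)) (nd (L + 1) (2 * i + 1 + 1)) a b) (H := H) (τ := τ)
        (κ := κ) (V := V) (V0 := V) (ρ := 2) (n := 2 ^ L) (by positivity) (by simp) hH hτ hκ
        zero_le_two ?_ ?_ K (fun i j => (φ (2 * i) j - φ (2 * i + 1) j) / 2)
        (by simpa [sub_eq_add_neg] using sq (-1) (by simp)) ?_ ?_
      · refine (abs_add_le _ _).trans ?_
        push_cast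
        linarith
      · intro i a b c hab hbc
        rw [hy _ _ a b c hab hbc, hy (nd (L + 1) (2 * i + 1)) _ a b c hab hbc]
        ring
      · intro i hi a b h0 hab hb
        have hi' : 2 * i + 1 + 1 ≤ 2 ^ (L + 1) := by
          have := mem_range.1 hi
          rw [pow_succ]
          omega
        have a1 := hdev _ _ a b (nd_nonneg (L + 1) (2 * i)) (nd_le _ _) (nd_le_one (by omega))
          h0 hab hb
        have a2 := hdev _ _ a b (nd_nonneg (L + 1) (2 * i + 1)) (nd_le _ _) (nd_le_one hi') h0 hab hb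
        rw [nd_succ] at a1 a2
        have a3 : √(τ * (1 / 2 ^ (L + 1) * (b - a))) ≤ √(τ * (b - a) / 2 ^ L) := by
          apply Real.sqrt_le_sqrt
          have : 0 ≤ τ * (b - a) / 2 ^ L := by
            have := sub_nonneg.2 hab
            positivity
          calc _ = τ * (b - a) / 2 ^ L / 2 := by rw [pow_succ]; field_simp
            _ ≤ _ := by linarith
        refine (abs_sub _ _).trans ?_
        linarith
      · refine le_trans (var_D' (fun m => ∑ j ∈ range (2 ^ K), |φ m j - φ (m + 1) j|) _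
          (fun _ => sum_nonneg fun _ _ => abs_nonneg _) L fun i => ?_) h1
        exact sum_le_sum fun j _ => abs_half rfl
      · refine le_trans (var_D' (fun m => ∑ j ∈ range (2 ^ K - 1),
          |φ m j - φ (m + 1) j - φ m (j + 1) + φ (m + 1) (j + 1)|) _
          (fun _ => sum_nonneg fun _ _ => abs_nonneg _) L fun i => ?_) h12
        exact sum_le_sum fun j _ => abs_half (by ring)
    · refine le_trans (var_A' (fun m => ∑ j ∈ range (2 ^ K - 1),
        |φ m j - φ (m + 1) j - φ m (j + 1) + φ (m + 1) (j + 1)|) _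
        (fun _ => sum_nonneg fun _ _ => abs_nonneg _) L fun i => ?_) h12
      rw [mul_sum, ← sum_add_distrib, ← sum_add_distrib, sum_div]
      refine sum_le_sum fun j _ => abs_avg ?_
      rw [show 2 * (i + 1) = 2 * i + 2 by ring]
      ring
    · refine le_trans (var_A' (fun m => ∑ j ∈ range (2 ^ K), |φ m j - φ (m + 1) j|) _
        (fun _ => sum_nonneg fun _ _ => abs_nonneg _) L fun i => ?_) h1
      rw [mul_sum, ← sum_add_distrib, ← sum_add_distrib, sum_div]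
      refine sum_le_sum fun j _ => abs_avg ?_
      rw [show 2 * (i + 1) = 2 * i + 2 by ring]
      ring
    · have : ∑ i ∈ range (2 ^ L), ∑ j ∈ range (2 ^ K - 1), |(φ (2 * i) j + φ (2 * i + 1) j) / 2 -
          (φ (2 * i) (j + 1) + φ (2 * i + 1) (j + 1)) / 2| ≤ ∑ i ∈ range (2 ^ L),
          (∑ j ∈ range (2 ^ K - 1), |φ (2 * i) j - φ (2 * i) (j + 1)| +
            ∑ j ∈ range (2 ^ K - 1), |φ (2 * i + 1) j - φ (2 * i + 1) (j + 1)|) / 2 := by
        refine sum_le_sum fun i _ => ?_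
        rw [← sum_add_distrib, sum_div]
        refine sum_le_sum fun j _ => ?_
        have := abs_avg (a := φ (2 * i) j - φ (2 * i) (j + 1)) (b := 0)
          (c := φ (2 * i + 1) j - φ (2 * i + 1) (j + 1)) (x := (φ (2 * i) j + φ (2 * i + 1) j) / 2 -
          (φ (2 * i) (j + 1) + φ (2 * i + 1) (j + 1)) / 2) (by ring)
        simpa using this
      rw [← sum_div] at this
      rw [pow_succ] at hv
      linarith

end Pool.Agent.P.MP_faec4e_pr.PL
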