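import Pool.Agent.P.MP_faec4e_pr.PL.Iface

/-! Integrals over rectangles. -/

set_option autoImplicit false

namespace Pool.Agent.P.MP_faec4e_pr.PL

open MeasureTheory Set Pool.Agent.P.MP_faec4e_pr
open scoped ENNReal

noncomputable section

/-- The integral over a rectangle. -/
def RI (μ : Measure P2) (φ : P2 → ℝ) (u u' w w' : ℝ) : ℝ := ∫ z in rect u u' w w', φ z ∂μ

/-- The centred integral over a rectangle. -/
def NN (μ : Measure P2) (e φ : P2 → ℝ) (u u' w w' : ℝ) : ℝ :=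
  RI μ φ u u' w w' - RI (law e) φ u u' w w'

/-- The sum of the two masses of a rectangle. -/
def PP (μ : Measure P2) (e : P2 → ℝ) (u u' w w' : ℝ) : ℝ :=
  RI μ (fun _ => 1) u u' w w' + RI (law e) (fun _ => 1) u u' w w'

/-- Additive in both coordinates. -/
structure Add2 (N : ℝ → ℝ → ℝ → ℝ → ℝ) : Prop where
  x : ∀ a b c p q, a ≤ b → b ≤ c → N a c p q = N a b p q + N b c p q
  y : ∀ p q a b c, a ≤ b → b ≤ c → N p q a c = N p q a b + N p q b c

lemma measurableSet_rect (u u' w w' : ℝ) : MeasurableSet (rect u u' w w') := by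
  unfold rect
  measurability

lemma RI_add {μ : Measure P2} {φ : P2 → ℝ} (h : Integrable φ μ) : Add2 (RI μ φ) := by
  constructor
  · intro a b c p q hab hbc
    unfold RI
    rw [← setIntegral_union _ (measurableSet_rect _ _ _ _) h.integrableOn h.integrableOn]
    · congr 2
      ext z
      simp only [rect, mem_union, mem_ofPred_eq]
      constructor
      · rintro ⟨h1, h2, h3⟩
        rcases le_or_gt (z 0) b with h | h
        · exact Or.inl ⟨h1, h, h3⟩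
        · exact Or.inr ⟨h, h2, h3⟩
      · rintro (⟨h1, h2, h3⟩ | ⟨h1, h2, h3⟩)
        · exact ⟨h1, h2.trans hbc, h3⟩
        · exact ⟨hab.trans_lt h1, h2, h3⟩
    · exact disjoint_left.2 fun z h1 h2 => absurd h1.2.1 (not_le.2 h2.1)
  · intro p q a b c hab hbc
    unfold RI
    rw [← setIntegral_union _ (measurableSet_rect _ _ _ _) h.integrableOn h.integrableOn]
    · congr 2
      ext z
      simp only [rect, mem_union, mem_ofPred_eq]
      constructor
      · rintro ⟨h3, h4, h1, h2⟩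
        rcases le_or_gt (z 1) b with h | h
        · exact Or.inl ⟨h3, h4, h1, h⟩
        · exact Or.inr ⟨h3, h4, h, h2⟩
      · rintro (⟨h3, h4, h1, h2⟩ | ⟨h3, h4, h1, h2⟩)
        · exact ⟨h3, h4, h1, h2.trans hbc⟩
        · exact ⟨h3, h4, hab.trans_lt h1, h2⟩
    · exact disjoint_left.2 fun z h1 h2 => absurd h1.2.2.2 (not_le.2 h2.2.2.1)

lemma Add2.zero_x {N : ℝ → ℝ → ℝ → ℝ → ℝ} (h : Add2 N) (a p q : ℝ) : N a a p q = 0 := by
  have := h.x a a a p q le_rfl le_rfl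
  linarith

lemma Add2.zero_y {N : ℝ → ℝ → ℝ → ℝ → ℝ} (h : Add2 N) (a p q : ℝ) : N p q a a = 0 := by
  have := h.y p q a a a le_rfl le_rfl
  linarith

lemma Add2.sum_x {N : ℝ → ℝ → ℝ → ℝ → ℝ} (h : Add2 N) {x : ℕ → ℝ} (hx : Monotone x) (p q : ℝ)
    (n : ℕ) : ∑ i ∈ Finset.range n, N (x i) (x (i + 1)) p q = N (x 0) (x n) p q := by
  induction n with
  | zero => simp [h.zero_x]
  | succ n ih =>
    rw [Finset.sum_range_succ, ih, ← h.x _ _ _ _ _ (hx n.zero_le) (hx n.le_succ)]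

lemma Add2.sum_y {N : ℝ → ℝ → ℝ → ℝ → ℝ} (h : Add2 N) {x : ℕ → ℝ} (hx : Monotone x) (p q : ℝ)
    (n : ℕ) : ∑ i ∈ Finset.range n, N p q (x i) (x (i + 1)) = N p q (x 0) (x n) := by
  induction n with
  | zero => simp [h.zero_y]
  | succ n ih =>
    rw [Finset.sum_range_succ, ih, ← h.y _ _ _ _ _ (hx n.zero_le) (hx n.le_succ)]

lemma Add2.sum_xy {N : ℝ → ℝ → ℝ → ℝ → ℝ} (h : Add2 N) {x y : ℕ → ℝ} (hx : Monotone x)
    (hy : Monotone y) (n m : ℕ) : ∑ i ∈ Finset.range n, ∑ j ∈ Finset.range m,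
      N (x i) (x (i + 1)) (y j) (y (j + 1)) = N (x 0) (x n) (y 0) (y m) := by
  simp only [h.sum_y hy, h.sum_x hx]

lemma law_fin {e : P2 → ℝ} (he : Shape e) : IsFiniteMeasure (law e) :=
  isFiniteMeasure_withDensity_ofReal he.intg.2

lemma intg_bd {μ : Measure P2} [IsFiniteMeasure μ] {φ : P2 → ℝ} (hm : Measurable φ) {b : ℝ}
    (hb : ∀ z, |φ z| ≤ b) : Integrable φ μ :=
  Integrable.of_bound hm.aestronglyMeasurable b (.of_forall hb)

lemma RI_one (μ : Measure P2) (u u' w w' : ℝ) :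
    RI μ (fun _ => 1) u u' w w' = μ.real (rect u u' w w') := by
  simp [RI]

lemma RI_close {μ : Measure P2} [IsFiniteMeasure μ] {φ : P2 → ℝ} (h : Integrable φ μ)
    {u u' w w' c o : ℝ} (hc : ∀ z ∈ rect u u' w w', |φ z - c| ≤ o) :
    |RI μ φ u u' w w' - c * RI μ (fun _ => 1) u u' w w'| ≤ o * RI μ (fun _ => 1) u u' w w' := by
  have := norm_setIntegral_le_of_norm_le_const (μ := μ) (s := rect u u' w w')
    (f := fun z => φ z - c) (C := o) (measure_lt_top _ _) hc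
  rw [integral_sub h.integrableOn (integrable_const c)] at this
  simpa [RI, mul_comm] using this

lemma vol_rect {u u' w w' : ℝ} (h1 : u ≤ u') (_h2 : w ≤ w') :
    volume (rect u u' w w') = ENNReal.ofReal ((u' - u) * (w' - w)) := by
  have : rect u u' w w' = univ.pi fun i => Ioc (![u, w] i) (![u', w'] i) := by
    ext z
    simp [rect, Fin.forall_fin_two, and_assoc]
  rw [this, Real.volume_pi_Ioc, Fin.prod_univ_two, ENNReal.ofReal_mul (sub_nonneg.2 h1)]
  simp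

lemma law_le {e : P2 → ℝ} {u u' w w' σ : ℝ} (h1 : u ≤ u') (h2 : w ≤ w') (hσ : 0 ≤ σ)
    (h : ∀ z ∈ rect u u' w w', e z ≤ σ) :
    RI (law e) (fun _ => 1) u u' w w' ≤ σ * ((u' - u) * (w' - w)) := by
  have h3 : 0 ≤ (u' - u) * (w' - w) := mul_nonneg (sub_nonneg.2 h1) (sub_nonneg.2 h2)
  rw [RI_one, Measure.real]
  refine ENNReal.toReal_le_of_le_ofReal (mul_nonneg hσ h3) ?_
  rw [law, withDensity_apply _ (measurableSet_rect _ _ _ _), ENNReal.ofReal_mul hσ,
    ← vol_rect h1 h2, ← setLIntegral_const]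
  exact setLIntegral_mono' (measurableSet_rect _ _ _ _) fun z hz => ENNReal.ofReal_le_ofReal (h z hz)

lemma RI_lower {φ : P2 → ℝ} (hi : Integrable φ) {u u' w w' c k : ℝ} (h1 : u ≤ u') (h2 : w ≤ w')
    (h : ∀ z ∈ rect u u' w w', c ≤ k * φ z) :
    c * ((u' - u) * (w' - w)) ≤ k * RI volume φ u u' w w' := by
  have h3 : 0 ≤ (u' - u) * (w' - w) := mul_nonneg (sub_nonneg.2 h1) (sub_nonneg.2 h2)
  have hv : volume (rect u u' w w') ≠ ∞ := by rw [vol_rect h1 h2]; exact ENNReal.ofReal_ne_top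
  have := setIntegral_mono_on (μ := volume) (f := fun _ => c) (g := fun z => k * φ z)
    (integrableOn_const hv) (hi.const_mul k).integrableOn (measurableSet_rect u u' w w') h
  rw [integral_const_mul, setIntegral_const, Measure.real, vol_rect h1 h2,
    ENNReal.toReal_ofReal h3, smul_eq_mul, mul_comm] at this
  exact this

/-- The standing assumptions of the deterministic part. -/
structure Ctx (f e : P2 → ℝ) (μ : Measure P2) (M κ : ℝ) : Prop where
  hf : Shape f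
  he : Shape e
  fin : IsFiniteMeasure μ
  dev : Dev μ (law e) M κ
  pos : 0 < κ
  tint : Integrable (tau f e)

variable {f e : P2 → ℝ} {μ : Measure P2} {M κ : ℝ}

lemma Ctx.NN_add (C : Ctx f e μ M κ) {φ : P2 → ℝ} (hm : Measurable φ) {b : ℝ}
    (hb : ∀ z, |φ z| ≤ b) : Add2 (NN μ e φ) := by
  have := C.fin
  have := law_fin C.he
  have h1 := RI_add (intg_bd (μ := μ) hm hb)
  have h2 := RI_add (intg_bd (μ := law e) hm hb)
  constructor
  · intro a b c p q hab hbc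
    simp only [NN, h1.x a b c p q hab hbc, h2.x a b c p q hab hbc]
    ring
  · intro p q a b c hab hbc
    simp only [NN, h1.y p q a b c hab hbc, h2.y p q a b c hab hbc]
    ring

lemma Ctx.PP_add (C : Ctx f e μ M κ) : Add2 (PP μ e) := by
  have := C.fin
  have := law_fin C.he
  have h1 := RI_add (integrable_const (μ := μ) (1 : ℝ))
  have h2 := RI_add (integrable_const (μ := law e) (1 : ℝ))
  constructor
  · intro a b c p q hab hbc
    simp only [PP, h1.x a b c p q hab hbc, h2.x a b c p q hab hbc]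
    ring
  · intro p q a b c hab hbc
    simp only [PP, h1.y p q a b c hab hbc, h2.y p q a b c hab hbc]
    ring

lemma PP_nonneg (μ : Measure P2) (e : P2 → ℝ) (u u' w w' : ℝ) : 0 ≤ PP μ e u u' w w' := by
  simp only [PP, RI_one]
  positivity

lemma Ctx.NN_close (C : Ctx f e μ M κ) {φ : P2 → ℝ} (hm : Measurable φ) {b : ℝ}
    (hb : ∀ z, |φ z| ≤ b) {u u' w w' c o : ℝ} (hc : ∀ z ∈ rect u u' w w', |φ z - c| ≤ o) :
    |NN μ e φ u u' w w' - c * NN μ e (fun _ => 1) u u' w w'| ≤ o * PP μ e u u' w w' := by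
  have := C.fin
  have := law_fin C.he
  have h1 := RI_close (intg_bd (μ := μ) hm hb) hc
  have h2 := RI_close (intg_bd (μ := law e) hm hb) hc
  rw [abs_le] at *
  simp only [NN, PP]
  constructor <;> linarith [h1.1, h1.2, h2.1, h2.2]

lemma Ctx.NN_one (C : Ctx f e μ M κ) {u u' w w' σ : ℝ} (h0 : 0 ≤ u) (h1 : u ≤ u') (h2 : u' ≤ M)
    (h3 : 0 ≤ w) (h4 : w ≤ w') (h5 : w' ≤ M) (hσ : 0 ≤ σ) (h : ∀ z ∈ rect u u' w w', e z ≤ σ) :
    |NN μ e (fun _ => 1) u u' w w'| ≤ √(κ * (σ * ((u' - u) * (w' - w)))) + κ := by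
  have a1 := C.dev u u' w w' h0 h1 h2 h3 h4 h5
  have a2 := law_le h1 h4 hσ h
  simp only [NN, RI_one] at *
  have := Real.sqrt_le_sqrt (mul_le_mul_of_nonneg_left a2 C.pos.le)
  linarith

lemma Ctx.PP_le (C : Ctx f e μ M κ) {u u' w w' σ : ℝ} (h0 : 0 ≤ u) (h1 : u ≤ u') (h2 : u' ≤ M)
    (h3 : 0 ≤ w) (h4 : w ≤ w') (h5 : w' ≤ M) (hσ : 0 ≤ σ) (h : ∀ z ∈ rect u u' w w', e z ≤ σ) :
    PP μ e u u' w w' ≤ 5 / 2 * (σ * ((u' - u) * (w' - w))) + 3 / 2 * κ := by
  have a1 := C.NN_one h0 h1 h2 h3 h4 h5 hσ h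
  have a2 := law_le h1 h4 hσ h
  have a3 : 0 ≤ σ * ((u' - u) * (w' - w)) :=
    mul_nonneg hσ (mul_nonneg (sub_nonneg.2 h1) (sub_nonneg.2 h4))
  have a4 : √(κ * (σ * ((u' - u) * (w' - w)))) ≤ (κ + σ * ((u' - u) * (w' - w))) / 2 := by
    rw [Real.sqrt_le_left (by linarith [C.pos])]
    nlinarith [sq_nonneg (κ - σ * ((u' - u) * (w' - w)))]
  have a5 := (abs_le.1 a1).2
  simp only [NN, PP] at *
  linarith

lemma Ctx.NN_triv (C : Ctx f e μ M κ) {φ : P2 → ℝ} (hm : Measurable φ) {b : ℝ}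
    (hb : ∀ z, |φ z| ≤ b) {u u' w w' σ : ℝ} (h0 : 0 ≤ u) (h1 : u ≤ u') (h2 : u' ≤ M)
    (h3 : 0 ≤ w) (h4 : w ≤ w') (h5 : w' ≤ M) (hσ : 0 ≤ σ) (h : ∀ z ∈ rect u u' w w', e z ≤ σ) :
    |NN μ e φ u u' w w'| ≤ b * (5 / 2 * (σ * ((u' - u) * (w' - w))) + 3 / 2 * κ) := by
  have a1 := C.NN_close hm hb (u := u) (u' := u') (w := w) (w' := w') (c := 0) (o := b)
    fun z _ => by simpa using hb z
  have a2 := C.PP_le h0 h1 h2 h3 h4 h5 hσ h
  have b0 : 0 ≤ b := (abs_nonneg _).trans (hb 0)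
  simp only [zero_mul, sub_zero] at a1
  exact a1.trans (mul_le_mul_of_nonneg_left a2 b0)

lemma NN_zero {φ : P2 → ℝ} {u u' w w' : ℝ} (h : ∀ z ∈ rect u u' w w', φ z = 0) :
    NN μ e φ u u' w w' = 0 := by
  simp only [NN, RI]
  rw [setIntegral_eq_zero_of_forall_eq_zero h, setIntegral_eq_zero_of_forall_eq_zero h, sub_zero]

lemma Ctx.T_nonneg (C : Ctx f e μ M κ) (u u' w w' : ℝ) : 0 ≤ RI volume (tau f e) u u' w w' :=
  integral_nonneg fun z => div_nonneg (sq_nonneg _) (add_nonneg (C.hf.nonneg z) (C.he.nonneg z))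

end

end Pool.Agent.P.MP_faec4e_pr.PL
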