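import Pool.Agent.P.MP_faec4e_pr.PL.Lev

/-! All levels on one dyadic box. -/

set_option autoImplicit false

namespace Pool.Agent.P.MP_faec4e_pr.PL

open MeasureTheory Finset Pool.Agent.P.MP_faec4e_pr

variable {f e : P2 → ℝ} {μ : Measure P2} {M κ s : ℝ}

lemma Ctx.NN_sub (C : Ctx f e μ M κ) {φ ψ : P2 → ℝ} (hm : Measurable φ) (hm' : Measurable ψ)
    {b b' : ℝ} (hb : ∀ z, |φ z| ≤ b) (hb' : ∀ z, |ψ z| ≤ b') (u u' w w' : ℝ) :
    NN μ e (fun z => φ z - ψ z) u u' w w' = NN μ e φ u u' w w' - NN μ e ψ u u' w w' := by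
  have := C.fin
  have := law_fin C.he
  simp only [NN, RI]
  rw [integral_sub (intg_bd hm hb) (intg_bd hm' hb'), integral_sub (intg_bd hm hb) (intg_bd hm' hb')]
  ring

lemma Ctx.abs_sub_le (C : Ctx f e μ M κ) (z : P2) : |f z - e z| ≤ f z + e z := by
  rw [abs_le]
  constructor <;> linarith [C.hf.nonneg z, C.he.nonneg z]

lemma Ctx.psi_bd (C : Ctx f e μ M κ) (z : P2) : |psi f e z| ≤ 1 := by
  have h0 := add_nonneg (C.hf.nonneg z) (C.he.nonneg z)
  rw [psi, abs_div, abs_of_nonneg h0]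
  exact div_le_one_of_le₀ (C.abs_sub_le z) h0

lemma Ctx.psi_meas (C : Ctx f e μ M κ) : Measurable (psi f e) :=
  (C.hf.meas.sub C.he.meas).div (C.hf.meas.add C.he.meas)

lemma Phi_eq {g : ℝ → ℝ} (h : ∀ t, s ≤ t → g t = 1 / t) {z : P2} (hz : s ≤ f z + e z) :
    Phi f e g z = psi f e z := by
  rw [Phi, psi, h _ hz, mul_one_div]

lemma Ctx.Phi_bd (C : Ctx f e μ M κ) {g : ℝ → ℝ} (hs : 0 < s) (hg : Gam s g)
    (h : ∀ t, s ≤ t → g t = 1 / t) (z : P2) : |Phi f e g z| ≤ 2 := by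
  rcases le_total s (f z + e z) with hz | hz
  · rw [Phi_eq h hz]
    linarith [C.psi_bd z]
  · have h1 := hg.bd _ (add_nonneg (C.hf.nonneg z) (C.he.nonneg z))
    have h2 := (C.abs_sub_le z).trans hz
    rw [Phi, abs_mul]
    calc _ ≤ s * (2 / s) := by gcongr
      _ = 2 := by field_simp

lemma Ctx.drop (C : Ctx f e μ M κ) {u w u' w' : ℝ} (hu : 0 < u) (hw : 0 < w) (h1 : u ≤ u')
    (h2 : w ≤ w') : FF f e u' w' ≤ FF f e u w :=
  add_le_add (C.hf.anti _ _ (by simpa using hu) (by simpa using hw) (by simpa using h1)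
    (by simpa using h2)) (C.he.anti _ _ (by simpa using hu) (by simpa using hw) (by simpa using h1)
    (by simpa using h2))

theorem Ctx.cell (hHS : S_HS) (C : Ctx f e μ M κ) {a c A θ l : ℝ} {r L : ℕ} (ha : 0 < a)
    (hc : 0 < c) (aM : 2 * a ≤ M) (cM : 2 * c ≤ M) (A0 : 0 < A) (hF : FF f e a c * (a * c) ≤ A)
    (hL : A ≤ 2 ^ L * κ) (θ0 : 0 < θ) (θ1 : θ ≤ 1) (h1 : 120 * A / 4 ^ r ≤ l)
    (hp : 2 * 10 ^ 9 * ((L : ℝ) + 1) ^ 8 * κ ^ 2 ≤ θ * (l ^ 3 / A)) :
    |NN μ e (psi f e) a (2 * a) c (2 * c)| ≤ (L + 2) * (θ * RI volume (tau f e) a (2 * a) c (2 * c) +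
      (r + 1) * (4 * l) + 3 * 2 ^ r * (2000 * ((L : ℝ) + 1) ^ 2 * κ / θ)) := by
  obtain ⟨h, hh⟩ := hHS
  have κ0 := C.pos
  have l0 : 0 < l := lt_of_lt_of_le (by positivity) h1
  obtain ⟨m, hm⟩ : ∃ m, m = A / (a * c) := ⟨_, rfl⟩
  have m0 : 0 < m := by rw [hm]; positivity
  have mA : m * (a * c) = A := by rw [hm]; field_simp
  have Fm : FF f e a c ≤ m := by rw [hm, le_div_iff₀ (by positivity)]; exact hF
  obtain ⟨c0, hc0⟩ : ∃ c0, c0 = 2000 * ((L : ℝ) + 1) ^ 2 * κ / θ := ⟨_, rfl⟩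
  have c36 : 36 * κ ≤ c0 := by
    rw [hc0, le_div_iff₀ θ0]
    have : (1 : ℝ) ≤ ((L : ℝ) + 1) ^ 2 := one_le_pow₀ (by linarith [Nat.cast_nonneg (α := ℝ) L])
    have := mul_le_mul_of_nonneg_left θ1 κ0.le
    have := mul_le_mul_of_nonneg_right ‹1 ≤ ((L : ℝ) + 1) ^ 2› κ0.le
    linarith
  have hp' : 2 * 10 ^ 9 * ((L : ℝ) + 1) ^ 8 * κ ^ 2 ≤ θ * (l / m * (l / a) * (l / c)) := by
    refine hp.trans (le_of_eq ?_)
    rw [← mA]
    field_simp
  have h1' : 120 * (a * c) / 4 ^ r ≤ l / m := by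
    rw [le_div_iff₀ m0]
    refine le_trans (le_of_eq ?_) h1
    rw [← mA]
    ring
  have e4 : 2 * (l / m) * m + l / a * a + l / c * c = 4 * l := by field_simp; ring
  rw [← hc0]
  obtain ⟨E, hE⟩ : ∃ E, E = θ * RI volume (tau f e) a (2 * a) c (2 * c) + (r + 1) * (4 * l) +
    3 * 2 ^ r * c0 := ⟨_, rfl⟩
  rw [← hE]
  have lev : ∀ {Φ : P2 → ℝ} {s : ℝ}, Measurable Φ → (∀ z, |Φ z| ≤ 4) →
      (∀ z, 2 * s ≤ f z + e z → Φ z = 0) → 0 < s →
      (∀ u α w β, a ≤ u → 0 ≤ α → u + α ≤ 2 * a → c ≤ w → 0 ≤ β → w + β ≤ 2 * c →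
        FF f e u w ≤ 3 * s → |NN μ e Φ u (u + α) w (w + β)| ≤
          θ * RI volume (tau f e) u (u + α) w (w + β) +
            (l / m * (FF f e u w - FF f e (u + α) w + (FF f e u w - FF f e u (w + β))) +
              l / a * α + l / c * β) + c0) → |NN μ e Φ a (2 * a) c (2 * c)| ≤ E := by
    intro Φ s b1 b2 b3 b4 b5
    have := C.level b1 b2 b3 (r := r) (L := L) b4 ha hc aM cM Fm (mA ▸ hL) θ0.le (by positivity)
      (by positivity) (by linarith) h1' b5
    rwa [e4, ← hE] at this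
  have gd : ∀ {g : ℝ → ℝ} {s : ℝ}, 0 < s → s ≤ m → Gam s g → (∀ z, |Phi f e g z| ≤ 4) →
      ∀ u α w β, a ≤ u → 0 ≤ α → u + α ≤ 2 * a → c ≤ w → 0 ≤ β → w + β ≤ 2 * c →
        FF f e u w ≤ 3 * s → |NN μ e (Phi f e g) u (u + α) w (w + β)| ≤
          θ * RI volume (tau f e) u (u + α) w (w + β) +
            (l / m * (FF f e u w - FF f e (u + α) w + (FF f e u w - FF f e u (w + β))) +
              l / a * α + l / c * β) + c0 := by
    intro g s b1 b2 b3 b4 u α w β d1 d2 d3 d4 d5 d6 d7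
    rw [hc0]
    refine C.good b1 b3 b4 (ha.trans_le d1) (hc.trans_le d4) d2 d5 (d3.trans aM) (d6.trans cM) d7
      (le_trans ?_ (mA ▸ hL)) θ0 θ1 (by positivity) (by positivity) (by positivity) hp'
    gcongr <;> linarith
  have s0 : ∀ j : ℕ, 0 < m / 2 ^ j := fun j => by positivity
  have s1 : ∀ j : ℕ, m / 2 ^ j ≤ m := fun j => div_le_self m0.le (one_le_pow₀ (by norm_num))
  have pm : ∀ s, 0 < s → Measurable (Phi f e (h s)) := fun s hs => C.meas_Phi (hh s hs).1.meas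
  have pb : ∀ s, 0 < s → ∀ z, |Phi f e (h s) z| ≤ 2 := fun s hs =>
    C.Phi_bd hs (hh s hs).1 (hh s hs).2.2
  have ind : ∀ j : ℕ, |NN μ e (Phi f e (h (m / 2 ^ j))) a (2 * a) c (2 * c)| ≤ (j + 1) * E := by
    intro j
    induction j with
    | zero =>
      have := gd m0 le_rfl (hh m m0).1 (fun z => by linarith [pb m m0 z]) a a c c le_rfl ha.le
        (by linarith) le_rfl hc.le (by linarith) (by linarith)
      rw [← two_mul, ← two_mul] at this
      simp only [pow_zero, div_one, Nat.cast_zero, zero_add, one_mul]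
      refine this.trans ?_
      rw [hE]
      have n1 : 0 ≤ FF f e (2 * a) c := add_nonneg (C.hf.nonneg _) (C.he.nonneg _)
      have n2 : 0 ≤ FF f e a (2 * c) := add_nonneg (C.hf.nonneg _) (C.he.nonneg _)
      have n3 : l / m * (FF f e a c - FF f e (2 * a) c + (FF f e a c - FF f e a (2 * c))) ≤
          l / m * (2 * m) := by gcongr; linarith
      have n4 : (1 : ℝ) ≤ 2 ^ r := one_le_pow₀ (by norm_num)
      have n5 : 0 ≤ (r : ℝ) * l := by positivity
      have n6 := mul_le_mul_of_nonneg_right n4 (show 0 ≤ c0 by linarith)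
      linarith
    | succ j ih =>
      have e2 : 2 * (m / 2 ^ (j + 1)) = m / 2 ^ j := by rw [pow_succ]; field_simp
      have hs := s0 (j + 1)
      have e3 : Phi f e (fun t => h (m / 2 ^ (j + 1)) t - h (2 * (m / 2 ^ (j + 1))) t) =
          fun z => Phi f e (h (m / 2 ^ (j + 1))) z - Phi f e (h (m / 2 ^ j)) z := by
        funext z
        simp only [Phi, e2]
        ring
      have b4 : ∀ z, |Phi f e (fun t => h (m / 2 ^ (j + 1)) t - h (2 * (m / 2 ^ (j + 1))) t) z| ≤ 4 :=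
        fun z => by
          rw [e3]
          exact (abs_sub _ _).trans (by linarith [pb _ hs z, pb _ (s0 j) z])
      have := lev (C.meas_Phi (hh _ hs).2.1.meas) b4 (fun z hz => ?_) hs
        (gd hs (s1 _) (hh _ hs).2.1 b4)
      · rw [e3, C.NN_sub (pm _ hs) (pm _ (s0 j)) (pb _ hs) (pb _ (s0 j))] at this
        push_cast
        rw [abs_le] at *
        constructor <;> linarith [this.1, this.2, ih.1, ih.2]
      · rw [e3]
        simp only
        rw [Phi_eq (hh _ hs).2.2 (by linarith), Phi_eq (hh _ (s0 j)).2.2 (by linarith), sub_self]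
  have hs := s0 L
  have b4 : ∀ z, |psi f e z - Phi f e (h (m / 2 ^ L)) z| ≤ 4 := fun z =>
    (abs_sub _ _).trans (by linarith [pb _ hs z, C.psi_bd z])
  have rest := lev (Φ := fun z => psi f e z - Phi f e (h (m / 2 ^ L)) z) (s := m / 2 ^ L)
    (C.psi_meas.sub (pm _ hs)) b4
    (fun z hz => by rw [Phi_eq (hh _ hs).2.2 (by linarith), sub_self]) hs ?_
  · rw [C.NN_sub C.psi_meas (pm _ hs) C.psi_bd (pb _ hs)] at rest
    have := ind L
    rw [abs_le] at *
    constructor <;> linarith [this.1, this.2, rest.1, rest.2]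
  · intro u α w β d1 d2 d3 d4 d5 d6 d7
    have u0 := ha.trans_le d1
    have w0 := hc.trans_le d4
    have t1 := C.NN_triv (C.psi_meas.sub (pm _ hs)) b4 u0.le (le_add_of_nonneg_right d2)
      (d3.trans aM) w0.le (le_add_of_nonneg_right d5) (d6.trans cM) (by positivity)
      (C.e_le u0 w0 d7 le_rfl le_rfl)
    have t2 : m / 2 ^ L * ((u + α - u) * (w + β - w)) ≤ κ := by
      calc _ ≤ m / 2 ^ L * (a * c) := by gcongr <;> linarith
        _ = A / 2 ^ L := by rw [← mA]; ring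
        _ ≤ κ := by rw [div_le_iff₀ (by positivity)]; linarith
    have t3 := mul_nonneg θ0.le (C.T_nonneg u (u + α) w (w + β))
    have t4 := C.drop u0 w0 (le_add_of_nonneg_right d2) le_rfl
    have t5 := C.drop u0 w0 le_rfl (le_add_of_nonneg_right d5)
    have t6 : 0 ≤ l / m * (FF f e u w - FF f e (u + α) w + (FF f e u w - FF f e u (w + β))) :=
      mul_nonneg (by positivity) (by linarith)
    have t7 : 0 ≤ l / a * α := by positivity
    have t8 : 0 ≤ l / c * β := by positivity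
    refine t1.trans ?_
    linarith

end Pool.Agent.P.MP_faec4e_pr.PL
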