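import Pool.Agent.P.MP_faec4e_pr.Defs

/-! The maximum likelihood estimator. -/

set_option autoImplicit false

namespace Pool.Agent.P.MP_faec4e_pr

/-- `f` maximises the likelihood of the sample `X` over the class `F_SMU(d)`. -/
def IsMLE {d n : ℕ} (X : Fin n → Fin d → ℝ) (f : (Fin d → ℝ) → ℝ) : Prop :=
  IsSMU f ∧ ∀ g, IsSMU g → ∏ i, g (X i) ≤ ∏ i, f (X i)

end Pool.Agent.P.MP_faec4e_pr
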