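import Pool.Agent.P.MP_faec4e_pr.Box
import Pool.Agent.P.MP_faec4e_pr.PL.Defs

/-! A maximiser of the likelihood exists for every sample. -/

set_option autoImplicit false

namespace Pool.Agent.P.MP_faec4e_pr.PL

open MeasureTheory Set Pool.Agent.P.MP_faec4e_pr
open scoped ENNReal Classical

lemma smu_ind {d : ℕ} (G : Measure (Fin d → ℝ)) (x : Fin d → ℝ) : smu G x =
    ∫ y, (if ∀ i, 0 < x i ∧ x i ≤ y i then (∏ i, y i)⁻¹ else 0) ∂G := by
  rw [smu, ← integral_indicator (measurableSet_up x)]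
  simp only [indicator, mem_ofPred_eq]

lemma isSMU_fin {d : ℕ} {ι : Type} [Fintype ι] (z : ι → Fin d → ℝ) (hz : ∀ S j, 0 < z S j)
    {p : ι → ℝ} (hp : p ∈ stdSimplex ℝ ι) : ∃ f, IsSMU f ∧
      ∀ x, f x = ∑ S, p S * if ∀ i, 0 < x i ∧ x i ≤ z S i then (∏ i, z S i)⁻¹ else 0 := by
  refine ⟨smu (∑ S, ENNReal.ofReal (p S) • Measure.dirac (z S)), ⟨_, ⟨?_⟩, ?_, rfl⟩, fun x => ?_⟩
  · simp only [Measure.coe_finsetSum, Finset.sum_apply, Measure.smul_apply, measure_univ,
      smul_eq_mul, mul_one]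
    rw [← ENNReal.ofReal_sum_of_nonneg fun S _ => hp.1 S, hp.2, ENNReal.ofReal_one]
  · rw [ae_finsetSum_measure_iff]
    intro S _
    refine Measure.ae_smul_measure ?_ _
    rw [ae_dirac_eq]
    exact hz S
  · rw [smu_ind, integral_finsetSum_measure fun S _ =>
      (integrable_dirac (by simp)).smul_measure ENNReal.ofReal_ne_top]
    refine Finset.sum_congr rfl fun S _ => ?_
    rw [integral_smul_measure, integral_dirac, ENNReal.toReal_ofReal (hp.1 S), smul_eq_mul]

lemma integral_part {Y ι : Type} [MeasurableSpace Y] [Fintype ι] (G : Measure Y) [IsFiniteMeasure G]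
    {σ : Y → ι} (hσ : ∀ S, MeasurableSet {y | σ y = S}) (c : ι → ℝ) :
    Integrable (fun y => c (σ y)) G ∧ ∫ y, c (σ y) ∂G = ∑ S, G.real {y | σ y = S} * c S := by
  have e : (fun y => c (σ y)) = fun y => ∑ S, {y | σ y = S}.indicator (fun _ => c S) y := by
    funext y
    simp [indicator]
  have hi : ∀ S ∈ Finset.univ, Integrable ({y | σ y = S}.indicator fun _ => c S) G :=
    fun S _ => (integrable_const _).indicator (hσ S)
  rw [e]
  refine ⟨integrable_finsetSum _ hi, ?_⟩
  rw [integral_finsetSum _ hi]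
  refine Finset.sum_congr rfl fun S _ => ?_
  rw [integral_indicator_const _ (hσ S), smul_eq_mul]

theorem exists_mle {d n : ℕ} (X : Fin n → Fin d → ℝ) : ∃ f, IsMLE X f := by
  by_cases hX : ∀ i j, 0 < X i j
  swap
  · push Not at hX
    obtain ⟨i, j, h⟩ := hX
    obtain ⟨f, hf, -⟩ := isSMU_fin (ι := Unit) (d := d) (fun _ _ => 1) (fun _ _ => one_pos)
      (p := fun _ => 1) ⟨fun _ => zero_le_one, by simp⟩
    refine ⟨f, hf, ?_⟩
    rintro g ⟨G, -, -, rfl⟩
    obtain ⟨G', -, -, rfl⟩ := hf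
    have : smu G (X i) = 0 := by
      rw [smu_ind]
      simp only [if_neg fun h' : ∀ k, 0 < X i k ∧ X i k ≤ _ => absurd (h' j).1 (not_lt.2 h),
        integral_zero]
    rw [Finset.prod_eq_zero (Finset.mem_univ i) this]
    exact Finset.prod_nonneg fun _ _ => smu_nonneg _ _
  obtain ⟨z, hz⟩ : ∃ z : Finset (Fin n) → Fin d → ℝ,
    z = fun S j => if h : S.Nonempty then S.sup' h fun i => X i j else 1 := ⟨_, rfl⟩
  have z0 : ∀ S j, 0 < z S j := fun S j => by
    simp only [hz]
    split_ifs with h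
    · obtain ⟨i, hi⟩ := h
      exact (hX i j).trans_le (Finset.le_sup' (fun i => X i j) hi)
    · exact one_pos
  obtain ⟨k, hk⟩ : ∃ k : Fin n → Finset (Fin n) → ℝ,
    k = fun i S => if ∀ j, 0 < X i j ∧ X i j ≤ z S j then (∏ j, z S j)⁻¹ else 0 := ⟨_, rfl⟩
  have k0 : ∀ i S, 0 ≤ k i S := fun i S => by
    simp only [hk]
    split_ifs
    · exact inv_nonneg.2 (Finset.prod_nonneg fun j _ => (z0 S j).le)
    · exact le_rfl
  obtain ⟨p, hp, hmax⟩ := (isCompact_stdSimplex ℝ (Finset (Fin n))).exists_isMaxOn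
    ⟨_, single_mem_stdSimplex ℝ ∅⟩ (f := fun p => ∏ i, ∑ S, p S * k i S)
    (Continuous.continuousOn (by fun_prop))
  obtain ⟨f, hf, hf'⟩ := isSMU_fin z z0 hp
  refine ⟨f, hf, ?_⟩
  rintro g ⟨G, hG, -, rfl⟩
  obtain ⟨σ, hσ⟩ : ∃ σ : (Fin d → ℝ) → Finset (Fin n),
    σ = fun y => Finset.univ.filter fun i => ∀ j, X i j ≤ y j := ⟨_, rfl⟩
  have mσ : ∀ S, MeasurableSet {y | σ y = S} := fun S => by
    have : {y | σ y = S} = {y | ∀ i, (∀ j, X i j ≤ y j) ↔ i ∈ S} := by
      ext y
      simp [hσ, Finset.ext_iff]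
    rw [this]
    measurability
  have hq : (fun S => G.real {y | σ y = S}) ∈ stdSimplex ℝ (Finset (Fin n)) := by
    refine ⟨fun S => measureReal_nonneg, ?_⟩
    have := (integral_part G mσ fun _ => 1).2
    simpa using this.symm
  refine le_trans ?_ ((hmax hq).trans (le_of_eq ?_))
  · refine Finset.prod_le_prod (fun _ _ => smu_nonneg _ _) fun i _ => ?_
    obtain ⟨h1, h2⟩ := integral_part G mσ (k i)
    rw [← h2, smu_ind]
    refine integral_mono_of_nonneg (.of_forall fun y => ?_) h1 (.of_forall fun y => ?_)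
    · simp only [Pi.zero_apply]
      split_ifs with h
      · exact inv_nonneg.2 (Finset.prod_nonneg fun j _ => ((h j).1.trans_le (h j).2).le)
      · exact le_rfl
    · simp only
      split_ifs with h
      · have hi : i ∈ σ y := by simpa [hσ] using fun j => (h j).2
        have h3 : ∀ j, X i j ≤ z (σ y) j ∧ z (σ y) j ≤ y j := fun j => by
          have hne : (σ y).Nonempty := ⟨i, hi⟩
          simp only [hz]
          rw [dif_pos hne]
          refine ⟨Finset.le_sup' (fun i => X i j) hi, Finset.sup'_le _ _ fun a ha => ?_⟩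
          simp only [hσ, Finset.mem_filter] at ha
          exact ha.2 j
        simp only [hk, if_pos fun j => (⟨hX i j, (h3 j).1⟩ : 0 < X i j ∧ X i j ≤ z (σ y) j)]
        exact inv_anti₀ (Finset.prod_pos fun j _ => z0 _ j)
          (Finset.prod_le_prod (fun j _ => (z0 _ j).le) fun j _ => (h3 j).2)
      · exact k0 _ _
  · simp only [hf', hk]

end Pool.Agent.P.MP_faec4e_pr.PL
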