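import Pool.Agent.P.MP_faec4e_pr.Construct

/-! The lower bound in every dimension at least three. -/

set_option autoImplicit false

namespace Pool.Agent.P.MP_faec4e_pr.PL

open MeasureTheory Set Pool.Agent.P.MP_faec4e_pr
open scoped ENNReal Classical

variable {m : ℕ}

/-- Add coordinates equal to one. -/
def ext (m : ℕ) (y : Fin 3 → ℝ) : Fin (3 + m) → ℝ := Fin.append y fun _ => 1

/-- The first three coordinates. -/
def pr (x : Fin (3 + m) → ℝ) : Fin 3 → ℝ := fun i => x (Fin.castAdd m i)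

/-- The other coordinates lie in the unit interval. -/
def Tl (x : Fin (3 + m) → ℝ) : Prop := ∀ j, 0 < x (Fin.natAdd 3 j) ∧ x (Fin.natAdd 3 j) ≤ 1

lemma measurable_ext : Measurable (ext m) := measurable_pi_iff.2 fun i => by
  refine Fin.addCases (fun i => ?_) (fun i => ?_) i
  · simpa [ext] using measurable_pi_apply i
  · simp [ext]

lemma smu_ext (G : Measure (Fin 3 → ℝ)) (x : Fin (3 + m) → ℝ) :
    smu (G.map (ext m)) x = if Tl x then smu G (pr x) else 0 := by
  rw [smu, setIntegral_map (measurableSet_up x) (Measurable.aestronglyMeasurable (by fun_prop))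
    measurable_ext.aemeasurable]
  have e : ∀ y, y ∈ ext m ⁻¹' {y | ∀ i, 0 < x i ∧ x i ≤ y i} ↔
      (∀ i, 0 < pr x i ∧ pr x i ≤ y i) ∧ Tl x := fun y => by
    simp only [mem_preimage, mem_ofPred_eq, Fin.forall_fin_add, ext, Fin.append_left,
      Fin.append_right, pr, Tl]
  split_ifs with h
  · rw [smu, show ext m ⁻¹' {y | ∀ i, 0 < x i ∧ x i ≤ y i} = {y | ∀ i, 0 < pr x i ∧ pr x i ≤ y i}
      from Set.ext fun y => by rw [e]; simp [h]]
    simp [ext, Fin.prod_univ_add]
  · rw [show ext m ⁻¹' {y | ∀ i, 0 < x i ∧ x i ≤ y i} = ∅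
      from Set.ext fun y => by rw [e]; simp [h]]
    simp

/-- The cylinder over a cube. -/
def cyl (m : ℕ) (c : Fin 3 → ℝ) (t : ℝ) : Set (Fin (3 + m) → ℝ) :=
  univ.pi fun i => Ioc (Fin.append c (fun _ => 0) i) (Fin.append (fun i => c i + t) (fun _ => 1) i)

lemma mem_cyl {c : Fin 3 → ℝ} {t : ℝ} {x : Fin (3 + m) → ℝ} :
    x ∈ cyl m c t ↔ pr x ∈ box c t ∧ Tl x := by
  simp only [cyl, box, mem_pi, mem_univ, forall_true_left, Fin.forall_fin_add, Fin.append_left,
    Fin.append_right, mem_Ioc, pr, Tl]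

lemma isSMU_ext (θ : ∀ k, κ k → Bool) : IsSMU (smu ((GG θ).map (ext m))) := by
  refine ⟨_, Measure.isProbabilityMeasure_map measurable_ext.aemeasurable, ?_, rfl⟩
  rw [ae_map_iff measurable_ext.aemeasurable (by measurability)]
  refine (GG_ae θ).mono fun y hy => ?_
  simp only [Fin.forall_fin_add, ext, Fin.append_left, Fin.append_right]
  exact ⟨fun i => lt_of_lt_of_le (by norm_num) (hy i).1, fun _ => one_pos⟩

lemma ext_le (θ : ∀ k, κ k → Bool) (x : Fin (3 + m) → ℝ) : smu ((GG θ).map (ext m)) x ≤ 8 := by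
  rw [smu_ext]
  split_ifs
  · exact smu_GG_le θ _
  · norm_num

lemma ext_supp (θ : ∀ k, κ k → Bool) (x : Fin (3 + m) → ℝ) (hx : ∃ i, x i ∉ Icc (0 : ℝ) 2) :
    smu ((GG θ).map (ext m)) x = 0 := by
  rw [smu_ext]
  split_ifs with h
  · obtain ⟨i, hi⟩ := hx
    revert hi
    refine Fin.addCases (fun i hi => smu_GG_supp θ _ ⟨i, hi⟩) (fun i hi => ?_) i
    exact absurd ⟨(h i).1.le, (h i).2.trans one_le_two⟩ hi
  · rfl

theorem lower_ext {g : ∀ n, (Fin n → Fin (3 + m) → ℝ) → (Fin (3 + m) → ℝ) → ℝ}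
    (hg : ∀ n y, Integrable (g n y)) :
    ∃ θ, ∀ k, 1 / 16 ≤ sample (smu ((GG θ).map (ext m))) (256 * LL k ^ 54)
      {y | 1 / (256 * (LL k : ℝ) ^ 17) ≤ hellinger (g _ y) (smu ((GG θ).map (ext m)))} := by
  have hw : ∀ k, ww k * tt k ^ 3 = 1 / (512 * (LL k : ℝ) ^ 54) := fun k => by
    have := LL_big k
    unfold ww tt
    field_simp
    norm_num
  obtain ⟨θ, hθ⟩ := multi volume (κ := κ) (f := fun θ => smu ((GG θ).map (ext m)))
    (fun θ => measurable_smu _) (fun θ => smu_nonneg _)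
    (fun θ => by
      obtain ⟨G, _, h1, h2⟩ := isSMU_ext (m := m) θ
      rw [h2]
      exact lintegral_smu G h1)
    (B := fun k p b => cyl m (cc k p b) (tt k))
    (fun k p b => MeasurableSet.univ_pi fun i => measurableSet_Ioc)
    (fun k p q hpq => disjoint_left.2 fun x hx hx' => hpq (by
      simpa using sep (mem_cyl.1 hx).1 fun i => ((mem_cyl.1 hx').1 i (mem_univ i)).2))
    (w := ww) (τ := fun k => tt k ^ 3) (fun k => by unfold ww; positivity)
    (fun k => (pow_pos (tt_pos k) 3).le)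
    (fun k p b => by
      simp [cyl, Real.volume_pi_Ioc, Fin.prod_univ_add, ENNReal.ofReal_pow (tt_pos k).le])
    (fun θ k p b x hx => by
      rw [smu_ext, if_pos (mem_cyl.1 hx).2, smu_GG_box θ k p b _ (mem_cyl.1 hx).1])
    (fun θ θ' x h => by
      rw [smu_ext, smu_ext]
      split_ifs with hx
      · exact smu_GG_loc θ θ' _ fun k p hp b hb => h k p hp b (mem_cyl.2 ⟨hb, hx⟩)
      · rfl)
    (n := fun k => 256 * LL k ^ 54)
    (fun k => by
      have := LL_big k
      rw [hw]
      push_cast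
      field_simp
      norm_num)
    (fun k l hkl => by
      have h1 := LL_big k
      have h2 := LL_big l
      have h3 := LL_ge l
      have h4 : (LL k : ℝ) ^ 54 ≤ LL l ^ 27 := by
        rw [show 54 = 2 * 27 by norm_num, pow_mul]
        gcongr
        exact LL_sq hkl
      have h5 : (2 : ℝ) ^ (l + 5) ≤ LL l ^ 7 :=
        ((pow_le_pow_right₀ one_le_two (by omega)).trans h3).trans
          (le_self_pow₀ (by linarith) (by norm_num))
      rw [hw, one_div_pow]
      simp only [Fintype.card_prod, Fintype.card_fin]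
      push_cast
      field_simp
      nlinarith [mul_le_mul h4 h5 (by positivity) (by positivity),
        pow_pos (by linarith : (0 : ℝ) < LL l) 34])
    hg
  refine ⟨θ, fun k => (hθ k).trans (measure_mono fun y hy => ?_)⟩
  have h1 := LL_big k
  refine Real.le_sqrt_of_sq_le (le_trans ?_ (mul_le_mul_of_nonneg_left hy (by norm_num)))
  rw [hw]
  simp only [Fintype.card_prod, Fintype.card_fin]
  push_cast
  field_simp
  norm_num

end Pool.Agent.P.MP_faec4e_pr.PL
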