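import Pool.Agent.P.MP_faec4e_pr.PL.All
import Pool.Agent.P.MP_faec4e_pr.PL.Exist
import Pool.Agent.P.MP_faec4e_pr.PL.Lift

/-! The rate holds in the plane and fails in every dimension at least three. -/

set_option autoImplicit false

namespace Pool.Agent.P.MP_faec4e_pr.PL

open MeasureTheory Set Pool.Agent.P.MP_faec4e_pr

theorem q_NEG (m : ℕ) (g : ∀ n : ℕ, (Fin n → Fin (3 + m) → ℝ) → (Fin (3 + m) → ℝ) → ℝ)
    (hg : ∀ n X, IsSMU (g n X)) : ∃ e : (Fin (3 + m) → ℝ) → ℝ, IsSMU e ∧ (∀ x, e x ≤ 8) ∧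
    (∀ x, (∃ i, x i ∉ Icc (0 : ℝ) 2) → e x = 0) ∧ ∀ γ : ℝ,
      ¬ IsBigOp (sample e) (fun n X => hellinger (g n X) e)
        fun n => (n : ℝ) ^ (-(1 / 3) : ℝ) * Real.log n ^ γ := by
  obtain ⟨θ, hθ⟩ := lower_ext (g := g) fun n X => (hg n X).integrable
  refine ⟨_, isSMU_ext θ, ext_le θ, ext_supp θ, fun γ hO => ?_⟩
  obtain ⟨C, N, hC⟩ := hO (1 / 16) (by norm_num)
  obtain ⟨k, hk, hr⟩ := rate C γ N
  refine absurd (hC _ hk) (not_lt.2 (le_trans (le_of_eq ?_) ((hθ k).trans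
    (measure_mono fun X hX => hr.trans_le (le_trans hX (le_abs_self _))))))
  rw [ENNReal.ofReal_div_of_pos (by norm_num)]
  simp

theorem q_POS (g : ∀ n : ℕ, (Fin n → Fin 2 → ℝ) → (Fin 2 → ℝ) → ℝ) (hg : ∀ n X, IsMLE X (g n X))
    (e : (Fin 2 → ℝ) → ℝ) (he : IsSMU e) (hB : ∃ B : ℝ, ∀ x, e x ≤ B)
    (hM : ∃ M : ℝ, 0 < M ∧ ∀ x, (∃ i, x i ∉ Icc 0 M) → e x = 0) :
    IsBigOp (sample e) (fun n X => hellinger (g n X) e)
      fun n => (n : ℝ) ^ (-(1 / 3) : ℝ) * Real.log n ^ (4 : ℝ) := by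
  obtain ⟨B, hB⟩ := hB
  obtain ⟨M, hM, hs⟩ := hM
  intro ε hε
  obtain ⟨C, N, h⟩ := q_MAIN e B M he hB hM hs ε hε
  refine ⟨C, N, fun n hn => lt_of_le_of_lt (measure_mono fun X hX => ?_) (h n hn)⟩
  refine ⟨_, hg n X, ?_⟩
  have h0 : 0 ≤ hellinger (g n X) e := Real.sqrt_nonneg _
  simpa only [mem_ofPred_eq, abs_of_nonneg h0] using hX

end Pool.Agent.P.MP_faec4e_pr.PL
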