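import Pool.Agent.P.MP_faec4e_pr.Box
import Pool.Agent.P.MP_faec4e_pr.PL.Defs

/-! Definitions and statements of the steps in the plane. -/

set_option autoImplicit false

namespace Pool.Agent.P.MP_faec4e_pr.PL

open MeasureTheory Set Pool.Agent.P.MP_faec4e_pr
open scoped ENNReal

noncomputable section

/-- Points of the plane. -/
abbrev P2 : Type := Fin 2 → ℝ

/-- The half open rectangle. -/
def rect (u u' w w' : ℝ) : Set P2 := {z | u < z 0 ∧ z 0 ≤ u' ∧ w < z 1 ∧ z 1 ≤ w'}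

/-- The shape properties of a mixture of uniform densities. -/
structure Shape (f : P2 → ℝ) : Prop where
  meas : Measurable f
  nonneg : ∀ z, 0 ≤ f z
  anti : ∀ z z' : P2, 0 < z 0 → 0 < z 1 → z 0 ≤ z' 0 → z 1 ≤ z' 1 → f z' ≤ f z
  mix : ∀ x x' y y' : ℝ, 0 < x → x ≤ x' → 0 < y → y ≤ y' →
    f ![x', y] + f ![x, y'] ≤ f ![x, y] + f ![x', y']
  top : ∀ x y : ℝ, 0 < x → 0 < y → f ![x, y] * (x * y) ≤ 1
  neg : ∀ z : P2, z 0 ≤ 0 ∨ z 1 ≤ 0 → f z = 0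
  intg : Integrable f
  one : ∫ z, f z = 1

/-- The law with density `e`. -/
def law (e : P2 → ℝ) : Measure P2 := volume.withDensity fun x => ENNReal.ofReal (e x)

/-- The empirical measure. -/
def emp {n : ℕ} (X : Fin n → P2) : Measure P2 := (n : ℝ≥0∞)⁻¹ • ∑ i, Measure.dirac (X i)

/-- Relative deviation bound on all rectangles of the cube. -/
def Dev (μ ν : Measure P2) (M κ : ℝ) : Prop :=
  ∀ u u' w w' : ℝ, 0 ≤ u → u ≤ u' → u' ≤ M → 0 ≤ w → w ≤ w' → w' ≤ M →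
    |μ.real (rect u u' w w') - ν.real (rect u u' w w')| ≤ √(κ * ν.real (rect u u' w w')) + κ

/-- The test function. -/
def psi (f e : P2 → ℝ) (z : P2) : ℝ := (f z - e z) / (f z + e z)

/-- The density of the triangular discrimination. -/
def tau (f e : P2 → ℝ) (z : P2) : ℝ := (f z - e z) ^ 2 / (f z + e z)

/-- Smooth at scale `s`. -/
structure Gam (s : ℝ) (g : ℝ → ℝ) : Prop where
  meas : Measurable g
  bd : ∀ t, 0 ≤ t → |g t| ≤ 2 / s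
  lip : ∀ t t', |g t - g t'| ≤ 2 / s ^ 2 * |t - t'|
  sec : ∀ t u v, 0 ≤ u → 0 ≤ v → |g (t + u + v) - g (t + u) - g (t + v) + g t| ≤ 3 / s ^ 3 * (u * v)

def S_SHAPE : Prop := ∀ f : P2 → ℝ, IsSMU f → Shape f

def S_HS : Prop := ∃ h : ℝ → ℝ → ℝ, ∀ s : ℝ, 0 < s →
  Gam s (h s) ∧ Gam s (fun t => h s t - h (2 * s) t) ∧ ∀ t, s ≤ t → h s t = 1 / t

def S_BASIC : Prop := ∀ e : P2 → ℝ, IsSMU e →
  (∀ n : ℕ, ∀ᵐ X ∂sample e n, ∀ i, 0 < e (X i)) ∧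
    ∀ f : P2 → ℝ, IsSMU f → Integrable (tau f e) ∧ hellinger f e ^ 2 ≤ (∫ z, tau f e z) / 2 ∧
      ∫ z, psi f e z ∂law e = -((∫ z, tau f e z) / 2) ∧
        ∀ (n : ℕ) (X : Fin n → P2), (∀ i, 0 < e (X i)) → IsMLE X f → 0 ≤ ∫ z, psi f e z ∂emp X

def S_DEV : Prop := ∀ (e : P2 → ℝ) (B M : ℝ), Shape e → (∀ z, e z ≤ B) → 0 < M →
  (∀ z : P2, M < z 0 ∨ M < z 1 → e z = 0) → ∀ ε : ℝ, 0 < ε → ∃ (A : ℝ) (N : ℕ), 0 < A ∧
    ∀ n : ℕ, N ≤ n →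
      sample e n {X | ¬ Dev (emp X) (law e) M (A * Real.log n / n)} < ENNReal.ofReal ε

def S_DET : Prop := ∀ (f e : P2 → ℝ) (B M A : ℝ) (μ : Measure P2) (r : ℕ), Shape f → Shape e →
  (∀ z, e z ≤ B) → 0 < M → (∀ z : P2, M < z 0 ∨ M < z 1 → e z = 0) → IsFiniteMeasure μ →
    μ (rect 0 M 0 M)ᶜ = 0 → 1 + B * M ^ 2 ≤ A → 1 ≤ r → Dev μ (law e) M (A * r / 8 ^ r) →
      Integrable (tau f e) → |∫ z, psi f e z ∂μ - ∫ z, psi f e z ∂law e| ≤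
        (∫ z, tau f e z) / 4 + 2 * 10 ^ 8 * A * r ^ 8 / 4 ^ r

def S_MAIN : Prop := ∀ (e : P2 → ℝ) (B M : ℝ), IsSMU e → (∀ x, e x ≤ B) → 0 < M →
  (∀ x, (∃ i, x i ∉ Icc 0 M) → e x = 0) → ∀ ε : ℝ, 0 < ε → ∃ (C : ℝ) (N : ℕ), ∀ n : ℕ, N ≤ n →
    sample e n {X | ∃ f, IsMLE X f ∧
      C * ((n : ℝ) ^ (-(1 / 3) : ℝ) * Real.log n ^ (4 : ℝ)) < hellinger f e} < ENNReal.ofReal ε

end

end Pool.Agent.P.MP_faec4e_pr.PL
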