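import Mathlib

/-! Binary decomposition along a monotone staircase. -/

set_option autoImplicit false

namespace Pool.Agent.P.MP_faec4e_pr.PL

lemma stair_pts (Λ : ℕ) (U : ℕ → ℕ → Prop) (hedge : ∀ X Y, Λ ≤ X ∨ Λ ≤ Y → U X Y) :
    ∃ px py : ℕ → ℕ, ∀ D, (D ≤ 2 * Λ → px D ≤ Λ ∧ py D ≤ Λ) ∧ U (px D) (py D) ∧
      (px D = 0 ∨ py D = 0 ∨ ¬ U (px D - 1) (py D - 1)) ∧ px D + Λ = py D + D := by
  classical
  have ex : ∀ D, ∃ t, U (t + (D - Λ)) (t + (Λ - D)) := fun D => ⟨Λ, hedge _ _ (by omega)⟩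
  refine ⟨fun D => Nat.find (ex D) + (D - Λ), fun D => Nat.find (ex D) + (Λ - D), fun D =>
    ⟨fun hD => ?_, Nat.find_spec (ex D), ?_, by simp only; omega⟩⟩
  · have : Nat.find (ex D) ≤ Λ - (D - Λ) - (Λ - D) := Nat.find_min' _ (hedge _ _ (by omega))
    simp only
    omega
  · simp only
    rcases Nat.eq_zero_or_pos (Nat.find (ex D)) with h | h
    · omega
    · have := Nat.find_min (ex D) (m := Nat.find (ex D) - 1) (by omega)
      right; right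
      rwa [show Nat.find (ex D) + (D - Λ) - 1 = Nat.find (ex D) - 1 + (D - Λ) by omega,
        show Nat.find (ex D) + (Λ - D) - 1 = Nat.find (ex D) - 1 + (Λ - D) by omega]

theorem stair (Λ g r : ℕ) (hg : 2 ^ r * g = 2 * Λ) (N T : ℕ → ℕ → ℕ → ℕ → ℝ) (U : ℕ → ℕ → Prop)
    (A B : ℕ → ℝ) (c : ℝ) (hA : Antitone A) (hB : Antitone B)
    (hNx : ∀ a b c p q, a ≤ b → b ≤ c → N a c p q = N a b p q + N b c p q)
    (hNy : ∀ p q a b c, a ≤ b → b ≤ c → N p q a c = N p q a b + N p q b c)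
    (hTx : ∀ a b c p q, a ≤ b → b ≤ c → T a c p q = T a b p q + T b c p q)
    (hTy : ∀ p q a b c, a ≤ b → b ≤ c → T p q a c = T p q a b + T p q b c)
    (hT : ∀ a b p q, 0 ≤ T a b p q)
    (hup : ∀ X Y X' Y', U X Y → X ≤ X' → Y ≤ Y' → U X' Y')
    (hedge : ∀ X Y, Λ ≤ X ∨ Λ ≤ Y → U X Y)
    (good : ∀ X X' Y Y', X ≤ X' → X' ≤ Λ → Y ≤ Y' → Y' ≤ Λ → U X Y →
      |N X X' Y Y'| ≤ T X X' Y Y' + (A X - A X' + (B Y - B Y')) + c)
    (low : ∀ X X' Y Y', X ≤ X' → X' ≤ Λ → Y ≤ Y' → Y' ≤ Λ →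
      X' = 0 ∨ Y' = 0 ∨ ¬ U (X' - 1) (Y' - 1) → |N X X' Y Y'| ≤ c)
    (leaf : ∀ X X' Y Y', X ≤ X' → X' ≤ Λ → Y ≤ Y' → Y' ≤ Λ → X' ≤ X + g → Y' ≤ Y + g →
      |N X X' Y Y'| ≤ T X X' Y Y' + (A X - A X' + (B Y - B Y')) + c) :
    |N 0 Λ 0 Λ| ≤ T 0 Λ 0 Λ + (r + 1) * (A 0 - A Λ + (B 0 - B Λ)) + (3 * 2 ^ r - 2) * c := by
  obtain ⟨px, py, hp⟩ := stair_pts Λ U hedge
  have mono : ∀ D D', D ≤ D' → px D ≤ px D' ∧ py D' ≤ py D := by
    intro D D' h
    obtain ⟨-, u1, n1, e1⟩ := hp D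
    obtain ⟨-, u2, n2, e2⟩ := hp D'
    constructor
    · by_contra hc
      rcases n1 with n1 | n1 | n1
      · omega
      · omega
      · exact n1 (hup _ _ _ _ u2 (by omega) (by omega))
    · by_contra hc
      rcases n2 with n2 | n2 | n2
      · omega
      · omega
      · exact n2 (hup _ _ _ _ u1 (by omega) (by omega))
  have key : ∀ k lo hi : ℕ, hi = lo + 2 ^ k * g → hi ≤ 2 * Λ →
      |N (px lo) (px hi) (py hi) (py lo)| ≤ T (px lo) (px hi) (py hi) (py lo) +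
        (k + 1) * (A (px lo) - A (px hi) + (B (py hi) - B (py lo))) + (3 * 2 ^ k - 2) * c := by
    intro k
    induction k with
    | zero =>
      intro lo hi e h
      obtain ⟨m1, m2⟩ := mono lo hi (by omega)
      obtain ⟨b1, -, -, e1⟩ := hp lo
      obtain ⟨b2, -, -, e2⟩ := hp hi
      have := leaf _ _ _ _ m1 (b2 h).1 m2 (b1 (by omega)).2 (by omega) (by omega)
      norm_num
      linarith
    | succ k ih =>
      intro lo hi e h
      rw [pow_succ] at e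
      have e' : hi = lo + 2 ^ k * g + 2 ^ k * g := by rw [e]; ring
      set mid := lo + 2 ^ k * g with hmid
      have i1 := ih lo mid rfl (by omega)
      have i2 := ih mid hi e' h
      obtain ⟨m1, m2⟩ := mono lo mid (by omega)
      obtain ⟨m3, m4⟩ := mono mid hi (by omega)
      obtain ⟨b1, -, -, -⟩ := hp lo
      obtain ⟨b2, u2, n2, -⟩ := hp mid
      obtain ⟨b3, -, -, -⟩ := hp hi
      have g1 := good _ _ _ _ m3 (b3 h).1 m2 (b1 (by omega)).2 u2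
      have l1 := low _ _ _ _ m1 (b2 (by omega)).1 m4 (b2 (by omega)).2 n2
      rw [hNx _ (px mid) _ _ _ m1 m3, hNy _ _ _ (py mid) _ m4 m2, hNy (px mid) _ _ (py mid) _ m4 m2,
        hTx _ (px mid) _ _ _ m1 m3, hTy _ _ _ (py mid) _ m4 m2, hTy (px mid) _ _ (py mid) _ m4 m2]
      have t1 := hT (px lo) (px mid) (py hi) (py mid)
      have a1 := hA m1
      have a2 := hB m4
      rw [abs_le] at *
      push_cast
      rw [pow_succ]
      constructor <;> nlinarith [i1.1, i1.2, i2.1, i2.2, g1.1, g1.2, l1.1, l1.2]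
  have := key r 0 (2 * Λ) (by omega) le_rfl
  obtain ⟨b1, -, -, e1⟩ := hp 0
  obtain ⟨b2, -, -, e2⟩ := hp (2 * Λ)
  have h1 := b1 (by omega)
  have h2 := b2 le_rfl
  rwa [show px 0 = 0 by omega, show py 0 = Λ by omega, show px (2 * Λ) = Λ by omega,
    show py (2 * Λ) = 0 by omega] at this

end Pool.Agent.P.MP_faec4e_pr.PL
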