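import Pool.Agent.P.MP_faec4e_pr.PL.Rect
import Pool.Agent.P.MP_faec4e_pr.PL.Stair

/-! One level on one dyadic box. -/

set_option autoImplicit false

namespace Pool.Agent.P.MP_faec4e_pr.PL

open MeasureTheory Finset Pool.Agent.P.MP_faec4e_pr

variable {f e : P2 → ℝ} {μ : Measure P2} {M κ s : ℝ}

theorem Ctx.level (C : Ctx f e μ M κ) {Φ : P2 → ℝ} (hm : Measurable Φ) (hb : ∀ z, |Φ z| ≤ 4)
    (hz : ∀ z, 2 * s ≤ f z + e z → Φ z = 0) {a c m θ p1 p2 p3 c0 : ℝ} {r L : ℕ} (hs : 0 < s)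
    (ha : 0 < a) (hc : 0 < c) (aM : 2 * a ≤ M) (cM : 2 * c ≤ M) (hF : FF f e a c ≤ m)
    (hL : m * (a * c) ≤ 2 ^ L * κ) (θ0 : 0 ≤ θ) (h2 : 0 ≤ p2) (h3 : 0 ≤ p3) (hc0 : 32 * κ ≤ c0)
    (h1 : 120 * (a * c) / 4 ^ r ≤ p1)
    (hg : ∀ u α w β, a ≤ u → 0 ≤ α → u + α ≤ 2 * a → c ≤ w → 0 ≤ β → w + β ≤ 2 * c →
      FF f e u w ≤ 3 * s → |NN μ e Φ u (u + α) w (w + β)| ≤
        θ * RI volume (tau f e) u (u + α) w (w + β) +
          (p1 * (FF f e u w - FF f e (u + α) w + (FF f e u w - FF f e u (w + β))) + p2 * α +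
            p3 * β) + c0) :
    |NN μ e Φ a (2 * a) c (2 * c)| ≤ θ * RI volume (tau f e) a (2 * a) c (2 * c) +
      (r + 1) * (2 * p1 * m + p2 * a + p3 * c) + 3 * 2 ^ r * c0 := by
  have κ0 := C.pos
  have p0 : 0 ≤ p1 := le_trans (by positivity) h1
  have c00 : 0 ≤ c0 := by linarith
  obtain ⟨x, hx⟩ : ∃ x : ℕ → ℝ, x = fun i => a + a * nd (r + L) i := ⟨_, rfl⟩
  obtain ⟨y, hy⟩ : ∃ y : ℕ → ℝ, y = fun i => c + c * nd (r + L) i := ⟨_, rfl⟩
  have mx : Monotone x := fun i j h => by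
    simp only [hx]
    have := nd_mono (r + L) h
    gcongr
  have my : Monotone y := fun i j h => by
    simp only [hy]
    have := nd_mono (r + L) h
    gcongr
  have x0 : x 0 = a := by simp [hx, nd_zero]
  have y0 : y 0 = c := by simp [hy, nd_zero]
  have x1 : x (2 ^ (r + L)) = 2 * a := by simp only [hx, nd_top]; ring
  have y1 : y (2 ^ (r + L)) = 2 * c := by simp only [hy, nd_top]; ring
  have dx : ∀ i k, x (i + k) - x i = a * k / 2 ^ (r + L) := fun i k => by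
    simp only [hx, nd]
    push_cast
    ring
  have dy : ∀ i k, y (i + k) - y i = c * k / 2 ^ (r + L) := fun i k => by
    simp only [hy, nd]
    push_cast
    ring
  have ux : ∀ i, a ≤ x i := fun i => x0 ▸ mx i.zero_le
  have wy : ∀ i, c ≤ y i := fun i => y0 ▸ my i.zero_le
  have xM : ∀ i ≤ 2 ^ (r + L), x i ≤ 2 * a := fun i hi => x1 ▸ mx hi
  have yM : ∀ i ≤ 2 ^ (r + L), y i ≤ 2 * c := fun i hi => y1 ▸ my hi
  obtain ⟨G, hG⟩ : ∃ G : ℕ → ℕ → ℝ, G = fun i j => FF f e (x i) (y j) := ⟨_, rfl⟩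
  have mG : Mon G :=
    hG ▸ (C.hf.mon mx my (x0 ▸ ha) (y0 ▸ hc)).add (C.he.mon mx my (x0 ▸ ha) (y0 ▸ hc))
  have G0 : G 0 0 ≤ m := by simp only [hG, x0, y0]; exact hF
  have m0 : 0 ≤ m := (mG.nn 0 0).trans G0
  have AΦ := C.NN_add hm hb
  have AT := RI_add C.tint
  obtain ⟨A, hA⟩ : ∃ A : ℕ → ℝ, A = fun i => p1 * G i 0 - p2 * x i := ⟨_, rfl⟩
  obtain ⟨B, hB⟩ : ∃ B : ℕ → ℝ, B = fun i => p1 * G 0 i - p3 * y i := ⟨_, rfl⟩
  have aA : Antitone A := fun i j h => by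
    simp only [hA]
    have := mG.anti i 0 j 0 h le_rfl
    have := mx h
    gcongr
  have aB : Antitone B := fun i j h => by
    simp only [hB]
    have := mG.anti 0 i 0 j le_rfl h
    have := my h
    gcongr
  have T0 : ∀ X X' Y Y', 0 ≤ θ * RI volume (tau f e) (x X) (x X') (y Y) (y Y') :=
    fun _ _ _ _ => mul_nonneg θ0 (C.T_nonneg _ _ _ _)
  have zero : ∀ X X' Y Y', 2 * s ≤ G X' Y' → NN μ e Φ (x X) (x X') (y Y) (y Y') = 0 := by
    intro X X' Y Y' h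
    refine NN_zero fun z hz' => hz z ?_
    have c1 := (C.hf.le_corner (ha.trans_le (ux X)) (hc.trans_le (wy Y)) hz').2
    have c2 := (C.he.le_corner (ha.trans_le (ux X)) (hc.trans_le (wy Y)) hz').2
    simp only [hG, FF] at h
    linarith
  have triv : ∀ X X' Y Y' σ, X ≤ X' → X' ≤ 2 ^ (r + L) → Y ≤ Y' → Y' ≤ 2 ^ (r + L) → G X Y ≤ σ →
      |NN μ e Φ (x X) (x X') (y Y) (y Y')| ≤
        10 * (σ * ((x X' - x X) * (y Y' - y Y))) + 6 * κ := by
    intro X X' Y Y' σ a1 a2 a3 a4 a5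
    have := C.NN_triv hm hb (ha.le.trans (ux X)) (mx a1) ((xM _ a2).trans aM) (hc.le.trans (wy Y))
      (my a3) ((yM _ a4).trans cM) ((mG.nn X Y).trans a5)
      (C.e_le (ha.trans_le (ux X)) (hc.trans_le (wy Y)) (by simpa only [hG] using a5) le_rfl le_rfl)
    linarith
  have gd : ∀ X X' Y Y', X ≤ X' → X' ≤ 2 ^ (r + L) → Y ≤ Y' → Y' ≤ 2 ^ (r + L) → G X Y ≤ 3 * s →
      |NN μ e Φ (x X) (x X') (y Y) (y Y')| ≤ θ * RI volume (tau f e) (x X) (x X') (y Y) (y Y') +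
        (A X - A X' + (B Y - B Y')) + c0 := by
    intro X X' Y Y' a1 a2 a3 a4 a5
    have := hg (x X) (x X' - x X) (y Y) (y Y' - y Y) (ux X) (sub_nonneg.2 (mx a1))
      (by linarith [xM _ a2]) (wy Y) (sub_nonneg.2 (my a3)) (by linarith [yM _ a4])
      (by simpa only [hG] using a5)
    rw [add_sub_cancel, add_sub_cancel] at this
    have b1 := mG.mix X 0 X' Y a1 Y.zero_le
    have b2 := mG.mix 0 Y X Y' X.zero_le a3
    have b3 : p1 * (G X Y - G X' Y + (G X Y - G X Y')) ≤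
        p1 * (G X 0 - G X' 0 + (G 0 Y - G 0 Y')) := mul_le_mul_of_nonneg_left (by linarith) p0
    simp only [hA, hB]
    simp only [hG] at b3 ⊢
    linarith
  have nul : ∀ X X' Y Y', X ≤ X' → Y ≤ Y' → NN μ e Φ (x X) (x X') (y Y) (y Y') = 0 →
      |NN μ e Φ (x X) (x X') (y Y) (y Y')| ≤ θ * RI volume (tau f e) (x X) (x X') (y Y) (y Y') +
        (A X - A X' + (B Y - B Y')) + c0 := by
    intro X X' Y Y' a1 a3 h
    rw [h, abs_zero]
    linarith [T0 X X' Y Y', aA a1, aB a3]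
  have P0 : (0 : ℝ) < 2 ^ (r + L) := by positivity
  have thin : m * (a * c / 2 ^ (r + L)) ≤ κ := by
    rw [← mul_div_assoc, div_le_iff₀ P0, pow_add]
    have : (1 : ℝ) ≤ 2 ^ r := one_le_pow₀ (by norm_num)
    have : 0 < 2 ^ L * κ := by positivity
    nlinarith
  have top : ∀ i j, G i j ≤ m := fun i j => (mG.anti 0 0 i j i.zero_le j.zero_le).trans G0
  have key := stair (2 ^ (r + L)) (2 * 2 ^ L) r (by rw [pow_add]; ring)
    (fun X X' Y Y' => NN μ e Φ (x X) (x X') (y Y) (y Y'))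
    (fun X X' Y Y' => θ * RI volume (tau f e) (x X) (x X') (y Y) (y Y'))
    (fun X Y => 2 ^ (r + L) ≤ X ∨ 2 ^ (r + L) ≤ Y ∨ G X Y ≤ 2 * s) A B c0 aA aB
    (fun _ _ _ _ _ h1 h2 => AΦ.x _ _ _ _ _ (mx h1) (mx h2))
    (fun _ _ _ _ _ h1 h2 => AΦ.y _ _ _ _ _ (my h1) (my h2))
    (fun _ _ _ _ _ h1 h2 => by rw [AT.x _ _ _ _ _ (mx h1) (mx h2), mul_add])
    (fun _ _ _ _ _ h1 h2 => by rw [AT.y _ _ _ _ _ (my h1) (my h2), mul_add]) T0 ?_
    (fun X Y h => h.imp_right Or.inl) ?_ ?_ ?_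
  · rw [x0, x1, y0, y1] at key
    have e1 : A 0 - A (2 ^ (r + L)) + (B 0 - B (2 ^ (r + L))) ≤ 2 * p1 * m + p2 * a + p3 * c := by
      simp only [hA, hB, x0, x1, y0, y1]
      have b1 := mul_le_mul_of_nonneg_left G0 p0
      have b2 := mul_nonneg p0 (mG.nn (2 ^ (r + L)) 0)
      have b3 := mul_nonneg p0 (mG.nn 0 (2 ^ (r + L)))
      linarith
    have e2 := mul_le_mul_of_nonneg_left e1 (show (0 : ℝ) ≤ r + 1 by positivity)
    linarith
  · rintro X Y X' Y' (h | h | h) a1 a2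
    · exact Or.inl (h.trans a1)
    · exact Or.inr (Or.inl (h.trans a2))
    · exact Or.inr (Or.inr ((mG.anti _ _ _ _ a1 a2).trans h))
  · rintro X X' Y Y' a1 a2 a3 a4 (h | h | h)
    · obtain rfl : X = X' := by omega
      exact nul _ _ _ _ a1 a3 (AΦ.zero_x _ _ _)
    · obtain rfl : Y = Y' := by omega
      exact nul _ _ _ _ a1 a3 (AΦ.zero_y _ _ _)
    · exact gd _ _ _ _ a1 a2 a3 a4 (by linarith)
  · intro X X' Y Y' a1 a2 a3 a4 h
    rcases a1.eq_or_lt with rfl | a1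
    · simpa [AΦ.zero_x] using c00
    rcases a3.eq_or_lt with rfl | a3
    · simpa [AΦ.zero_y] using c00
    obtain ⟨X', rfl⟩ : ∃ k, X' = k + 1 := ⟨X' - 1, by omega⟩
    obtain ⟨Y', rfl⟩ : ∃ k, Y' = k + 1 := ⟨Y' - 1, by omega⟩
    have h' : 2 * s ≤ G X' Y' := by
      rcases h with h | h | h
      · omega
      · omega
      · simp only [Nat.add_sub_cancel, not_or, not_le] at h
        exact h.2.2.le
    have b1 : X ≤ X' := by omega
    have b2 : Y ≤ Y' := by omega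
    have t1 := triv X' (X' + 1) Y (Y' + 1) m X'.le_succ a2 a3.le a4 (top _ _)
    have t2 := triv X X' Y' (Y' + 1) m b1 (by omega) Y'.le_succ a4 (top _ _)
    rw [dx] at t1
    rw [dy] at t2
    have u1 : m * (a * (1 : ℕ) / 2 ^ (r + L) * (y (Y' + 1) - y Y)) ≤ κ := by
      refine le_trans ?_ thin
      rw [show a * c / 2 ^ (r + L) = a * (1 : ℕ) / 2 ^ (r + L) * c by push_cast; ring]
      gcongr
      linarith [yM _ a4, wy Y]
    have u2 : m * ((x X' - x X) * (c * (1 : ℕ) / 2 ^ (r + L))) ≤ κ := by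
      refine le_trans ?_ thin
      rw [show a * c / 2 ^ (r + L) = a * (c * (1 : ℕ) / 2 ^ (r + L)) by push_cast; ring]
      gcongr
      linarith [xM X' (by omega), ux X]
    rw [AΦ.x _ (x X') _ _ _ (mx b1) (mx X'.le_succ), AΦ.y _ _ _ (y Y') _ (my b2) (my Y'.le_succ),
      zero X X' Y Y' h', zero_add]
    refine (abs_add_le _ _).trans ?_
    linarith
  · intro X X' Y Y' a1 a2 a3 a4 a5 a6
    rcases le_or_gt (2 * s) (G X' Y') with h | h
    · exact nul _ _ _ _ a1 a3 (zero _ _ _ _ h)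
    have b1 := mG.mix X 0 X' Y a1 Y.zero_le
    have b2 := mG.mix 0 Y X' Y' X'.zero_le a3
    obtain ⟨d, hd⟩ : ∃ d, d = G X 0 - G X' 0 + (G 0 Y - G 0 Y') := ⟨_, rfl⟩
    rcases le_or_gt d s with h' | h'
    · exact gd _ _ _ _ a1 a2 a3 a4 (by linarith)
    have t1 := triv X X' Y Y' (3 * d) a1 a2 a3 a4 (by linarith)
    have w1 : x X' - x X ≤ a * 2 / 2 ^ r := by
      have := mx a5
      have e1 := dx X (2 * 2 ^ L)
      have e2 : a * ((2 * 2 ^ L : ℕ) : ℝ) / 2 ^ (r + L) = a * 2 / 2 ^ r := by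
        push_cast; rw [pow_add]; field_simp
      linarith
    have w2 : y Y' - y Y ≤ c * 2 / 2 ^ r := by
      have := my a6
      have e1 := dy Y (2 * 2 ^ L)
      have e2 : c * ((2 * 2 ^ L : ℕ) : ℝ) / 2 ^ (r + L) = c * 2 / 2 ^ r := by
        push_cast; rw [pow_add]; field_simp
      linarith
    have d0 : 0 ≤ d := by linarith
    have w3 := sub_nonneg.2 (mx a1)
    have w4 := sub_nonneg.2 (my a3)
    have w5 : 10 * (3 * d * ((x X' - x X) * (y Y' - y Y))) ≤ p1 * d := by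
      calc _ ≤ 10 * (3 * d * (a * 2 / 2 ^ r * (c * 2 / 2 ^ r))) := by gcongr
        _ = 120 * (a * c) / 4 ^ r * d := by
          rw [show (4 : ℝ) = 2 * 2 by norm_num, mul_pow]; field_simp; ring
        _ ≤ _ := by gcongr
    have w6 := mul_nonneg h2 w3
    have w7 := mul_nonneg h3 w4
    have w8 := T0 X X' Y Y'
    simp only [hA, hB]
    have w9 : p1 * d = p1 * (G X 0 - G X' 0 + (G 0 Y - G 0 Y')) := by rw [hd]
    linarith

end Pool.Agent.P.MP_faec4e_pr.PL
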