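import Pool.Agent.P.MP_faec4e_pr.PL.All

/-! The Hellinger rate of the maximum likelihood estimator in the plane. -/

set_option autoImplicit false

namespace Pool.Agent.P.MP_faec4e_pr.PL.Plane

open Pool.Agent.P.MP_faec4e_pr MeasureTheory

theorem plane_rate (f₀ : (Fin 2 → ℝ) → ℝ) (h₀ : IsSMU f₀) (B : ℝ) (hB : ∀ x, f₀ x ≤ B) (M : ℝ)
    (hM : 0 < M) (hs : ∀ x, (∃ i, x i ∉ Set.Icc 0 M) → f₀ x = 0) (ε : ℝ) (hε : 0 < ε) :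
    ∃ (C : ℝ) (N : ℕ), ∀ n : ℕ, N ≤ n →
      sample f₀ n {X | ∃ f, IsMLE X f ∧
        C * ((n : ℝ) ^ (-(1 / 3) : ℝ) * Real.log n ^ (4 : ℝ)) < hellinger f f₀} <
        ENNReal.ofReal ε :=
  PL.q_MAIN f₀ B M h₀ hB hM hs ε hε

end Pool.Agent.P.MP_faec4e_pr.PL.Plane
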