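import Pool.Agent.P.MP_faec4e_pr.PL.Iface
import Pool.Agent.P.MP_faec4e_pr.PL.Arr

/-! Pointwise inequalities and variation of arrays. -/

set_option autoImplicit false

namespace Pool.Agent.P.MP_faec4e_pr.PL

open Finset

variable {s : ℝ} {g : ℝ → ℝ}

lemma one_pt (hs : 0 < s) (hg : Gam s g) {f e : ℝ} (hf : 0 ≤ f) (he : 0 ≤ e) (h : f + e ≤ 3 * s) :
    |(f - e) * g (f + e)| ≤ 6 ∧ ((f - e) * g (f + e)) ^ 2 ≤ 12 / s * ((f - e) ^ 2 / (f + e)) := by
  have h1 := hg.bd (f + e) (by linarith)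
  have h2 : |f - e| ≤ 3 * s := by rw [abs_le]; constructor <;> linarith
  constructor
  · rw [abs_mul]
    calc _ ≤ 3 * s * (2 / s) := by gcongr
      _ = 6 := by field_simp; norm_num
  · rcases eq_or_lt_of_le (add_nonneg hf he) with h0 | h0
    · have : f - e = 0 := by linarith
      simp [this]
    · have h3 : g (f + e) ^ 2 ≤ (2 / s) ^ 2 := by
        rw [← sq_abs]
        gcongr
      have h4 : (2 / s) ^ 2 ≤ 12 / s * (1 / (f + e)) := by
        rw [div_pow, div_mul_div_comm, div_le_div_iff₀ (by positivity) (by positivity)]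
        nlinarith [mul_le_mul_of_nonneg_left h hs.le]
      calc _ = (f - e) ^ 2 * g (f + e) ^ 2 := by ring
        _ ≤ (f - e) ^ 2 * (12 / s * (1 / (f + e))) := by gcongr; exact h3.trans h4
        _ = _ := by ring

lemma lip' (hg : Gam s g) {a b p : ℝ} (h0 : b ≤ a) (h : a - b ≤ p) :
    |g a - g b| ≤ 2 / s ^ 2 * p := by
  refine (hg.lip a b).trans ?_
  rw [abs_of_nonneg (sub_nonneg.2 h0)]
  gcongr

lemma two_pt (hs : 0 < s) (hg : Gam s g) {f0 f1 e0 e1 : ℝ} (hf : 0 ≤ f1) (he : 0 ≤ e1)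
    (h1 : f1 ≤ f0) (h2 : e1 ≤ e0) (h : f0 + e0 ≤ 3 * s) :
    |(f0 - e0) * g (f0 + e0) - (f1 - e1) * g (f1 + e1)| ≤ 8 / s * (f0 + e0 - (f1 + e1)) := by
  have a1 := hg.bd (f0 + e0) (by linarith)
  have a2 := lip' hg (a := f0 + e0) (b := f1 + e1) (by linarith) le_rfl
  have a3 : |f1 - e1| ≤ 3 * s := by rw [abs_le]; constructor <;> linarith
  have a4 : |f0 - e0 - (f1 - e1)| ≤ f0 + e0 - (f1 + e1) := by rw [abs_le]; constructor <;> linarith
  have a5 : 0 ≤ f0 + e0 - (f1 + e1) := by linarith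
  calc _ = |(f0 - e0 - (f1 - e1)) * g (f0 + e0) + (f1 - e1) * (g (f0 + e0) - g (f1 + e1))| := by
        congr 1; ring
    _ ≤ _ := abs_add_le _ _
    _ ≤ (f0 + e0 - (f1 + e1)) * (2 / s) + 3 * s * (2 / s ^ 2 * (f0 + e0 - (f1 + e1))) := by
        rw [abs_mul, abs_mul]
        gcongr
    _ = _ := by field_simp; ring

lemma four_pt (hs : 0 < s) (hg : Gam s g) {f00 f10 f01 f11 e00 e10 e01 e11 p q : ℝ}
    (hf : 0 ≤ f11) (he : 0 ≤ e11) (f1 : f11 ≤ f10) (f2 : f11 ≤ f01) (f3 : f10 + f01 ≤ f00 + f11)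
    (e1 : e11 ≤ e10) (e2 : e11 ≤ e01) (e3 : e10 + e01 ≤ e00 + e11) (h : f00 + e00 ≤ 3 * s)
    (hp : f00 + e00 - (f10 + e10) ≤ p) (hq : f00 + e00 - (f01 + e01) ≤ q) :
    |(f00 - e00) * g (f00 + e00) - (f10 - e10) * g (f10 + e10) - (f01 - e01) * g (f01 + e01) +
      (f11 - e11) * g (f11 + e11)| ≤
      8 / s * (f00 + e00 - (f10 + e10) - (f01 + e01) + (f11 + e11)) + 13 / s ^ 2 * (p * q) := by
  set F00 := f00 + e00 with d0
  set F10 := f10 + e10 with d1
  set F01 := f01 + e01 with d2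
  set F11 := f11 + e11 with d3
  have p0 : 0 ≤ F00 - F10 := by linarith
  have q0 : 0 ≤ F00 - F01 := by linarith
  have w0 : 0 ≤ F00 - F10 - F01 + F11 := by linarith
  have a1 := hg.bd F00 (by linarith)
  have a2 := lip' hg (a := F00) (b := F01) (by linarith) hq
  have a3 := lip' hg (a := F00) (b := F10) (by linarith) hp
  have a4 := lip' hg (a := F11) (b := F10 + F01 - F00) (p := F00 - F10 - F01 + F11) (by linarith)
    (by linarith)
  have a5 := hg.sec (F10 + F01 - F00) (F00 - F10) (F00 - F01) p0 q0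
  rw [show F10 + F01 - F00 + (F00 - F10) + (F00 - F01) = F00 by ring,
    show F10 + F01 - F00 + (F00 - F10) = F01 by ring,
    show F10 + F01 - F00 + (F00 - F01) = F10 by ring] at a5
  have p1 : 0 ≤ p := p0.trans hp
  have q1 : 0 ≤ q := q0.trans hq
  have a6 : |g F00 - g F10 - g F01 + g F11| ≤
      3 / s ^ 3 * (p * q) + 2 / s ^ 2 * (F00 - F10 - F01 + F11) := by
    have : 3 / s ^ 3 * ((F00 - F10) * (F00 - F01)) ≤ 3 / s ^ 3 * (p * q) := by gcongr
    rw [abs_le] at *
    constructor <;> linarith [a4.1, a4.2, a5.1, a5.2]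
  have b1 : |f11 - e11| ≤ 3 * s := by rw [abs_le]; constructor <;> linarith
  have b2 : |f01 - e01 - (f11 - e11)| ≤ p := by rw [abs_le]; constructor <;> linarith
  have b3 : |f10 - e10 - (f11 - e11)| ≤ q := by rw [abs_le]; constructor <;> linarith
  have b4 : |f00 - e00 - (f10 - e10) - (f01 - e01) + (f11 - e11)| ≤ F00 - F10 - F01 + F11 := by
    rw [abs_le]; constructor <;> linarith
  calc _ = |(f11 - e11) * (g F00 - g F10 - g F01 + g F11) +
          (f01 - e01 - (f11 - e11)) * (g F00 - g F01) + (f10 - e10 - (f11 - e11)) * (g F00 - g F10) +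
          (f00 - e00 - (f10 - e10) - (f01 - e01) + (f11 - e11)) * g F00| := by
        congr 1; ring
    _ ≤ |(f11 - e11) * (g F00 - g F10 - g F01 + g F11)| +
          |(f01 - e01 - (f11 - e11)) * (g F00 - g F01)| +
          |(f10 - e10 - (f11 - e11)) * (g F00 - g F10)| +
          |(f00 - e00 - (f10 - e10) - (f01 - e01) + (f11 - e11)) * g F00| := by
        refine (abs_add_le _ _).trans ?_
        gcongr
        exact abs_add_three _ _ _
    _ ≤ 3 * s * (3 / s ^ 3 * (p * q) + 2 / s ^ 2 * (F00 - F10 - F01 + F11)) +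
          p * (2 / s ^ 2 * q) + q * (2 / s ^ 2 * p) + (F00 - F10 - F01 + F11) * (2 / s) := by
        simp only [abs_mul]
        gcongr
    _ = _ := by field_simp; ring

/-- Arrays that are nonnegative, decreasing, with nonnegative mixed differences. -/
structure Mon (f : ℕ → ℕ → ℝ) : Prop where
  nn : ∀ i j, 0 ≤ f i j
  anti : ∀ i j i' j', i ≤ i' → j ≤ j' → f i' j' ≤ f i j
  mix : ∀ i j i' j', i ≤ i' → j ≤ j' → f i' j + f i j' ≤ f i j + f i' j'

lemma Mon.add {f e : ℕ → ℕ → ℝ} (hf : Mon f) (he : Mon e) : Mon fun i j => f i j + e i j :=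
  ⟨fun i j => add_nonneg (hf.nn i j) (he.nn i j),
    fun i j i' j' h1 h2 => add_le_add (hf.anti i j i' j' h1 h2) (he.anti i j i' j' h1 h2),
    fun i j i' j' h1 h2 => by linarith [hf.mix i j i' j' h1 h2, he.mix i j i' j' h1 h2]⟩

lemma Mon.dx {G : ℕ → ℕ → ℝ} (h : Mon G) (i j : ℕ) : G i j - G (i + 1) j ≤ G i 0 - G (i + 1) 0 := by
  linarith [h.mix i 0 (i + 1) j i.le_succ j.zero_le]

lemma Mon.dy {G : ℕ → ℕ → ℝ} (h : Mon G) (i j : ℕ) : G i j - G i (j + 1) ≤ G 0 j - G 0 (j + 1) := by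
  linarith [h.mix 0 j i (j + 1) i.zero_le j.le_succ]

lemma Mon.sx {G : ℕ → ℕ → ℝ} (h : Mon G) {n N : ℕ} (hn : n ≤ N) :
    ∑ i ∈ range n, (G i 0 - G (i + 1) 0) ≤ G 0 0 - G N 0 := by
  rw [sum_range_sub' (fun i => G i 0)]
  linarith [h.anti n 0 N 0 hn le_rfl]

lemma Mon.sy {G : ℕ → ℕ → ℝ} (h : Mon G) {n N : ℕ} (hn : n ≤ N) :
    ∑ i ∈ range n, (G 0 i - G 0 (i + 1)) ≤ G 0 0 - G 0 N := by
  rw [sum_range_sub' (fun i => G 0 i)]
  linarith [h.anti 0 n 0 N le_rfl hn]

lemma arr_var (hs : 0 < s) (hg : Gam s g) {f e G φ : ℕ → ℕ → ℝ} (hf : Mon f) (he : Mon e)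
    (hG : G = fun i j => f i j + e i j) (hφ : φ = fun i j => (f i j - e i j) * g (G i j))
    (h : G 0 0 ≤ 3 * s) (N : ℕ) {V : ℝ} (hV : V = 47 / s * (G 0 0 - G N 0 + (G 0 0 - G 0 N))) :
    ∑ i ∈ range (N - 1), ∑ j ∈ range (N - 1),
        |φ i j - φ (i + 1) j - φ i (j + 1) + φ (i + 1) (j + 1)| ≤ V ∧
      ∑ i ∈ range (N - 1), ∑ j ∈ range N, |φ i j - φ (i + 1) j| ≤ V * N ∧
      ∑ i ∈ range N, ∑ j ∈ range (N - 1), |φ i j - φ i (j + 1)| ≤ V * N := by
  have mG : Mon G := hG ▸ hf.add he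
  have top : ∀ i j, f i j + e i j ≤ 3 * s := fun i j => by
    have := mG.anti 0 0 i j i.zero_le j.zero_le
    simp only [hG] at this h
    linarith
  set a := G 0 0 - G N 0 with ha
  set b := G 0 0 - G 0 N with hb
  have a0 : 0 ≤ a := sub_nonneg.2 (mG.anti 0 0 N 0 N.zero_le le_rfl)
  have b0 : 0 ≤ b := sub_nonneg.2 (mG.anti 0 0 0 N le_rfl N.zero_le)
  have b3 : b ≤ 3 * s := by linarith [mG.nn 0 N]
  have sx := mG.sx (Nat.sub_le N 1)
  have sy := mG.sy (Nat.sub_le N 1)
  have i8 : 0 < 8 / s := by positivity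
  have k1 : 8 / s * a ≤ V ∧ 8 / s * b ≤ V := by
    have : 47 / s = 8 / s + 39 / s := by ring
    have i39 : 0 < 39 / s := by positivity
    rw [hV, this]
    constructor <;> nlinarith [mul_nonneg i8.le a0, mul_nonneg i8.le b0, mul_nonneg i39.le a0,
      mul_nonneg i39.le b0]
  refine ⟨?_, ?_, ?_⟩
  · calc _ ≤ ∑ i ∈ range (N - 1), ∑ j ∈ range (N - 1),
          (8 / s * (G i j - G (i + 1) j - (G i (j + 1) - G (i + 1) (j + 1))) +
            13 / s ^ 2 * ((G i 0 - G (i + 1) 0) * (G 0 j - G 0 (j + 1)))) := by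
          refine sum_le_sum fun i _ => sum_le_sum fun j _ => ?_
          have := four_pt hs hg (hf.nn (i + 1) (j + 1)) (he.nn (i + 1) (j + 1))
            (hf.anti (i + 1) j _ _ le_rfl j.le_succ) (hf.anti i (j + 1) _ _ i.le_succ le_rfl)
            (hf.mix i j _ _ i.le_succ j.le_succ)
            (he.anti (i + 1) j _ _ le_rfl j.le_succ) (he.anti i (j + 1) _ _ i.le_succ le_rfl)
            (he.mix i j _ _ i.le_succ j.le_succ) (top i j)
            (p := G i 0 - G (i + 1) 0) (q := G 0 j - G 0 (j + 1))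
            (by simpa [hG] using mG.dx i j) (by simpa [hG] using mG.dy i j)
          simp only [hφ, hG] at this ⊢
          refine this.trans (le_of_eq ?_)
          ring
      _ = 8 / s * (G 0 0 - G (N - 1) 0 - (G 0 (N - 1) - G (N - 1) (N - 1))) + 13 / s ^ 2 *
            ((∑ i ∈ range (N - 1), (G i 0 - G (i + 1) 0)) *
              ∑ j ∈ range (N - 1), (G 0 j - G 0 (j + 1))) := by
          simp only [sum_add_distrib, ← mul_sum]
          rw [sum_mul]
          congr 2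
          simp only [sum_range_sub' (fun j => G _ j - G _ j)]
          rw [sum_sub_distrib, sum_range_sub' (fun i => G i 0), sum_range_sub' (fun i => G i (N - 1))]
      _ ≤ 8 / s * a + 13 / s ^ 2 * (a * (3 * s)) := by
          have y0 : 0 ≤ ∑ j ∈ range (N - 1), (G 0 j - G 0 (j + 1)) :=
            sum_nonneg fun j _ => sub_nonneg.2 (mG.anti 0 j 0 _ le_rfl j.le_succ)
          gcongr
          · linarith [mG.anti (N - 1) 0 N 0 (Nat.sub_le N 1) le_rfl,
              mG.anti 0 (N - 1) (N - 1) (N - 1) (Nat.zero_le _) le_rfl]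
          · linarith
      _ = 47 / s * a := by field_simp; ring
      _ ≤ V := by rw [hV]; gcongr; linarith
  · calc _ ≤ ∑ i ∈ range (N - 1), ∑ _j ∈ range N, 8 / s * (G i 0 - G (i + 1) 0) := by
          refine sum_le_sum fun i _ => sum_le_sum fun j _ => ?_
          have := two_pt hs hg (hf.nn (i + 1) j) (he.nn (i + 1) j)
            (hf.anti i j _ _ i.le_succ le_rfl) (he.anti i j _ _ i.le_succ le_rfl) (top i j)
          have h2 := mul_le_mul_of_nonneg_left (mG.dx i j) i8.le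
          simp only [hφ, hG] at this h2 ⊢
          exact this.trans h2
      _ = 8 / s * (∑ i ∈ range (N - 1), (G i 0 - G (i + 1) 0)) * N := by
          simp only [sum_const, card_range, nsmul_eq_mul, ← mul_sum]
          ring
      _ ≤ V * N := by
          gcongr
          exact (mul_le_mul_of_nonneg_left sx i8.le).trans k1.1
  · calc _ ≤ ∑ _i ∈ range N, ∑ j ∈ range (N - 1), 8 / s * (G 0 j - G 0 (j + 1)) := by
          refine sum_le_sum fun i _ => sum_le_sum fun j _ => ?_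
          have := two_pt hs hg (hf.nn i (j + 1)) (he.nn i (j + 1))
            (hf.anti i j _ _ le_rfl j.le_succ) (he.anti i j _ _ le_rfl j.le_succ) (top i j)
          have h2 := mul_le_mul_of_nonneg_left (mG.dy i j) i8.le
          simp only [hφ, hG] at this h2 ⊢
          exact this.trans h2
      _ = 8 / s * (∑ j ∈ range (N - 1), (G 0 j - G 0 (j + 1))) * N := by
          simp only [sum_const, card_range, nsmul_eq_mul, ← mul_sum]
          ring
      _ ≤ V * N := by
          gcongr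
          exact (mul_le_mul_of_nonneg_left sy i8.le).trans k1.2

lemma amgm4 {X a b c d : ℝ} (ha : 0 ≤ a) (hb : 0 ≤ b) (hc : 0 ≤ c) (hd : 0 ≤ d)
    (h : X ^ 4 ≤ a * b * c * d) : X ≤ a + b + c + d := by
  by_contra hx
  push Not at hx
  have h1 : a * b * c * d ≤ (a + b + c + d) ^ 4 := by
    calc _ ≤ (a + b + c + d) * (a + b + c + d) * (a + b + c + d) * (a + b + c + d) := by
          gcongr <;> linarith
      _ = _ := by ring
  have := pow_lt_pow_left₀ hx (by positivity) (n := 4) (by norm_num)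
  linarith

end Pool.Agent.P.MP_faec4e_pr.PL
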