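import Pool.Agent.P.MP_faec4e_pr.PL.Base
import Pool.Agent.P.MP_faec4e_pr.PL.Pt

/-! The bound on one good rectangle. -/

set_option autoImplicit false

namespace Pool.Agent.P.MP_faec4e_pr.PL

open MeasureTheory Finset Pool.Agent.P.MP_faec4e_pr

noncomputable section

/-- The sum of the two densities. -/
def FF (f e : P2 → ℝ) (x y : ℝ) : ℝ := f ![x, y] + e ![x, y]

/-- A piece of the test function. -/
def Phi (f e : P2 → ℝ) (g : ℝ → ℝ) (z : P2) : ℝ := (f z - e z) * g (f z + e z)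

lemma rect_num {s κ θ y T α β m H p1 p2 p3 : ℝ} (hs : 0 < s) (hκ : 0 < κ) (θ0 : 0 < θ) (θ1 : θ ≤ 1)
    (hy : 1 ≤ y) (hT : 0 ≤ T) (hα : 0 ≤ α) (hβ : 0 ≤ β) (m0 : 0 ≤ m) (m1 : m ≤ 6 * s) (H0 : 0 ≤ H)
    (H1 : H ≤ 36) (H2 : s * (α * β) * H ≤ 24 * T + 4608 * κ) (h1 : 0 ≤ p1) (h2 : 0 ≤ p2)
    (h3 : 0 ≤ p3) (hp : 2 * 10 ^ 9 * y ^ 8 * κ ^ 2 ≤ θ * (p1 * p2 * p3)) :
    Bd H (3 * s * (α * β) * κ) κ √H + 4 * y ^ 2 * Bd H (3 * s * (α * β) * κ) κ (47 / s * m) +
      432 * κ ≤ θ * T + (p1 * m + p2 * α + p3 * β) + 2000 * y ^ 2 * κ / θ := by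
  set T' := 24 * T + 4608 * κ with hT'
  have T0 : 0 ≤ T' := by positivity
  have a1 : √(√H * √H * (3 * s * (α * β) * κ)) ≤ θ / 48 * T' + 36 * κ / θ := by
    rw [Real.mul_self_sqrt H0, Real.sqrt_le_left (by positivity)]
    have e : 4 * (θ / 48 * T') * (36 * κ / θ) = 3 * κ * T' := by field_simp; ring
    have := mul_le_mul_of_nonneg_left H2 hκ.le
    nlinarith [sq_nonneg (θ / 48 * T' - 36 * κ / θ)]
  have a2 : √H ≤ 6 := by rw [Real.sqrt_le_left (by norm_num)]; linarith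
  have a3 : 4 * y ^ 2 * √(47 / s * m * √H * (3 * s * (α * β) * κ)) ≤
      θ / 48 * T' + p1 * m + p2 * α + p3 * β := by
    refine amgm4 (by positivity) (by positivity) (by positivity) (by positivity) ?_
    have e1 : √(47 / s * m * √H * (3 * s * (α * β) * κ)) ^ 4 =
        (141 * m * (α * β) * κ) ^ 2 * H := by
      rw [show 4 = 2 * 2 by rfl, pow_mul, Real.sq_sqrt (by positivity)]
      have : 47 / s * m * √H * (3 * s * (α * β) * κ) = 141 * m * (α * β) * κ * √H := by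
        field_simp; ring
      rw [this, mul_pow, Real.sq_sqrt H0]
    have e2 : m * (α * β) * H ≤ 6 * T' := by
      have : m * (α * β * H) ≤ 6 * s * (α * β * H) := by gcongr
      nlinarith
    calc _ = 256 * 141 ^ 2 * y ^ 8 * κ ^ 2 * (m * (α * β)) * (m * (α * β) * H) := by
          rw [mul_pow, e1]; ring
      _ ≤ 256 * 141 ^ 2 * y ^ 8 * κ ^ 2 * (m * (α * β)) * (6 * T') := by gcongr
      _ = 1465786368 * (y ^ 8 * κ ^ 2 * (T' / 48 * (m * (α * β)))) := by ring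
      _ ≤ 2000000000 * (y ^ 8 * κ ^ 2 * (T' / 48 * (m * (α * β)))) := by gcongr; norm_num
      _ = (2 * 10 ^ 9 * y ^ 8 * κ ^ 2) * (T' / 48 * (m * (α * β))) := by ring
      _ ≤ θ * (p1 * p2 * p3) * (T' / 48 * (m * (α * β))) := by gcongr
      _ = _ := by ring
  have a4 : 47 / s * m ≤ 282 := by
    calc _ ≤ 47 / s * (6 * s) := by gcongr
      _ = _ := by field_simp; norm_num
  have y2 : 1 ≤ y ^ 2 := by nlinarith
  have k1 : κ ≤ κ / θ := by rw [le_div_iff₀ θ0]; nlinarith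
  have k2 : κ / θ ≤ y ^ 2 * (κ / θ) := by nlinarith [div_pos hκ θ0]
  have k3 : y ^ 2 * κ ≤ y ^ 2 * (κ / θ) := by gcongr
  have k4 : y ^ 2 * (47 / s * m * κ) ≤ y ^ 2 * (282 * κ) := by gcongr
  have k5 : θ * κ ≤ κ := by nlinarith
  have k6 : √H * κ ≤ 6 * κ := by gcongr
  unfold Bd
  have e3 : 2000 * y ^ 2 * κ / θ = 2000 * (y ^ 2 * (κ / θ)) := by ring
  have e4 : 36 * κ / θ = 36 * (κ / θ) := by ring
  rw [e3]
  rw [e4] at a1
  nlinarith

variable {f e : P2 → ℝ} {μ : Measure P2} {M κ s : ℝ} {g : ℝ → ℝ}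

lemma Shape.mon (hf : Shape f) {x y : ℕ → ℝ} (hx : Monotone x) (hy : Monotone y) (x0 : 0 < x 0)
    (y0 : 0 < y 0) : Mon fun i j => f ![x i, y j] := by
  have px : ∀ i, 0 < x i := fun i => x0.trans_le (hx i.zero_le)
  have py : ∀ i, 0 < y i := fun i => y0.trans_le (hy i.zero_le)
  exact ⟨fun _ _ => hf.nonneg _, fun i j i' j' h1 h2 =>
    hf.anti _ _ (by simpa using px i) (by simpa using py j) (by simpa using hx h1)
      (by simpa using hy h2), fun i j i' j' h1 h2 => hf.mix _ _ _ _ (px i) (hx h1) (py j) (hy h2)⟩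

lemma Shape.le_corner (hf : Shape f) {u u' w w' : ℝ} (hu : 0 < u) (hw : 0 < w) {z : P2}
    (hz : z ∈ rect u u' w w') : f z ≤ f ![u, w] ∧ f ![u', w'] ≤ f z :=
  ⟨hf.anti _ _ (by simpa using hu) (by simpa using hw) (by simpa using hz.1.le)
    (by simpa using hz.2.2.1.le), hf.anti _ _ (hu.trans hz.1) (hw.trans hz.2.2.1)
    (by simpa using hz.2.1) (by simpa using hz.2.2.2)⟩

lemma Ctx.e_le (C : Ctx f e μ M κ) {u w σ : ℝ} (hu : 0 < u) (hw : 0 < w) (h : FF f e u w ≤ σ)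
    {a a' b b' : ℝ} (ha : u ≤ a) (hb : w ≤ b) : ∀ z ∈ rect a a' b b', e z ≤ σ := by
  intro z hz
  have := C.he.anti ![u, w] z (by simpa using hu) (by simpa using hw)
    (by simpa using ha.trans hz.1.le) (by simpa using hb.trans hz.2.2.1.le)
  unfold FF at h
  linarith [C.hf.nonneg ![u, w]]

lemma Ctx.meas_Phi (C : Ctx f e μ M κ) (hg : Measurable g) : Measurable (Phi f e g) :=
  (C.hf.meas.sub C.he.meas).mul (hg.comp (C.hf.meas.add C.he.meas))

theorem Ctx.good (C : Ctx f e μ M κ) (hs : 0 < s) (hg : Gam s g) (hb : ∀ z, |Phi f e g z| ≤ 4)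
    {u w α β θ p1 p2 p3 : ℝ} {L : ℕ} (hu : 0 < u) (hw : 0 < w) (hα : 0 ≤ α) (hβ : 0 ≤ β)
    (uM : u + α ≤ M) (wM : w + β ≤ M) (hF : FF f e u w ≤ 3 * s) (hL : s * (α * β) ≤ 2 ^ L * κ)
    (θ0 : 0 < θ) (θ1 : θ ≤ 1) (h1 : 0 ≤ p1) (h2 : 0 ≤ p2) (h3 : 0 ≤ p3)
    (hp : 2 * 10 ^ 9 * ((L : ℝ) + 1) ^ 8 * κ ^ 2 ≤ θ * (p1 * p2 * p3)) :
    |NN μ e (Phi f e g) u (u + α) w (w + β)| ≤ θ * RI volume (tau f e) u (u + α) w (w + β) +
      (p1 * (FF f e u w - FF f e (u + α) w + (FF f e u w - FF f e u (w + β))) + p2 * α + p3 * β) +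
        2000 * ((L : ℝ) + 1) ^ 2 * κ / θ := by
  have κ0 := C.pos
  obtain ⟨x, hx⟩ : ∃ x : ℕ → ℝ, x = fun i => u + α * nd L i := ⟨_, rfl⟩
  obtain ⟨y, hy⟩ : ∃ y : ℕ → ℝ, y = fun i => w + β * nd L i := ⟨_, rfl⟩
  have mx : Monotone x := fun i j h => by
    simp only [hx]
    have := nd_mono L h
    gcongr
  have my : Monotone y := fun i j h => by
    simp only [hy]
    have := nd_mono L h
    gcongr
  have x0 : x 0 = u := by simp [hx, nd_zero]
  have y0 : y 0 = w := by simp [hy, nd_zero]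
  have x1 : x (2 ^ L) = u + α := by simp [hx, nd_top]
  have y1 : y (2 ^ L) = w + β := by simp [hy, nd_top]
  have dx : ∀ i, x (i + 1) - x i = α / 2 ^ L := fun i => by
    have := nd_succ L i
    simp only [hx]
    linear_combination α * this
  have dy : ∀ i, y (i + 1) - y i = β / 2 ^ L := fun i => by
    have := nd_succ L i
    simp only [hy]
    linear_combination β * this
  have ux : ∀ i, u ≤ x i := fun i => x0 ▸ mx i.zero_le
  have wy : ∀ i, w ≤ y i := fun i => y0 ▸ my i.zero_le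
  have xM : ∀ i ∈ range (2 ^ L), x (i + 1) ≤ M := fun i hi =>
    (mx (mem_range.1 hi)).trans (x1 ▸ uM)
  have yM : ∀ i ∈ range (2 ^ L), y (i + 1) ≤ M := fun i hi =>
    (my (mem_range.1 hi)).trans (y1 ▸ wM)
  have mf := C.hf.mon mx my (x0 ▸ hu) (y0 ▸ hw)
  have me := C.he.mon mx my (x0 ▸ hu) (y0 ▸ hw)
  obtain ⟨G, hG⟩ : ∃ G : ℕ → ℕ → ℝ, G = fun i j => f ![x i, y j] + e ![x i, y j] := ⟨_, rfl⟩
  obtain ⟨φ, hφ⟩ : ∃ φ : ℕ → ℕ → ℝ,
    φ = fun i j => (f ![x i, y j] - e ![x i, y j]) * g (G i j) := ⟨_, rfl⟩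
  have mG : Mon G := hG ▸ mf.add me
  have G0 : G 0 0 = FF f e u w := by simp [hG, FF, x0, y0]
  have G1 : G (2 ^ L) 0 = FF f e (u + α) w := by simp only [hG, FF, x1, y0]
  have G2 : G 0 (2 ^ L) = FF f e u (w + β) := by simp only [hG, FF, x0, y1]
  rw [← G0, ← G1, ← G2]
  rw [← G0] at hF
  have top : ∀ i j, G i j ≤ 3 * s := fun i j => (mG.anti 0 0 i j i.zero_le j.zero_le).trans hF
  set a := G 0 0 - G (2 ^ L) 0 with ha
  set b := G 0 0 - G 0 (2 ^ L) with hb'
  have a0 : 0 ≤ a := sub_nonneg.2 (mG.anti 0 0 _ 0 (Nat.zero_le _) le_rfl)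
  have b0 : 0 ≤ b := sub_nonneg.2 (mG.anti 0 0 0 _ le_rfl (Nat.zero_le _))
  have a3 : a ≤ 3 * s := by linarith [mG.nn (2 ^ L) 0]
  have b3 : b ≤ 3 * s := by linarith [mG.nn 0 (2 ^ L)]
  obtain ⟨v12, v1, v2⟩ := arr_var hs hg mf me hG hφ hF (2 ^ L) rfl
  obtain ⟨da, hda⟩ : ∃ da : ℕ → ℝ, da = fun i => G i 0 - G (i + 1) 0 := ⟨_, rfl⟩
  obtain ⟨db, hdb⟩ : ∃ db : ℕ → ℝ, db = fun j => G 0 j - G 0 (j + 1) := ⟨_, rfl⟩
  have da0 : ∀ i, 0 ≤ da i := fun i => hda ▸ sub_nonneg.2 (mG.anti i 0 _ 0 i.le_succ le_rfl)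
  have db0 : ∀ i, 0 ≤ db i := fun i => hdb ▸ sub_nonneg.2 (mG.anti 0 i 0 _ le_rfl i.le_succ)
  have da3 : ∀ i, da i ≤ 3 * s := fun i => by
    simp only [hda]
    linarith [top i 0, mG.nn (i + 1) 0]
  have db3 : ∀ i, db i ≤ 3 * s := fun i => by
    simp only [hdb]
    linarith [top 0 i, mG.nn 0 (i + 1)]
  have sa : ∑ i ∈ range (2 ^ L), da i ≤ a := hda ▸ mG.sx le_rfl
  have sb : ∑ i ∈ range (2 ^ L), db i ≤ b := hdb ▸ mG.sy le_rfl
  have i8 : 0 < 8 / s := by positivity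
  have N0 : (0 : ℝ) < 2 ^ L := by positivity
  have cell : ∀ i j, ∀ z ∈ rect (x i) (x (i + 1)) (y j) (y (j + 1)),
      |Phi f e g z - φ i j| ≤ 8 / s * (da i + db j) ∧ f z + e z ≤ 3 * s := by
    intro i j z hz
    obtain ⟨c1, c2⟩ := C.hf.le_corner (hu.trans_le (ux i)) (hw.trans_le (wy j)) hz
    obtain ⟨c3, c4⟩ := C.he.le_corner (hu.trans_le (ux i)) (hw.trans_le (wy j)) hz
    have t1 := top i j
    have t2 := mG.dx i j
    have t3 := mG.dy (i + 1) j
    simp only [hG] at t1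
    refine ⟨?_, by linarith⟩
    have := two_pt hs hg (C.hf.nonneg z) (C.he.nonneg z) c1 c3 t1
    rw [abs_sub_comm]
    simp only [hφ, hG, Phi]
    refine this.trans (mul_le_mul_of_nonneg_left ?_ i8.le)
    simp only [hda, hdb]
    simp only [hG] at t2 t3 ⊢
    linarith
  have hm := C.meas_Phi hg.meas
  have AΦ := C.NN_add hm hb
  have A1 := C.NN_add (φ := fun _ => 1) measurable_const (b := 1) (by simp)
  have AP := C.PP_add
  have AT := RI_add C.tint
  have strip : 5 / 2 * (3 * s * (α * β / 2 ^ L)) + 3 / 2 * κ ≤ 9 * κ := by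
    have : s * (α * β / 2 ^ L) ≤ κ := by
      rw [← mul_div_assoc, div_le_iff₀ N0]
      linarith
    linarith
  have rem : |NN μ e (Phi f e g) u (u + α) w (w + β) - ∑ i ∈ range (2 ^ L), ∑ j ∈ range (2 ^ L),
      φ i j * NN μ e (fun _ => 1) (x i) (x (i + 1)) (y j) (y (j + 1))| ≤ 432 * κ := by
    have e1 := AΦ.sum_xy mx my (2 ^ L) (2 ^ L)
    rw [x0, x1, y0, y1] at e1
    rw [← e1, ← sum_sub_distrib]
    simp only [← sum_sub_distrib]
    have px : ∀ i ∈ range (2 ^ L), PP μ e (x i) (x (i + 1)) (y 0) (y (2 ^ L)) ≤ 9 * κ := by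
      intro i hi
      have := C.PP_le (hu.le.trans (ux i)) (mx i.le_succ) (xM i hi) hw.le (by linarith) wM
        (by positivity) (C.e_le hu hw (G0 ▸ hF) (ux i) le_rfl)
      rw [dx, show α / 2 ^ L * (w + β - w) = α * β / 2 ^ L by ring] at this
      rw [y0, y1]
      linarith
    have py : ∀ j ∈ range (2 ^ L), PP μ e (x 0) (x (2 ^ L)) (y j) (y (j + 1)) ≤ 9 * κ := by
      intro j hj
      have := C.PP_le hu.le (by linarith) uM (hw.le.trans (wy j)) (my j.le_succ) (yM j hj)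
        (by positivity) (C.e_le hu hw (G0 ▸ hF) le_rfl (wy j))
      rw [dy, show (u + α - u) * (β / 2 ^ L) = α * β / 2 ^ L by ring] at this
      rw [x0, x1]
      linarith
    calc _ ≤ ∑ i ∈ range (2 ^ L), ∑ j ∈ range (2 ^ L),
          8 / s * (da i + db j) * PP μ e (x i) (x (i + 1)) (y j) (y (j + 1)) :=
          (abs_sum_le_sum_abs _ _).trans (sum_le_sum fun i _ => (abs_sum_le_sum_abs _ _).trans
            (sum_le_sum fun j _ => C.NN_close hm hb fun z hz => (cell i j z hz).1))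
      _ = 8 / s * (∑ i ∈ range (2 ^ L), da i * PP μ e (x i) (x (i + 1)) (y 0) (y (2 ^ L)) +
          ∑ j ∈ range (2 ^ L), db j * PP μ e (x 0) (x (2 ^ L)) (y j) (y (j + 1))) := by
          simp only [← AP.sum_y my _ _ (2 ^ L), ← AP.sum_x mx (y _) (y (_ + 1)) (2 ^ L), mul_sum]
          rw [sum_comm (s := range (2 ^ L))
            (f := fun j i => db j * PP μ e (x i) (x (i + 1)) (y j) (y (j + 1))), ← sum_add_distrib,
            mul_sum]
          refine sum_congr rfl fun i _ => ?_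
          rw [← sum_add_distrib, mul_sum]
          exact sum_congr rfl fun j _ => by ring
      _ ≤ 8 / s * (∑ i ∈ range (2 ^ L), da i * (9 * κ) + ∑ j ∈ range (2 ^ L), db j * (9 * κ)) := by
          gcongr with i hi j hj
          exacts [da0 i, px i hi, db0 j, py j hj]
      _ ≤ 8 / s * (3 * s * (9 * κ) + 3 * s * (9 * κ)) := by
          simp only [← sum_mul]
          gcongr <;> linarith
      _ = _ := by field_simp; ring
  obtain ⟨H, hH⟩ : ∃ H : ℝ, H = (∑ i ∈ range (2 ^ L), ∑ j ∈ range (2 ^ L), φ i j ^ 2) /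
    (2 ^ L * 2 ^ L) := ⟨_, rfl⟩
  have H0 : 0 ≤ H := by rw [hH]; positivity
  have H1 : H ≤ 36 := by
    rw [hH, div_le_iff₀ (by positivity)]
    calc _ ≤ ∑ _i ∈ range (2 ^ L), ∑ _j ∈ range (2 ^ L), (36 : ℝ) := by
          refine sum_le_sum fun i _ => sum_le_sum fun j _ => ?_
          have := (one_pt hs hg (mf.nn i j) (me.nn i j) (by simpa [hG] using top i j)).1
          simp only [hφ, hG]
          rw [← sq_abs]
          nlinarith [abs_nonneg ((f ![x i, y j] - e ![x i, y j]) * g (f ![x i, y j] + e ![x i, y j]))]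
      _ = _ := by simp; ring
  have H2 : s * (α * β) * H ≤ 24 * RI volume (tau f e) u (u + α) w (w + β) + 4608 * κ := by
    have c1 : ∀ i j, (φ i j ^ 2 - 768 / s * (da i + db j)) * (α * β / (2 ^ L * 2 ^ L)) ≤
        24 / s * RI volume (tau f e) (x i) (x (i + 1)) (y j) (y (j + 1)) := by
      intro i j
      have := RI_lower C.tint (mx i.le_succ) (my j.le_succ)
        (c := φ i j ^ 2 - 768 / s * (da i + db j)) (k := 24 / s) fun z hz => ?_
      · rwa [dx, dy, div_mul_div_comm] at this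
      obtain ⟨c1, c2⟩ := cell i j z hz
      have c3 := (one_pt hs hg (C.hf.nonneg z) (C.he.nonneg z) c2).2
      have c4 : (Phi f e g z - φ i j) ^ 2 ≤ 384 / s * (da i + db j) := by
        have d0 := add_nonneg (da0 i) (db0 j)
        calc _ ≤ (8 / s * (da i + db j)) ^ 2 := by rw [← sq_abs]; gcongr
          _ = 64 / s ^ 2 * (da i + db j) * (da i + db j) := by ring
          _ ≤ 64 / s ^ 2 * (6 * s) * (da i + db j) := by gcongr; linarith [da3 i, db3 j]
          _ = _ := by field_simp; ring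
      have c5 : Phi f e g z ^ 2 ≤ 12 / s * tau f e z := c3
      have e1 : 768 / s * (da i + db j) = 2 * (384 / s * (da i + db j)) := by ring
      have e2 : 24 / s * tau f e z = 2 * (12 / s * tau f e z) := by ring
      have e3 : φ i j ^ 2 + (2 * Phi f e g z - φ i j) ^ 2 =
          2 * Phi f e g z ^ 2 + 2 * (Phi f e g z - φ i j) ^ 2 := by ring
      linarith [sq_nonneg (2 * Phi f e g z - φ i j)]
    have c2 := sum_le_sum fun i (_ : i ∈ range (2 ^ L)) =>
      sum_le_sum fun j (_ : j ∈ range (2 ^ L)) => c1 i j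
    simp only [← mul_sum, ← sum_mul, sum_sub_distrib, sum_add_distrib, AT.sum_xy mx my, sum_const,
      card_range, nsmul_eq_mul] at c2
    rw [x0, x1, y0, y1] at c2
    push_cast at c2
    have c3 : 2 ^ L * ∑ i ∈ range (2 ^ L), da i + 2 ^ L * ∑ i ∈ range (2 ^ L), db i ≤
        2 ^ L * (6 * s) := by
      rw [← mul_add]
      exact mul_le_mul_of_nonneg_left (by linarith) N0.le
    have c4 : 768 / s * (2 ^ L * ∑ i ∈ range (2 ^ L), da i + 2 ^ L * ∑ i ∈ range (2 ^ L), db i) *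
        (α * β / (2 ^ L * 2 ^ L)) ≤ 4608 * κ / s := by
      calc _ ≤ 768 / s * (2 ^ L * (6 * s)) * (α * β / (2 ^ L * 2 ^ L)) := by gcongr
        _ = 4608 * (s * (α * β) / 2 ^ L) / s := by field_simp; ring
        _ ≤ _ := by gcongr; rw [div_le_iff₀ N0]; linarith
    have c5 : α * β * H ≤ (24 * RI volume (tau f e) u (u + α) w (w + β) + 4608 * κ) / s := by
      have e1 : α * β * H = (∑ i ∈ range (2 ^ L), ∑ j ∈ range (2 ^ L), φ i j ^ 2) *
          (α * β / (2 ^ L * 2 ^ L)) := by rw [hH]; ring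
      have e2 : (24 * RI volume (tau f e) u (u + α) w (w + β) + 4608 * κ) / s =
          24 / s * RI volume (tau f e) u (u + α) w (w + β) + 4608 * κ / s := by ring
      rw [e1, e2]
      rw [sub_mul] at c2
      linarith
    rw [le_div_iff₀ hs] at c5
    linarith
  have main := lemX (fun a b p q => NN μ e (fun _ => 1) (u + α * a) (u + α * b) (w + β * p) (w + β * q))
    (H := H) (τ := 3 * s * (α * β) * κ) (κ := κ) (V := 47 / s * (a + b)) H0 (by positivity) κ0.le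
    (fun a b c p q h1 h2 => A1.x _ _ _ _ _ (by gcongr) (by gcongr))
    (fun p q a b c h1 h2 => A1.y _ _ _ _ _ (by gcongr) (by gcongr)) ?_ L L φ
    (by rw [hH]; field_simp; rfl) v12 (by simpa using v1) (by simpa using v2)
  · have num := rect_num hs κ0 θ0 θ1 (y := (L : ℝ) + 1) (by linarith [Nat.cast_nonneg (α := ℝ) L])
      (C.T_nonneg u (u + α) w (w + β)) hα hβ (add_nonneg a0 b0) (by linarith) H0 H1 H2 h1 h2 h3 hp
    have B0 := Bd_nonneg (H := H) (τ := 3 * s * (α * β) * κ) (κ := κ) (V := 47 / s * (a + b))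
      (by positivity) κ0.le
    have B1 : (2 * (L : ℝ) + L * (2 + 4 * L)) * Bd H (3 * s * (α * β) * κ) κ (47 / s * (a + b)) ≤
        4 * ((L : ℝ) + 1) ^ 2 * Bd H (3 * s * (α * β) * κ) κ (47 / s * (a + b)) := by
      gcongr
      nlinarith [Nat.cast_nonneg (α := ℝ) L]
    simp only [hx, hy] at rem
    rw [abs_le] at *
    constructor <;> linarith [rem.1, rem.2, main.1, main.2]
  · intro a b p q a0 ab b1 p0 pq q1
    have := C.NN_one (u := u + α * a) (u' := u + α * b) (w := w + β * p) (w' := w + β * q)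
      (by positivity) (by gcongr) (by nlinarith) (by positivity) (by gcongr) (by nlinarith)
      (by positivity) (C.e_le hu hw (G0 ▸ hF) (by nlinarith) (by nlinarith))
    refine this.trans (le_of_eq ?_)
    congr 2
    ring

end

end Pool.Agent.P.MP_faec4e_pr.PL
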