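import Pool.Agent.P.MP_faec4e_pr.PL.Iface

/-! Step SHAPE. -/

set_option autoImplicit false

namespace Pool.Agent.P.MP_faec4e_pr.PL

open MeasureTheory Set Pool.Agent.P.MP_faec4e_pr
open scoped ENNReal

/-- The kernel of the mixture. -/
noncomputable def shape_k (a b : ℝ) (y : P2) : ℝ :=
  if a ≤ y 0 ∧ b ≤ y 1 then (y 0 * y 1)⁻¹ else 0

lemma shape_nonneg {a b : ℝ} (ha : 0 < a) (hb : 0 < b) (y : P2) : 0 ≤ shape_k a b y := by
  unfold shape_k
  split_ifs with h
  · exact inv_nonneg.2 (mul_nonneg (ha.le.trans h.1) (hb.le.trans h.2))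
  · exact le_rfl

lemma shape_le {a b : ℝ} (ha : 0 < a) (hb : 0 < b) (y : P2) : shape_k a b y ≤ (a * b)⁻¹ := by
  unfold shape_k
  split_ifs with h
  · exact inv_anti₀ (mul_pos ha hb) (mul_le_mul h.1 h.2 hb.le (ha.le.trans h.1))
  · positivity

lemma shape_meas (a b : ℝ) : Measurable (shape_k a b) := by
  unfold shape_k
  exact Measurable.ite (by measurability) (by fun_prop) measurable_const

lemma shape_int (G : Measure P2) [IsProbabilityMeasure G] {a b : ℝ} (ha : 0 < a) (hb : 0 < b) :
    Integrable (shape_k a b) G :=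
  Integrable.of_bound (shape_meas a b).aestronglyMeasurable (a * b)⁻¹
    (.of_forall fun y => by
      rw [Real.norm_of_nonneg (shape_nonneg ha hb y)]; exact shape_le ha hb y)

lemma shape_eq (G : Measure P2) {z : P2} (h0 : 0 < z 0) (h1 : 0 < z 1) :
    smu G z = ∫ y, shape_k (z 0) (z 1) y ∂G := by
  rw [smu, ← integral_indicator (measurableSet_up z)]
  refine integral_congr_ae (.of_forall fun y => ?_)
  simp only [indicator, shape_k, mem_ofPred_eq, Fin.forall_fin_two, h0, h1, true_and,
    Fin.prod_univ_two]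

theorem p_SHAPE :
    S_SHAPE := by
  intro f hf
  have hint := hf.integrable
  obtain ⟨G, hG, hpos, rfl⟩ := hf
  have key : ∀ a b : ℝ, 0 < a → 0 < b → smu G ![a, b] = ∫ y, shape_k a b y ∂G :=
    fun a b ha hb => shape_eq G (z := ![a, b]) ha hb
  refine ⟨measurable_smu G, smu_nonneg G, fun z z' h0 h1 h2 h3 => ?_,
    fun x x' y y' hx hxx hy hyy => ?_, fun x y hx hy => ?_, fun z hz => ?_, hint, ?_⟩
  · have h0' := h0.trans_le h2
    have h1' := h1.trans_le h3
    rw [shape_eq G h0 h1, shape_eq G h0' h1']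
    refine integral_mono (shape_int G h0' h1') (shape_int G h0 h1) fun y => ?_
    by_cases h : z' 0 ≤ y 0 ∧ z' 1 ≤ y 1
    · simp only [shape_k, if_pos h, if_pos (And.intro (h2.trans h.1) (h3.trans h.2)), le_refl]
    · have := shape_nonneg h0 h1 y
      simpa only [shape_k, if_neg h] using this
  · have hx' := hx.trans_le hxx
    have hy' := hy.trans_le hyy
    rw [key _ _ hx' hy, key _ _ hx hy', key _ _ hx hy, key _ _ hx' hy',
      ← integral_add (shape_int G hx' hy) (shape_int G hx hy'),
      ← integral_add (shape_int G hx hy) (shape_int G hx' hy')]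
    refine integral_mono ((shape_int G hx' hy).add (shape_int G hx hy'))
      ((shape_int G hx hy).add (shape_int G hx' hy')) fun w => ?_
    have n1 := shape_nonneg hx hy w
    by_cases a1 : x' ≤ w 0 <;> by_cases a2 : y' ≤ w 1
    · simp [shape_k, a1, a2, hxx.trans a1, hyy.trans a2]
    · simp [shape_k, a1, a2, hxx.trans a1]
    · simp [shape_k, a1, a2, hyy.trans a2]
    · simpa [shape_k, a1, a2] using n1
  · rw [key _ _ hx hy, ← le_div_iff₀ (mul_pos hx hy), one_div]
    have := integral_mono (shape_int G hx hy) (integrable_const (x * y)⁻¹) (shape_le hx hy)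
    simpa using this
  · have : {y : P2 | ∀ i, 0 < z i ∧ z i ≤ y i} = ∅ :=
      eq_empty_of_forall_notMem fun y hy => hz.elim (not_le.2 (hy 0).1) (not_le.2 (hy 1).1)
    rw [smu, this, setIntegral_empty]
  · rw [integral_eq_lintegral_of_nonneg_ae (.of_forall (smu_nonneg G))
      (measurable_smu G).aestronglyMeasurable, lintegral_smu G hpos, ENNReal.toReal_one]

end Pool.Agent.P.MP_faec4e_pr.PL
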